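import Pool.Agent.Helper72.AI.Stmts2

set_option autoImplicit false
set_option linter.all false

/-! Bernstein certificate (generated). -/

namespace AffInc.Cert

-- piece UA0: L in [3/5, 7/10], C=77/200 w=3/10 m=11/500 R=241/400
private lemma UA0_p1_c0 (L v : ℝ) (hL0 : (3/5) ≤ L) (hL1 : L ≤ (13/20)) (hv0 : 0 ≤ v) (hv1 : v ≤ (7/40)) :
    0 ≤ ((4 * (77/200) - ((11/500) * (v - L / 3) + (241/400) / 3) * (2 + v)^2) * (L * (1 + L - v)) - (3/10) * ((L - v * (1 + L - v)) * (2 + v)^2)) := by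
  have a0 : 0 ≤ L - (3/5) := by linarith
  have a1 : 0 ≤ (13/20) - L := by linarith
  have b0 : 0 ≤ v := by linarith
  have b1 : 0 ≤ (7/40) - v := by linarith
  have key : ((4 * (77/200) - ((11/500) * (v - L / 3) + (241/400) / 3) * (2 + v)^2) * (L * (1 + L - v)) - (3/10) * ((L - v * (1 + L - v)) * (2 + v)^2))
    = (83886080/2401) * (((13/20) - L)^3 * ((7/40) - v)^4) + (8167424/2401) * (((13/20) - L)^3 * v * ((7/40) - v)^3) + (87081984/12005) * (((13/20) - L)^3 * v^2 * ((7/40) - v)^2) + (283261152/2401) * (((13/20) - L)^3 * v^3 * ((7/40) - v)) + (923086224/12005) * (((13/20) - L)^3 * v^4) + (2252718080/7203) * ((L - (3/5)) * ((13/20) - L)^2 * ((7/40) - v)^4) + (4631281664/7203) * ((L - (3/5)) * ((13/20) - L)^2 * v * ((7/40) - v)^3) + (8251034048/12005) * ((L - (3/5)) * ((13/20) - L)^2 * v^2 * ((7/40) - v)^2) + (7439162984/12005) * ((L - (3/5)) * ((13/20) - L)^2 * v^3 * ((7/40) - v)) + (3069874404/12005) * ((L - (3/5)) * ((13/20)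 - L)^2 * v^4) + (3876229120/7203) * ((L - (3/5))^2 * ((13/20) - L) * ((7/40) - v)^4) + (9669587456/7203) * ((L - (3/5))^2 * ((13/20) - L) * v * ((7/40) - v)^3) + (52150399856/36015) * ((L - (3/5))^2 * ((13/20) - L) * v^2 * ((7/40) - v)^2) + (11350453872/12005) * ((L - (3/5))^2 * ((13/20) - L) * v^3 * ((7/40) - v)) + (3540162952/12005) * ((L - (3/5))^2 * ((13/20) - L) * v^4) + (625131520/2401) * ((L - (3/5))^3 * ((7/40) - v)^4) + (5063748608/7203) * ((L - (3/5))^3 * v * ((7/40) - v)^3) + (27665902048/36015) * ((L - (3/5))^3 * v^2 * ((7/40) - v)^2) + (5329301384/12005) * ((L - (3/5))^3 * v^3 * ((7/40) - v)) + (278763764/2401) * ((L - (3/5))^3 * v^4) := by ring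
  rw [key]; positivity

private lemma UA0_p1_c1 (L v : ℝ) (hL0 : (3/5) ≤ L) (hL1 : L ≤ (13/20)) (hv0 : (7/40) ≤ v) (hv1 : v ≤ (7/20)) :
    0 ≤ ((4 * (77/200) - ((11/500) * (v - L / 3) + (241/400) / 3) * (2 + v)^2) * (L * (1 + L - v)) - (3/10) * ((L - v * (1 + L - v)) * (2 + v)^2)) := by
  have a0 : 0 ≤ L - (3/5) := by linarith
  have a1 : 0 ≤ (13/20) - L := by linarith
  have b0 : 0 ≤ v - (7/40) := by linarith
  have b1 : 0 ≤ (7/20) - v := by linarith
  have key : ((4 * (77/200) - ((11/500) * (v - L / 3) + (241/400) / 3) * (2 + v)^2) * (L * (1 + L - v)) - (3/10) * ((L - v * (1 + L - v)) * (2 + v)^2))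
    = (923086224/12005) * (((13/20) - L)^3 * ((7/20) - v)^4) + (5968384032/12005) * (((13/20) - L)^3 * (v - (7/40)) * ((7/20) - v)^3) + (2748663360/2401) * (((13/20) - L)^3 * (v - (7/40))^2 * ((7/20) - v)^2) + (12850580864/12005) * (((13/20) - L)^3 * (v - (7/40))^3 * ((7/20) - v)) + (825003520/2401) * (((13/20) - L)^3 * (v - (7/40))^4) + (3069874404/12005) * ((L - (3/5)) * ((13/20) - L)^2 * ((7/20) - v)^4) + (17119832248/12005) * ((L - (3/5)) * ((13/20) - L)^2 * (v - (7/40)) * ((7/20) - v)^3) + (7458608368/2401) * ((L - (3/5)) * ((13/20) - L)^2 * (v - (7/40))^2 * ((7/20) - v)^2) + (102754075616/36015) * ((L - (3/5)) * ((13/20) - L)^2 * (v - (7/40))^3 * ((7/20) - v)) + (32777242112/36015) * ((L - (3/5)) * ((13/20) - L)^2 * (v - (7/40))^4) + (3540162952/12005) * ((L - (3/5))^2 * ((13/20) - L) * ((7/20) - v)^4) + (16970849744/12005) * ((L - (3/5))^2 * ((13/20) - L) * (v - (7/40)) * ((7/20) - v)^3) + (102733962704/36015) * ((L - (3/5))^2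 * ((13/20) - L) * (v - (7/40))^2 * ((7/20) - v)^2) + (91492966144/36015) * ((L - (3/5))^2 * ((13/20) - L) * (v - (7/40))^3 * ((7/20) - v)) + (28803799232/36015) * ((L - (3/5))^2 * ((13/20) - L) * (v - (7/40))^4) + (278763764/2401) * ((L - (3/5))^3 * ((7/20) - v)^4) + (5821249176/12005) * ((L - (3/5))^3 * (v - (7/40)) * ((7/20) - v)^3) + (32093432176/36015) * ((L - (3/5))^3 * (v - (7/40))^2 * ((7/20) - v)^2) + (9098874016/12005) * ((L - (3/5))^3 * (v - (7/40))^3 * ((7/20) - v)) + (8403165056/36015) * ((L - (3/5))^3 * (v - (7/40))^4) := by ring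
  rw [key]; positivity

private lemma UA0_p1_c2 (L v : ℝ) (hL0 : (13/20) ≤ L) (hL1 : L ≤ (7/10)) (hv0 : 0 ≤ v) (hv1 : v ≤ (7/20)) :
    0 ≤ ((4 * (77/200) - ((11/500) * (v - L / 3) + (241/400) / 3) * (2 + v)^2) * (L * (1 + L - v)) - (3/10) * ((L - v * (1 + L - v)) * (2 + v)^2)) := by
  have a0 : 0 ≤ L - (13/20) := by linarith
  have a1 : 0 ≤ (7/10) - L := by linarith
  have b0 : 0 ≤ v := by linarith
  have b1 : 0 ≤ (7/20) - v := by linarith
  have key : ((4 * (77/200) - ((11/500) * (v - L / 3) + (241/400) / 3) * (2 + v)^2) * (L * (1 + L - v)) - (3/10) * ((L - v * (1 + L - v)) * (2 + v)^2))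
    = (39070720/2401) * (((7/10) - L)^3 * ((7/20) - v)^4) + (164119936/7203) * (((7/10) - L)^3 * v * ((7/20) - v)^3) + (938311672/36015) * (((7/10) - L)^3 * v^2 * ((7/20) - v)^2) + (1311286492/36015) * (((7/10) - L)^3 * v^3 * ((7/20) - v)) + (525197816/36015) * (((7/10) - L)^3 * v^4) + (461008640/7203) * ((L - (13/20)) * ((7/10) - L)^2 * ((7/20) - v)^4) + (248359488/2401) * ((L - (13/20)) * ((7/10) - L)^2 * v * ((7/20) - v)^3) + (3454816948/36015) * ((L - (13/20)) * ((7/10) - L)^2 * v^2 * ((7/20) - v)^2) + (1210682664/12005) * ((L - (13/20)) * ((7/10) - L)^2 * v^3 * ((7/20) - v)) + (1350949444/36015) * ((L - (13/20)) * ((7/10) - L)^2 * v^4) + (578283520/7203) * ((L - (13/20))^2 * ((7/10) - L) * ((7/20) - v)^4) + (1026605312/7203) * ((L - (13/20))^2 * ((7/10) - L) * v * ((7/20) - v)^3) + (4287996544/36015) * ((L - (13/20))^2 * ((7/10) - L) * v^2 * ((7/20) - v)^2) + (3442702988/36015) * ((L - (13/20))^2 * ((7/10) - L) * v^3 * ((7/20)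 - v)) + (383333872/12005) * ((L - (13/20))^2 * ((7/10) - L) * v^4) + (11166720/343) * ((L - (13/20))^3 * ((7/20) - v)^4) + (21224192/343) * ((L - (13/20))^3 * v * ((7/20) - v)^3) + (12054352/245) * ((L - (13/20))^3 * v^2 * ((7/20) - v)^2) + (10688584/343) * ((L - (13/20))^3 * v^3 * ((7/20) - v)) + (15445104/1715) * ((L - (13/20))^3 * v^4) := by ring
  rw [key]; positivity

private lemma UA0_p1_c3 (L v : ℝ) (hL0 : (3/5) ≤ L) (hL1 : L ≤ (7/10)) (hv0 : (7/20) ≤ v) (hv1 : v ≤ (7/10)) :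
    0 ≤ ((4 * (77/200) - ((11/500) * (v - L / 3) + (241/400) / 3) * (2 + v)^2) * (L * (1 + L - v)) - (3/10) * ((L - v * (1 + L - v)) * (2 + v)^2)) := by
  have a0 : 0 ≤ L - (3/5) := by linarith
  have a1 : 0 ≤ (7/10) - L := by linarith
  have b0 : 0 ≤ v - (7/20) := by linarith
  have b1 : 0 ≤ (7/10) - v := by linarith
  have key : ((4 * (77/200) - ((11/500) * (v - L / 3) + (241/400) / 3) * (2 + v)^2) * (L * (1 + L - v)) - (3/10) * ((L - v * (1 + L - v)) * (2 + v)^2))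
    = (6445340/2401) * (((7/10) - L)^3 * ((7/10) - v)^4) + (185930074/12005) * (((7/10) - L)^3 * (v - (7/20)) * ((7/10) - v)^3) + (362607516/12005) * (((7/10) - L)^3 * (v - (7/20))^2 * ((7/10) - v)^2) + (262992696/12005) * (((7/10) - L)^3 * (v - (7/20))^3 * ((7/10) - v)) + (10129104/2401) * (((7/10) - L)^3 * (v - (7/20))^4) + (222104108/36015) * ((L - (3/5)) * ((7/10) - L)^2 * ((7/10) - v)^4) + (1261297367/36015) * ((L - (3/5)) * ((7/10) - L)^2 * (v - (7/20)) * ((7/10) - v)^3) + (828397322/12005) * ((L - (3/5)) * ((7/10) - L)^2 * (v - (7/20))^2 * ((7/10) - v)^2) + (593548492/12005) * ((L - (3/5)) * ((7/10) - L)^2 * (v - (7/20))^3 * ((7/10) - v)) + (101246232/12005) * ((L - (3/5)) * ((7/10) - L)^2 * (v - (7/20))^4) + (11058014/2401) * ((L - (3/5))^2 * ((7/10) - L) * ((7/10) - v)^4) + (887148928/36015) * ((L - (3/5))^2 * ((7/10) - L) * (v - (7/20)) * ((7/10) - v)^3) + (349902302/7203) * ((L - (3/5))^2 * ((7/10) - L) * (v - (7/20))^2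 * ((7/10) - v)^2) + (404183848/12005) * ((L - (3/5))^2 * ((7/10) - L) * (v - (7/20))^3 * ((7/10) - v)) + (51163304/12005) * ((L - (3/5))^2 * ((7/10) - L) * (v - (7/20))^4) + (1930638/1715) * ((L - (3/5))^3 * ((7/10) - v)^4) + (8764739/1715) * ((L - (3/5))^3 * (v - (7/20)) * ((7/10) - v)^3) + (3360136/343) * ((L - (3/5))^3 * (v - (7/20))^2 * ((7/10) - v)^2) + (10541148/1715) * ((L - (3/5))^3 * (v - (7/20))^3 * ((7/10) - v)) + (17296/343) * ((L - (3/5))^3 * (v - (7/20))^4) := by ring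
  rw [key]; positivity

lemma UA0_p1 (L v : ℝ) (hL0 : (3/5) ≤ L) (hL1 : L ≤ (7/10)) (hv0 : 0 ≤ v) (hv1 : v ≤ (7/10)) :
    0 ≤ ((4 * (77/200) - ((11/500) * (v - L / 3) + (241/400) / 3) * (2 + v)^2) * (L * (1 + L - v)) - (3/10) * ((L - v * (1 + L - v)) * (2 + v)^2)) := by
  rcases le_total v (7/20) with h0 | h0
  · skip
    rcases le_total L (13/20) with h1 | h1
    · skip
      rcases le_total v (7/40) with h2 | h2
      · skip
        exact UA0_p1_c0 L v (by linarith) (by linarith) (by linarith) (by linarith)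
      · skip
        exact UA0_p1_c1 L v (by linarith) (by linarith) (by linarith) (by linarith)
    · skip
      exact UA0_p1_c2 L v (by linarith) (by linarith) (by linarith) (by linarith)
  · skip
    exact UA0_p1_c3 L v (by linarith) (by linarith) (by linarith) (by linarith)

end AffInc.Cert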