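import Pool.Agent.Helper72.AI.Stmts2

set_option autoImplicit false
set_option linter.all false

/-! Bernstein certificate (generated). -/

namespace AffInc.Cert

-- piece UA1: L in [7/10, 4/5], C=77/200 w=26/85 m=-1/125 R=8603/14450
private lemma UA1_p1_c0 (L v : ℝ) (hL0 : (7/10) ≤ L) (hL1 : L ≤ (4/5)) (hv0 : 0 ≤ v) (hv1 : v ≤ (2/5)) :
    0 ≤ ((4 * (77/200) - ((-(1/125)) * (v - L / 3) + (8603/14450) / 3) * (2 + v)^2) * (L * (1 + L - v)) - (26/85) * ((L - v * (1 + L - v)) * (2 + v)^2)) := by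
  have a0 : 0 ≤ L - (7/10) := by linarith
  have a1 : 0 ≤ (4/5) - L := by linarith
  have b0 : 0 ≤ v := by linarith
  have b1 : 0 ≤ (2/5) - v := by linarith
  have key : ((4 * (77/200) - ((-(1/125)) * (v - L / 3) + (8603/14450) / 3) * (2 + v)^2) * (L * (1 + L - v)) - (26/85) * ((L - v * (1 + L - v)) * (2 + v)^2))
    = (240135/272) * (((4/5) - L)^3 * ((2/5) - v)^4) + (76718/289) * (((4/5) - L)^3 * v * ((2/5) - v)^3) + (1106851/680) * (((4/5) - L)^3 * v^2 * ((2/5) - v)^2) + (13149497/2890) * (((4/5) - L)^3 * v^3 * ((2/5) - v)) + (9217507/4624) * (((4/5) - L)^3 * v^4) + (65822795/13872) * ((L - (7/10)) * ((4/5) - L)^2 * ((2/5) - v)^4) + (5936069/1156) * ((L - (7/10)) * ((4/5) - L)^2 * v * ((2/5) - v)^3) + (212408107/34680) * ((L - (7/10)) * ((4/5) - L)^2 * v^2 * ((2/5) - v)^2) + (67204387/5780) * ((L - (7/10)) * ((4/5) - L)^2 * v^3 * ((2/5) - v)) + (114605953/23120) * ((L - (7/10)) * ((4/5) - L)^2 *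 v^4) + (49384565/6936) * ((L - (7/10))^2 * ((4/5) - L) * ((2/5) - v)^4) + (36293813/3468) * ((L - (7/10))^2 * ((4/5) - L) * v * ((2/5) - v)^3) + (75081727/8670) * ((L - (7/10))^2 * ((4/5) - L) * v^2 * ((2/5) - v)^2) + (59710389/5780) * ((L - (7/10))^2 * ((4/5) - L) * v^3 * ((2/5) - v)) + (47162873/11560) * ((L - (7/10))^2 * ((4/5) - L) * v^4) + (941405/289) * ((L - (7/10))^3 * ((2/5) - v)^4) + (4849966/867) * ((L - (7/10))^3 * v * ((2/5) - v)^3) + (18032948/4335) * ((L - (7/10))^3 * v^2 * ((2/5) - v)^2) + (939614/289) * ((L - (7/10))^3 * v^3 * ((2/5) - v)) + (1612091/1445) * ((L - (7/10))^3 * v^4) := by ring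
  rw [key]; positivity

private lemma UA1_p1_c1 (L v : ℝ) (hL0 : (7/10) ≤ L) (hL1 : L ≤ (4/5)) (hv0 : (2/5) ≤ v) (hv1 : v ≤ (4/5)) :
    0 ≤ ((4 * (77/200) - ((-(1/125)) * (v - L / 3) + (8603/14450) / 3) * (2 + v)^2) * (L * (1 + L - v)) - (26/85) * ((L - v * (1 + L - v)) * (2 + v)^2)) := by
  have a0 : 0 ≤ L - (7/10) := by linarith
  have a1 : 0 ≤ (4/5) - L := by linarith
  have b0 : 0 ≤ v - (2/5) := by linarith
  have b1 : 0 ≤ (4/5) - v := by linarith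
  have key : ((4 * (77/200) - ((-(1/125)) * (v - L / 3) + (8603/14450) / 3) * (2 + v)^2) * (L * (1 + L - v)) - (26/85) * ((L - v * (1 + L - v)) * (2 + v)^2))
    = (9217507/4624) * (((4/5) - L)^3 * ((4/5) - v)^4) + (16469019/1445) * (((4/5) - L)^3 * (v - (2/5)) * ((4/5) - v)^3) + (256278959/11560) * (((4/5) - L)^3 * (v - (2/5))^2 * ((4/5) - v)^2) + (44605463/2890) * (((4/5) - L)^3 * (v - (2/5))^3 * ((4/5) - v)) + (54501083/23120) * (((4/5) - L)^3 * (v - (2/5))^4) + (114605953/23120) * ((L - (7/10)) * ((4/5) - L)^2 * ((4/5) - v)^4) + (162007519/5780) * ((L - (7/10)) * ((4/5) - L)^2 * (v - (2/5)) * ((4/5) - v)^3) + (1918864483/34680) * ((L - (7/10)) * ((4/5) - L)^2 * (v - (2/5))^2 * ((4/5) - v)^2) + (666960119/17340) * ((L - (7/10)) * ((4/5) - L)^2 * (v - (2/5))^3 * ((4/5) - v)) + (121838381/23120) * ((L - (7/10)) * ((4/5) - L)^2 * (v - (2/5))^4) + (47162873/11560) * ((L - (7/10))^2 * ((4/5) - L) *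 ((4/5) - v)^4) + (128941103/5780) * ((L - (7/10))^2 * ((4/5) - L) * (v - (2/5)) * ((4/5) - v)^3) + (38661994/867) * ((L - (7/10))^2 * ((4/5) - L) * (v - (2/5))^2 * ((4/5) - v)^2) + (533428651/17340) * ((L - (7/10))^2 * ((4/5) - L) * (v - (2/5))^3 * ((4/5) - v)) + (120073429/34680) * ((L - (7/10))^2 * ((4/5) - L) * (v - (2/5))^4) + (1612091/1445) * ((L - (7/10))^3 * ((4/5) - v)^4) + (482274/85) * ((L - (7/10))^3 * (v - (2/5)) * ((4/5) - v)^3) + (9907648/867) * ((L - (7/10))^3 * (v - (2/5))^2 * ((4/5) - v)^2) + (11170726/1445) * ((L - (7/10))^3 * (v - (2/5))^3 * ((4/5) - v)) + (475979/867) * ((L - (7/10))^3 * (v - (2/5))^4) := by ring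
  rw [key]; positivity

lemma UA1_p1 (L v : ℝ) (hL0 : (7/10) ≤ L) (hL1 : L ≤ (4/5)) (hv0 : 0 ≤ v) (hv1 : v ≤ (4/5)) :
    0 ≤ ((4 * (77/200) - ((-(1/125)) * (v - L / 3) + (8603/14450) / 3) * (2 + v)^2) * (L * (1 + L - v)) - (26/85) * ((L - v * (1 + L - v)) * (2 + v)^2)) := by
  rcases le_total v (2/5) with h0 | h0
  · skip
    exact UA1_p1_c0 L v (by linarith) (by linarith) (by linarith) (by linarith)
  · skip
    exact UA1_p1_c1 L v (by linarith) (by linarith) (by linarith) (by linarith)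

end AffInc.Cert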