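import Pool.Agent.Helper72.AI.Stmts2

set_option autoImplicit false
set_option linter.all false

/-! Bernstein certificate (generated). -/

namespace AffInc.Cert

-- piece UA2: L in [4/5, 9/10], C=77/200 w=14/45 m=-3/100 R=2387/4050
private lemma UA2_p1_c0 (L v : ℝ) (hL0 : (4/5) ≤ L) (hL1 : L ≤ (9/10)) (hv0 : 0 ≤ v) (hv1 : v ≤ (9/20)) :
    0 ≤ ((4 * (77/200) - ((-(3/100)) * (v - L / 3) + (2387/4050) / 3) * (2 + v)^2) * (L * (1 + L - v)) - (14/45) * ((L - v * (1 + L - v)) * (2 + v)^2)) := by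
  have a0 : 0 ≤ L - (4/5) := by linarith
  have a1 : 0 ≤ (9/10) - L := by linarith
  have b0 : 0 ≤ v := by linarith
  have b1 : 0 ≤ (9/20) - v := by linarith
  have key : ((4 * (77/200) - ((-(3/100)) * (v - L / 3) + (2387/4050) / 3) * (2 + v)^2) * (L * (1 + L - v)) - (14/45) * ((L - v * (1 + L - v)) * (2 + v)^2))
    = (191590400/177147) * (((9/10) - L)^3 * ((9/20) - v)^4) + (36316160/59049) * (((9/10) - L)^3 * v * ((9/20) - v)^3) + (70823168/59049) * (((9/10) - L)^3 * v^2 * ((9/20) - v)^2) + (638621984/177147) * (((9/10) - L)^3 * v^3 * ((9/20) - v)) + (31571848/19683) * (((9/10) - L)^3 * v^4) + (7410726400/1594323) * ((L - (4/5)) * ((9/10) - L)^2 * ((9/20) - v)^4) + (7410014080/1594323) * ((L - (4/5)) * ((9/10) - L)^2 * v * ((9/20) - v)^3) + (2280133088/531441) * ((L - (4/5)) * ((9/10) - L)^2 * v^2 * ((9/20) - v)^2) + (15166783996/1594323) * ((L - (4/5)) * ((9/10) - L)^2 * v^3 * ((9/20) - v)) + (6718063387/1594323) * ((L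 - (4/5)) * ((9/10) - L)^2 * v^4) + (9888851200/1594323) * ((L - (4/5))^2 * ((9/10) - L) * ((9/20) - v)^4) + (12706483840/1594323) * ((L - (4/5))^2 * ((9/10) - L) * v * ((9/20) - v)^3) + (2993577704/531441) * ((L - (4/5))^2 * ((9/10) - L) * v^2 * ((9/20) - v)^2) + (13642576864/1594323) * ((L - (4/5))^2 * ((9/10) - L) * v^3 * ((9/20) - v)) + (5867084398/1594323) * ((L - (4/5))^2 * ((9/10) - L) * v^4) + (466764800/177147) * ((L - (4/5))^3 * ((9/20) - v)^4) + (696676160/177147) * ((L - (4/5))^3 * v * ((9/20) - v)^3) + (149668516/59049) * ((L - (4/5))^3 * v^2 * ((9/20) - v)^2) + (468323660/177147) * ((L - (4/5))^3 * v^3 * ((9/20) - v)) + (189334103/177147) * ((L - (4/5))^3 * v^4) := by ring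
  rw [key]; positivity

private lemma UA2_p1_c1 (L v : ℝ) (hL0 : (4/5) ≤ L) (hL1 : L ≤ (9/10)) (hv0 : (9/20) ≤ v) (hv1 : v ≤ (9/10)) :
    0 ≤ ((4 * (77/200) - ((-(3/100)) * (v - L / 3) + (2387/4050) / 3) * (2 + v)^2) * (L * (1 + L - v)) - (14/45) * ((L - v * (1 + L - v)) * (2 + v)^2)) := by
  have a0 : 0 ≤ L - (4/5) := by linarith
  have a1 : 0 ≤ (9/10) - L := by linarith
  have b0 : 0 ≤ v - (9/20) := by linarith
  have b1 : 0 ≤ (9/10) - v := by linarith
  have key : ((4 * (77/200) - ((-(3/100)) * (v - L / 3) + (2387/4050) / 3) * (2 + v)^2) * (L * (1 + L - v)) - (14/45) * ((L - v * (1 + L - v)) * (2 + v)^2))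
    = (31571848/19683) * (((9/10) - L)^3 * ((9/10) - v)^4) + (1634551072/177147) * (((9/10) - L)^3 * (v - (9/20)) * ((9/10) - v)^3) + (1066752256/59049) * (((9/10) - L)^3 * (v - (9/20))^2 * ((9/10) - v)^2) + (723385984/59049) * (((9/10) - L)^3 * (v - (9/20))^3 * ((9/10) - v)) + (260941696/177147) * (((9/10) - L)^3 * (v - (9/20))^4) + (6718063387/1594323) * ((L - (4/5)) * ((9/10) - L)^2 * ((9/10) - v)^4) + (38577723100/1594323) * ((L - (4/5)) * ((9/10) - L)^2 * (v - (9/20)) * ((9/10) - v)^3) + (25691072192/531441) * ((L - (4/5)) * ((9/10) - L)^2 * (v - (9/20))^2 * ((9/10) - v)^2) + (52928203408/1594323) * ((L - (4/5)) * ((9/10) - L)^2 * (v - (9/20))^3 * ((9/10) - v)) + (6107037520/1594323) * ((L - (4/5)) * ((9/10) - L)^2 * (v - (9/20))^4) + (5867084398/1594323) * ((L - (4/5))^2 * ((9/10) - L) * ((9/10) - v)^4) + (33294098320/1594323) * ((L - (4/5))^2 * ((9/10) - L) * (v - (9/20)) * ((9/10) - v)^3) + (22645099160/531441) * ((L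 - (4/5))^2 * ((9/10) - L) * (v - (9/20))^2 * ((9/10) - v)^2) + (47252226976/1594323) * ((L - (4/5))^2 * ((9/10) - L) * (v - (9/20))^3 * ((9/10) - v)) + (5131551424/1594323) * ((L - (4/5))^2 * ((9/10) - L) * (v - (9/20))^4) + (189334103/177147) * ((L - (4/5))^3 * ((9/10) - v)^4) + (1046349164/177147) * ((L - (4/5))^3 * (v - (9/20)) * ((9/10) - v)^3) + (727694020/59049) * ((L - (4/5))^3 * (v - (9/20))^2 * ((9/10) - v)^2) + (1538153408/177147) * ((L - (4/5))^3 * (v - (9/20))^3 * ((9/10) - v)) + (152191040/177147) * ((L - (4/5))^3 * (v - (9/20))^4) := by ring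
  rw [key]; positivity

lemma UA2_p1 (L v : ℝ) (hL0 : (4/5) ≤ L) (hL1 : L ≤ (9/10)) (hv0 : 0 ≤ v) (hv1 : v ≤ (9/10)) :
    0 ≤ ((4 * (77/200) - ((-(3/100)) * (v - L / 3) + (2387/4050) / 3) * (2 + v)^2) * (L * (1 + L - v)) - (14/45) * ((L - v * (1 + L - v)) * (2 + v)^2)) := by
  rcases le_total v (9/20) with h0 | h0
  · skip
    exact UA2_p1_c0 L v (by linarith) (by linarith) (by linarith) (by linarith)
  · skip
    exact UA2_p1_c1 L v (by linarith) (by linarith) (by linarith) (by linarith)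

end AffInc.Cert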