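import Pool.Agent.Helper72.AI.Stmts2

set_option autoImplicit false
set_option linter.all false

/-! Bernstein certificate (generated). -/

namespace AffInc.Cert

-- piece UA3: L in [9/10, 1], C=77/200 w=6/19 m=-9/200 R=10547/18050
private lemma UA3_p1_c0 (L v : ℝ) (hL0 : (9/10) ≤ L) (hL1 : L ≤ 1) (hv0 : 0 ≤ v) (hv1 : v ≤ (1/2)) :
    0 ≤ ((4 * (77/200) - ((-(9/200)) * (v - L / 3) + (10547/18050) / 3) * (2 + v)^2) * (L * (1 + L - v)) - (6/19) * ((L - v * (1 + L - v)) * (2 + v)^2)) := by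
  have a0 : 0 ≤ L - (9/10) := by linarith
  have a1 : 0 ≤ 1 - L := by linarith
  have b0 : 0 ≤ v := by linarith
  have b1 : 0 ≤ (1/2) - v := by linarith
  have key : ((4 * (77/200) - ((-(9/200)) * (v - L / 3) + (10547/18050) / 3) * (2 + v)^2) * (L * (1 + L - v)) - (6/19) * ((L - v * (1 + L - v)) * (2 + v)^2))
    = (546936/475) * ((1 - L)^3 * ((1/2) - v)^4) + (6200028/9025) * ((1 - L)^3 * v * ((1/2) - v)^3) + (13006143/18050) * ((1 - L)^3 * v^2 * ((1/2) - v)^2) + (1034058/361) * ((1 - L)^3 * v^3 * ((1/2) - v)) + (2388222/1805) * ((1 - L)^3 * v^4) + (24021232/5415) * ((L - (9/10)) * (1 - L)^2 * ((1/2) - v)^4) + (21229504/5415) * ((L - (9/10)) * (1 - L)^2 * v * ((1/2) - v)^3) + (891620/361) * ((L - (9/10)) * (1 - L)^2 * v^2 * ((1/2) - v)^2) + (41449574/5415) * ((L - (9/10)) * (1 - L)^2 * v^3 * ((1/2) - v)) + (19471256/5415) * ((L - (9/10)) * (1 - L)^2 * v^4) + 5504 * ((L - (9/10))^2 * (1 - L) *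 ((1/2) - v)^4) + (6567376/1083) * ((L - (9/10))^2 * (1 - L) * v * ((1/2) - v)^3) + (3370634/1083) * ((L - (9/10))^2 * (1 - L) * v^2 * ((1/2) - v)^2) + (7449419/1083) * ((L - (9/10))^2 * (1 - L) * v^3 * ((1/2) - v)) + (7035995/2166) * ((L - (9/10))^2 * (1 - L) * v^4) + (2402560/1083) * ((L - (9/10))^3 * ((1/2) - v)^4) + (3060800/1083) * ((L - (9/10))^3 * v * ((1/2) - v)^3) + (1468280/1083) * ((L - (9/10))^3 * v^2 * ((1/2) - v)^2) + (2255830/1083) * ((L - (9/10))^3 * v^3 * ((1/2) - v)) + (351685/361) * ((L - (9/10))^3 * v^4) := by ring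
  rw [key]; positivity

private lemma UA3_p1_c1 (L v : ℝ) (hL0 : (9/10) ≤ L) (hL1 : L ≤ 1) (hv0 : (1/2) ≤ v) (hv1 : v ≤ 1) :
    0 ≤ ((4 * (77/200) - ((-(9/200)) * (v - L / 3) + (10547/18050) / 3) * (2 + v)^2) * (L * (1 + L - v)) - (6/19) * ((L - v * (1 + L - v)) * (2 + v)^2)) := by
  have a0 : 0 ≤ L - (9/10) := by linarith
  have a1 : 0 ≤ 1 - L := by linarith
  have b0 : 0 ≤ v - (1/2) := by linarith
  have b1 : 0 ≤ 1 - v := by linarith
  have key : ((4 * (77/200) - ((-(9/200)) * (v - L / 3) + (10547/18050) / 3) * (2 + v)^2) * (L * (1 + L - v)) - (6/19) * ((L - v * (1 + L - v)) * (2 + v)^2))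
    = (2388222/1805) * ((1 - L)^3 * (1 - v)^4) + (13935486/1805) * ((1 - L)^3 * (v - (1/2)) * (1 - v)^3) + (14524317/950) * ((1 - L)^3 * (v - (1/2))^2 * (1 - v)^2) + (4826862/475) * ((1 - L)^3 * (v - (1/2))^3 * (1 - v)) + (8250174/9025) * ((1 - L)^3 * (v - (1/2))^4) + (19471256/5415) * ((L - (9/10)) * (1 - L)^2 * (1 - v)^4) + (114320474/5415) * ((L - (9/10)) * (1 - L)^2 * (v - (1/2)) * (1 - v)^3) + (15465800/361) * ((L - (9/10)) * (1 - L)^2 * (v - (1/2))^2 * (1 - v)^2) + (10530200/361) * ((L - (9/10)) * (1 - L)^2 * (v - (1/2))^3 * (1 - v)) + (5000976/1805) * ((L - (9/10)) * (1 - L)^2 * (v - (1/2))^4) + (7035995/2166) * ((L - (9/10))^2 * (1 - L) * (1 - v)^4) + (6898187/361) * ((L - (9/10))^2 * (1 - L) * (v - (1/2)) * (1 - v)^3) + (2268740/57) * ((L - (9/10))^2 * (1 - L) * (v - (1/2))^2 * (1 - v)^2) + (528036/19) * ((L - (9/10))^2 * (1 - L) * (v - (1/2))^3 * (1 - v)) + (1000408/361) * ((L - (9/10))^2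 * (1 - L) * (v - (1/2))^4) + (351685/361) * ((L - (9/10))^3 * (1 - v)^4) + (6184610/1083) * ((L - (9/10))^3 * (v - (1/2)) * (1 - v)^3) + (13254620/1083) * ((L - (9/10))^3 * (v - (1/2))^2 * (1 - v)^2) + (3168040/361) * ((L - (9/10))^3 * (v - (1/2))^3 * (1 - v)) + (329440/361) * ((L - (9/10))^3 * (v - (1/2))^4) := by ring
  rw [key]; positivity

lemma UA3_p1 (L v : ℝ) (hL0 : (9/10) ≤ L) (hL1 : L ≤ 1) (hv0 : 0 ≤ v) (hv1 : v ≤ 1) :
    0 ≤ ((4 * (77/200) - ((-(9/200)) * (v - L / 3) + (10547/18050) / 3) * (2 + v)^2) * (L * (1 + L - v)) - (6/19) * ((L - v * (1 + L - v)) * (2 + v)^2)) := by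
  rcases le_total v (1/2) with h0 | h0
  · skip
    exact UA3_p1_c0 L v (by linarith) (by linarith) (by linarith) (by linarith)
  · skip
    exact UA3_p1_c1 L v (by linarith) (by linarith) (by linarith) (by linarith)

end AffInc.Cert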