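import Pool.Agent.Helper72.AI.Stmts2

set_option autoImplicit false
set_option linter.all false

/-! Bernstein certificate (generated). -/

namespace AffInc.Cert

-- piece UA4: L in [1, 11/10], C=77/200 w=8/25 m=-11/200 R=29/50
private lemma UA4_p1_c0 (L v : ℝ) (hL0 : 1 ≤ L) (hL1 : L ≤ (11/10)) (hv0 : 0 ≤ v) (hv1 : v ≤ (1/2)) :
    0 ≤ ((4 * (77/200) - ((-(11/200)) * (v - L / 3) + (29/50) / 3) * (2 + v)^2) * (L * (1 + L - v)) - (8/25) * ((L - v * (1 + L - v)) * (2 + v)^2)) := by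
  have a0 : 0 ≤ L - 1 := by linarith
  have a1 : 0 ≤ (11/10) - L := by linarith
  have b0 : 0 ≤ v := by linarith
  have b1 : 0 ≤ (1/2) - v := by linarith
  have key : ((4 * (77/200) - ((-(11/200)) * (v - L / 3) + (29/50) / 3) * (2 + v)^2) * (L * (1 + L - v)) - (8/25) * ((L - v * (1 + L - v)) * (2 + v)^2))
    = (5120/3) * (((11/10) - L)^3 * ((1/2) - v)^4) + (4480/3) * (((11/10) - L)^3 * v * ((1/2) - v)^3) + (1960/3) * (((11/10) - L)^3 * v^2 * ((1/2) - v)^2) + (7730/3) * (((11/10) - L)^3 * v^3 * ((1/2) - v)) + 1335 * (((11/10) - L)^3 * v^4) + (18496/3) * ((L - 1) * ((11/10) - L)^2 * ((1/2) - v)^4) + 6544 * ((L - 1) * ((11/10) - L)^2 * v * ((1/2) - v)^3) + (7618/3) * ((L - 1) * ((11/10) - L)^2 * v^2 * ((1/2) - v)^2) + 6977 * ((L - 1) * ((11/10) - L)^2 * v^3 * ((1/2) - v)) + (22115/6) * ((L - 1) * ((11/10) - L)^2 * v^4) + (36432/5) * ((L - 1)^2 * ((11/10) - L) * ((1/2) - v)^4)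 + (132736/15) * ((L - 1)^2 * ((11/10) - L) * v * ((1/2) - v)^3) + (50828/15) * ((L - 1)^2 * ((11/10) - L) * v^2 * ((1/2) - v)^2) + (95174/15) * ((L - 1)^2 * ((11/10) - L) * v^3 * ((1/2) - v)) + (50746/15) * ((L - 1)^2 * ((11/10) - L) * v^4) + (70664/25) * ((L - 1)^3 * ((1/2) - v)^4) + (94828/25) * ((L - 1)^3 * v * ((1/2) - v)^3) + (74683/50) * ((L - 1)^3 * v^2 * ((1/2) - v)^2) + 1938 * ((L - 1)^3 * v^3 * ((1/2) - v)) + (5152/5) * ((L - 1)^3 * v^4) := by ring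
  rw [key]; positivity

private lemma UA4_p1_c1 (L v : ℝ) (hL0 : 1 ≤ L) (hL1 : L ≤ (11/10)) (hv0 : (1/2) ≤ v) (hv1 : v ≤ 1) :
    0 ≤ ((4 * (77/200) - ((-(11/200)) * (v - L / 3) + (29/50) / 3) * (2 + v)^2) * (L * (1 + L - v)) - (8/25) * ((L - v * (1 + L - v)) * (2 + v)^2)) := by
  have a0 : 0 ≤ L - 1 := by linarith
  have a1 : 0 ≤ (11/10) - L := by linarith
  have b0 : 0 ≤ v - (1/2) := by linarith
  have b1 : 0 ≤ 1 - v := by linarith
  have key : ((4 * (77/200) - ((-(11/200)) * (v - L / 3) + (29/50) / 3) * (2 + v)^2) * (L * (1 + L - v)) - (8/25) * ((L - v * (1 + L - v)) * (2 + v)^2))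
    = 1335 * (((11/10) - L)^3 * (1 - v)^4) + (24310/3) * (((11/10) - L)^3 * (v - (1/2)) * (1 - v)^3) + (51700/3) * (((11/10) - L)^3 * (v - (1/2))^2 * (1 - v)^2) + 12920 * (((11/10) - L)^3 * (v - (1/2))^3 * (1 - v)) + 2080 * (((11/10) - L)^3 * (v - (1/2))^4) + (22115/6) * ((L - 1) * ((11/10) - L)^2 * (1 - v)^4) + (67529/3) * ((L - 1) * ((11/10) - L)^2 * (v - (1/2)) * (1 - v)^3) + (147412/3) * ((L - 1) * ((11/10) - L)^2 * (v - (1/2))^2 * (1 - v)^2) + 37836 * ((L - 1) * ((11/10) - L)^2 * (v - (1/2))^3 * (1 - v)) + 6392 * ((L - 1) * ((11/10) - L)^2 * (v - (1/2))^4) + (50746/15) * ((L - 1)^2 * ((11/10) - L) * (1 - v)^4) + (103598/5) * ((L - 1)^2 * ((11/10) - L) * (v - (1/2)) * (1 - v)^3) + (697688/15) * ((L - 1)^2 * ((11/10) - L) * (v - (1/2))^2 * (1 - v)^2) + 36824 * ((L - 1)^2 * ((11/10) - L) * (v - (1/2))^3 * (1 - v)) + 6512 * ((L - 1)^2 * ((11/10) - L) * (v - (1/2))^4) +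 (5152/5) * ((L - 1)^3 * (1 - v)^4) + (31526/5) * ((L - 1)^3 * (v - (1/2)) * (1 - v)^3) + (729763/50) * ((L - 1)^3 * (v - (1/2))^2 * (1 - v)^2) + (297458/25) * ((L - 1)^3 * (v - (1/2))^3 * (1 - v)) + (54934/25) * ((L - 1)^3 * (v - (1/2))^4) := by ring
  rw [key]; positivity

lemma UA4_p1 (L v : ℝ) (hL0 : 1 ≤ L) (hL1 : L ≤ (11/10)) (hv0 : 0 ≤ v) (hv1 : v ≤ 1) :
    0 ≤ ((4 * (77/200) - ((-(11/200)) * (v - L / 3) + (29/50) / 3) * (2 + v)^2) * (L * (1 + L - v)) - (8/25) * ((L - v * (1 + L - v)) * (2 + v)^2)) := by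
  rcases le_total v (1/2) with h0 | h0
  · skip
    exact UA4_p1_c0 L v (by linarith) (by linarith) (by linarith) (by linarith)
  · skip
    exact UA4_p1_c1 L v (by linarith) (by linarith) (by linarith) (by linarith)

private lemma UA4_p0_c0 (L v : ℝ) (hL0 : 1 ≤ L) (hL1 : L ≤ (11/10)) (hv0 : 1 ≤ v) (hv1 : v ≤ (11/10)) :
    0 ≤ (4 * (77/200) - ((-(11/200)) * (v - L / 3) + (29/50) / 3) * (2 + v)^2) := by
  have a0 : 0 ≤ L - 1 := by linarith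
  have a1 : 0 ≤ (11/10) - L := by linarith
  have b0 : 0 ≤ v - 1 := by linarith
  have b1 : 0 ≤ (11/10) - v := by linarith
  have key : (4 * (77/200) - ((-(11/200)) * (v - L / 3) + (29/50) / 3) * (2 + v)^2)
    = 1300 * (((11/10) - L) * ((11/10) - v)^3) + 3455 * (((11/10) - L) * (v - 1) * ((11/10) - v)^2) + (9082/3) * (((11/10) - L) * (v - 1)^2 * ((11/10) - v)) + (52373/60) * (((11/10) - L) * (v - 1)^3) + 1135 * ((L - 1) * ((11/10) - v)^3) + 2949 * ((L - 1) * (v - 1) * ((11/10) - v)^2) + (50203/20) * ((L - 1) * (v - 1)^2 * ((11/10) - v)) + (6967/10) * ((L - 1) * (v - 1)^3) := by ring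
  rw [key]; positivity

lemma UA4_p0 (L v : ℝ) (hL0 : 1 ≤ L) (hL1 : L ≤ (11/10)) (hv0 : 1 ≤ v) (hv1 : v ≤ (11/10)) :
    0 ≤ (4 * (77/200) - ((-(11/200)) * (v - L / 3) + (29/50) / 3) * (2 + v)^2) := by
  exact UA4_p0_c0 L v (by linarith) (by linarith) (by linarith) (by linarith)

end AffInc.Cert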