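import Pool.Agent.Helper72.AI.Stmts2

set_option autoImplicit false
set_option linter.all false

/-! Bernstein certificate (generated). -/

namespace AffInc.Cert

-- piece UA5: L in [11/10, 6/5], C=77/200 w=34/105 m=-31/500 R=12707/22050
private lemma UA5_p1_c0 (L v : ℝ) (hL0 : (11/10) ≤ L) (hL1 : L ≤ (6/5)) (hv0 : 0 ≤ v) (hv1 : v ≤ (1/2)) :
    0 ≤ ((4 * (77/200) - ((-(31/500)) * (v - L / 3) + (12707/22050) / 3) * (2 + v)^2) * (L * (1 + L - v)) - (34/105) * ((L - v * (1 + L - v)) * (2 + v)^2)) := by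
  have a0 : 0 ≤ L - (11/10) := by linarith
  have a1 : 0 ≤ (6/5) - L := by linarith
  have b0 : 0 ≤ v := by linarith
  have b1 : 0 ≤ (1/2) - v := by linarith
  have key : ((4 * (77/200) - ((-(31/500)) * (v - L / 3) + (12707/22050) / 3) * (2 + v)^2) * (L * (1 + L - v)) - (34/105) * ((L - v * (1 + L - v)) * (2 + v)^2))
    = (18602144/7875) * (((6/5) - L)^3 * ((1/2) - v)^4) + (417331928/165375) * (((6/5) - L)^3 * v * ((1/2) - v)^3) + (15784927/23625) * (((6/5) - L)^3 * v^2 * ((1/2) - v)^2) + (72676832/33075) * (((6/5) - L)^3 * v^3 * ((1/2) - v)) + (1717984/1323) * (((6/5) - L)^3 * v^4) + (1355042384/165375) * ((L - (11/10)) * ((6/5) - L)^2 * ((1/2) - v)^4) + (1622332528/165375) * ((L - (11/10)) * ((6/5) - L)^2 * v * ((1/2) - v)^3) + (458427154/165375) * ((L - (11/10)) * ((6/5) - L)^2 * v^2 * ((1/2) - v)^2) + (196477132/33075) * ((L - (11/10)) * ((6/5) - L)^2 * v^3 * ((1/2) - v)) + (7943168/2205) * ((L - (11/10))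 * ((6/5) - L)^2 * v^4) + (1549161248/165375) * ((L - (11/10))^2 * ((6/5) - L) * ((1/2) - v)^4) + (2026221776/165375) * ((L - (11/10))^2 * ((6/5) - L) * v * ((1/2) - v)^3) + (22973624/6125) * ((L - (11/10))^2 * ((6/5) - L) * v^2 * ((1/2) - v)^2) + (177622994/33075) * ((L - (11/10))^2 * ((6/5) - L) * v^3 * ((1/2) - v)) + (21934051/6615) * ((L - (11/10))^2 * ((6/5) - L) * v^4) + (194848384/55125) * ((L - (11/10))^3 * ((1/2) - v)^4) + (273412288/55125) * ((L - (11/10))^3 * v * ((1/2) - v)^3) + (30077888/18375) * ((L - (11/10))^3 * v^2 * ((1/2) - v)^2) + (17858872/11025) * ((L - (11/10))^3 * v^3 * ((1/2) - v)) + (2226932/2205) * ((L - (11/10))^3 * v^4) := by ring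
  rw [key]; positivity

private lemma UA5_p1_c1 (L v : ℝ) (hL0 : (11/10) ≤ L) (hL1 : L ≤ (6/5)) (hv0 : (1/2) ≤ v) (hv1 : v ≤ 1) :
    0 ≤ ((4 * (77/200) - ((-(31/500)) * (v - L / 3) + (12707/22050) / 3) * (2 + v)^2) * (L * (1 + L - v)) - (34/105) * ((L - v * (1 + L - v)) * (2 + v)^2)) := by
  have a0 : 0 ≤ L - (11/10) := by linarith
  have a1 : 0 ≤ (6/5) - L := by linarith
  have b0 : 0 ≤ v - (1/2) := by linarith
  have b1 : 0 ≤ 1 - v := by linarith
  have key : ((4 * (77/200) - ((-(31/500)) * (v - L / 3) + (12707/22050) / 3) * (2 + v)^2) * (L * (1 + L - v)) - (34/105) * ((L - v * (1 + L - v)) * (2 + v)^2))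
    = (1717984/1323) * (((6/5) - L)^3 * (1 - v)^4) + (90306656/11025) * (((6/5) - L)^3 * (v - (1/2)) * (1 - v)^3) + (440591647/23625) * (((6/5) - L)^3 * (v - (1/2))^2 * (1 - v)^2) + (845324036/55125) * (((6/5) - L)^3 * (v - (1/2))^3 * (1 - v)) + (58539316/18375) * (((6/5) - L)^3 * (v - (1/2))^4) + (7943168/2205) * ((L - (11/10)) * ((6/5) - L)^2 * (1 - v)^4) + (756703028/33075) * ((L - (11/10)) * ((6/5) - L)^2 * (v - (1/2)) * (1 - v)^3) + (8861815594/165375) * ((L - (11/10)) * ((6/5) - L)^2 * (v - (1/2))^2 * (1 - v)^2) + (2495450456/55125) * ((L - (11/10)) * ((6/5) - L)^2 * (v - (1/2))^3 * (1 - v)) + (25663528/2625) * ((L - (11/10)) * ((6/5) - L)^2 * (v - (1/2))^4) + (21934051/6615) * ((L - (11/10))^2 * ((6/5) - L) * (1 - v)^4) + (699739046/33075) * ((L - (11/10))^2 * ((6/5) - L) * (v - (1/2)) * (1 - v)^3) + (939114292/18375) * ((L - (11/10))^2 * ((6/5) - L) * (v - (1/2))^2 * (1 - v)^2) + (272029288/6125) * ((L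 - (11/10))^2 * ((6/5) - L) * (v - (1/2))^3 * (1 - v)) + (60984064/6125) * ((L - (11/10))^2 * ((6/5) - L) * (v - (1/2))^4) + (2226932/2205) * ((L - (11/10))^3 * (1 - v)^4) + (71218408/11025) * ((L - (11/10))^3 * (v - (1/2)) * (1 - v)^3) + (296875568/18375) * ((L - (11/10))^3 * (v - (1/2))^2 * (1 - v)^2) + (12659296/875) * ((L - (11/10))^3 * (v - (1/2))^3 * (1 - v)) + (20597376/6125) * ((L - (11/10))^3 * (v - (1/2))^4) := by ring
  rw [key]; positivity

lemma UA5_p1 (L v : ℝ) (hL0 : (11/10) ≤ L) (hL1 : L ≤ (6/5)) (hv0 : 0 ≤ v) (hv1 : v ≤ 1) :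
    0 ≤ ((4 * (77/200) - ((-(31/500)) * (v - L / 3) + (12707/22050) / 3) * (2 + v)^2) * (L * (1 + L - v)) - (34/105) * ((L - v * (1 + L - v)) * (2 + v)^2)) := by
  rcases le_total v (1/2) with h0 | h0
  · skip
    exact UA5_p1_c0 L v (by linarith) (by linarith) (by linarith) (by linarith)
  · skip
    exact UA5_p1_c1 L v (by linarith) (by linarith) (by linarith) (by linarith)

private lemma UA5_p0_c0 (L v : ℝ) (hL0 : (11/10) ≤ L) (hL1 : L ≤ (6/5)) (hv0 : 1 ≤ v) (hv1 : v ≤ (6/5)) :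
    0 ≤ (4 * (77/200) - ((-(31/500)) * (v - L / 3) + (12707/22050) / 3) * (2 + v)^2) := by
  have a0 : 0 ≤ L - (11/10) := by linarith
  have a1 : 0 ≤ (6/5) - L := by linarith
  have b0 : 0 ≤ v - 1 := by linarith
  have b1 : 0 ≤ (6/5) - v := by linarith
  have key : (4 * (77/200) - ((-(31/500)) * (v - L / 3) + (12707/22050) / 3) * (2 + v)^2)
    = (120949/588) * (((6/5) - L) * ((6/5) - v)^3) + (4651193/8820) * (((6/5) - L) * (v - 1) * ((6/5) - v)^2) + (14836261/33075) * (((6/5) - L) * (v - 1)^2 * ((6/5) - v)) + (168727/1323) * (((6/5) - L) * (v - 1)^3) + (53639/294) * ((L - (11/10)) * ((6/5) - v)^3) + (1002164/2205) * ((L - (11/10)) * (v - 1) * ((6/5) - v)^2) + (12320797/33075) * ((L - (11/10)) * (v - 1)^2 * ((6/5) - v)) + (3343231/33075) * ((L - (11/10)) * (v - 1)^3) := by ring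
  rw [key]; positivity

lemma UA5_p0 (L v : ℝ) (hL0 : (11/10) ≤ L) (hL1 : L ≤ (6/5)) (hv0 : 1 ≤ v) (hv1 : v ≤ (6/5)) :
    0 ≤ (4 * (77/200) - ((-(31/500)) * (v - L / 3) + (12707/22050) / 3) * (2 + v)^2) := by
  exact UA5_p0_c0 L v (by linarith) (by linarith) (by linarith) (by linarith)

end AffInc.Cert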