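import Pool.Agent.Helper72.AI.Stmts2

set_option autoImplicit false
set_option linter.all false

/-! Bernstein certificate (generated). -/

namespace AffInc.Cert

-- piece UA6: L in [6/5, 13/10], C=77/200 w=18/55 m=-67/1000 R=3467/6050
private lemma UA6_p1_c0 (L v : ℝ) (hL0 : (6/5) ≤ L) (hL1 : L ≤ (13/10)) (hv0 : 0 ≤ v) (hv1 : v ≤ (1/2)) :
    0 ≤ ((4 * (77/200) - ((-(67/1000)) * (v - L / 3) + (3467/6050) / 3) * (2 + v)^2) * (L * (1 + L - v)) - (18/55) * ((L - v * (1 + L - v)) * (2 + v)^2)) := by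
  have a0 : 0 ≤ L - (6/5) := by linarith
  have a1 : 0 ≤ (13/10) - L := by linarith
  have b0 : 0 ≤ v := by linarith
  have b1 : 0 ≤ (1/2) - v := by linarith
  have key : ((4 * (77/200) - ((-(67/1000)) * (v - L / 3) + (3467/6050) / 3) * (2 + v)^2) * (L * (1 + L - v)) - (18/55) * ((L - v * (1 + L - v)) * (2 + v)^2))
    = (4279424/1375) * (((13/10) - L)^3 * ((1/2) - v)^4) + (56885248/15125) * (((13/10) - L)^3 * v * ((1/2) - v)^3) + (11306544/15125) * (((13/10) - L)^3 * v^2 * ((1/2) - v)^2) + (5192212/3025) * (((13/10) - L)^3 * v^3 * ((1/2) - v)) + (732002/605) * (((13/10) - L)^3 * v^4) + (476568544/45375) * ((L - (6/5)) * ((13/10) - L)^2 * ((1/2) - v)^4) + (620188768/45375) * ((L - (6/5)) * ((13/10) - L)^2 * v * ((1/2) - v)^3) + (47243928/15125) * ((L - (6/5)) * ((13/10) - L)^2 * v^2 * ((1/2) - v)^2) + (3734147/825) * ((L - (6/5)) * ((13/10) - L)^2 * v^3 * ((1/2) - v)) + (2423489/726) * ((L - (6/5)) * ((13/10)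 - L)^2 * v^4) + (532123936/45375) * ((L - (6/5))^2 * ((13/10) - L) * ((1/2) - v)^4) + (245347144/15125) * ((L - (6/5))^2 * ((13/10) - L) * v * ((1/2) - v)^3) + (188814511/45375) * ((L - (6/5))^2 * ((13/10) - L) * v^2 * ((1/2) - v)^2) + (11940886/3025) * ((L - (6/5))^2 * ((13/10) - L) * v^3 * ((1/2) - v)) + (502232/165) * ((L - (6/5))^2 * ((13/10) - L) * v^4) + (196711528/45375) * ((L - (6/5))^3 * ((1/2) - v)^4) + (286216556/45375) * ((L - (6/5))^3 * v * ((1/2) - v)^3) + (161023771/90750) * ((L - (6/5))^3 * v^2 * ((1/2) - v)^2) + (10250714/9075) * ((L - (6/5))^3 * v^3 * ((1/2) - v)) + (552594/605) * ((L - (6/5))^3 * v^4) := by ring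
  rw [key]; positivity

private lemma UA6_p1_c1 (L v : ℝ) (hL0 : (6/5) ≤ L) (hL1 : L ≤ (13/10)) (hv0 : (1/2) ≤ v) (hv1 : v ≤ 1) :
    0 ≤ ((4 * (77/200) - ((-(67/1000)) * (v - L / 3) + (3467/6050) / 3) * (2 + v)^2) * (L * (1 + L - v)) - (18/55) * ((L - v * (1 + L - v)) * (2 + v)^2)) := by
  have a0 : 0 ≤ L - (6/5) := by linarith
  have a1 : 0 ≤ (13/10) - L := by linarith
  have b0 : 0 ≤ v - (1/2) := by linarith
  have b1 : 0 ≤ 1 - v := by linarith
  have key : ((4 * (77/200) - ((-(67/1000)) * (v - L / 3) + (3467/6050) / 3) * (2 + v)^2) * (L * (1 + L - v)) - (18/55) * ((L - v * (1 + L - v)) * (2 + v)^2))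
    = (732002/605) * (((13/10) - L)^3 * (1 - v)^4) + (24087868/3025) * (((13/10) - L)^3 * (v - (1/2)) * (1 - v)^3) + (294741384/15125) * (((13/10) - L)^3 * (v - (1/2))^2 * (1 - v)^2) + (262409808/15125) * (((13/10) - L)^3 * (v - (1/2))^3 * (1 - v)) + (63641664/15125) * (((13/10) - L)^3 * (v - (1/2))^4) + (2423489/726) * ((L - (6/5)) * ((13/10) - L)^2 * (1 - v)^4) + (201273283/9075) * ((L - (6/5)) * ((13/10) - L)^2 * (v - (1/2)) * (1 - v)^3) + (848232258/15125) * ((L - (6/5)) * ((13/10) - L)^2 * (v - (1/2))^2 * (1 - v)^2) + (776393116/15125) * ((L - (6/5)) * ((13/10) - L)^2 * (v - (1/2))^3 * (1 - v)) + (194527488/15125) * ((L - (6/5)) * ((13/10) - L)^2 * (v - (1/2))^4) + (502232/165) * ((L - (6/5))^2 * ((13/10) - L) * (1 - v)^4) + (185159422/9075) * ((L - (6/5))^2 * ((13/10) - L) * (v - (1/2)) * (1 - v)^3) + (2428865971/45375) * ((L - (6/5))^2 * ((13/10) - L) * (v - (1/2))^2 * (1 - v)^2) + (763166244/15125)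 * ((L - (6/5))^2 * ((13/10) - L) * (v - (1/2))^3 * (1 - v)) + (197404532/15125) * ((L - (6/5))^2 * ((13/10) - L) * (v - (1/2))^4) + (552594/605) * ((L - (6/5))^3 * (1 - v)^4) + (56060566/9075) * ((L - (6/5))^3 * (v - (1/2)) * (1 - v)^3) + (1535319331/90750) * ((L - (6/5))^3 * (v - (1/2))^2 * (1 - v)^2) + (249004582/15125) * ((L - (6/5))^3 * (v - (1/2))^3 * (1 - v)) + (66470066/15125) * ((L - (6/5))^3 * (v - (1/2))^4) := by ring
  rw [key]; positivity

lemma UA6_p1 (L v : ℝ) (hL0 : (6/5) ≤ L) (hL1 : L ≤ (13/10)) (hv0 : 0 ≤ v) (hv1 : v ≤ 1) :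
    0 ≤ ((4 * (77/200) - ((-(67/1000)) * (v - L / 3) + (3467/6050) / 3) * (2 + v)^2) * (L * (1 + L - v)) - (18/55) * ((L - v * (1 + L - v)) * (2 + v)^2)) := by
  rcases le_total v (1/2) with h0 | h0
  · skip
    exact UA6_p1_c0 L v (by linarith) (by linarith) (by linarith) (by linarith)
  · skip
    exact UA6_p1_c1 L v (by linarith) (by linarith) (by linarith) (by linarith)

private lemma UA6_p0_c0 (L v : ℝ) (hL0 : (6/5) ≤ L) (hL1 : L ≤ (13/10)) (hv0 : 1 ≤ v) (hv1 : v ≤ (13/10)) :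
    0 ≤ (4 * (77/200) - ((-(67/1000)) * (v - L / 3) + (3467/6050) / 3) * (2 + v)^2) := by
  have a0 : 0 ≤ L - (6/5) := by linarith
  have a1 : 0 ≤ (13/10) - L := by linarith
  have b0 : 0 ≤ v - 1 := by linarith
  have b1 : 0 ≤ (13/10) - v := by linarith
  have key : (4 * (77/200) - ((-(67/1000)) * (v - L / 3) + (3467/6050) / 3) * (2 + v)^2)
    = (220978/3267) * (((13/10) - L) * ((13/10) - v)^3) + (922231/5445) * (((13/10) - L) * (v - 1) * ((13/10) - v)^2) + (713783/4950) * (((13/10) - L) * (v - 1)^2 * ((13/10) - v)) + (116467/2700) * (((13/10) - L) * (v - 1)^3) + (196657/3267) * ((L - (6/5)) * ((13/10) - v)^3) + (264173/1815) * ((L - (6/5)) * (v - 1) * ((13/10) - v)^2) + (392083/3300) * ((L - (6/5)) * (v - 1)^2 * ((13/10) - v)) + (46073/1350) * ((L - (6/5)) * (v - 1)^3) := by ring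
  rw [key]; positivity

lemma UA6_p0 (L v : ℝ) (hL0 : (6/5) ≤ L) (hL1 : L ≤ (13/10)) (hv0 : 1 ≤ v) (hv1 : v ≤ (13/10)) :
    0 ≤ (4 * (77/200) - ((-(67/1000)) * (v - L / 3) + (3467/6050) / 3) * (2 + v)^2) := by
  exact UA6_p0_c0 L v (by linarith) (by linarith) (by linarith) (by linarith)

end AffInc.Cert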