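import Pool.Agent.Helper72.AI.Stmts2

set_option autoImplicit false
set_option linter.all false

/-! Bernstein certificate (generated). -/

namespace AffInc.Cert

-- piece UB0: L in [13/10, 7/5], C=827/1000 w=1 m=-31/500 R=2063801/2000000
private lemma UB0_p1_c0 (L v : ℝ) (hL0 : (13/10) ≤ L) (hL1 : L ≤ (27/20)) (hv0 : 0 ≤ v) (hv1 : v ≤ (1/4)) :
    0 ≤ ((4 * (827/1000) - ((-(31/500)) * (v - L / 3) + (2063801/2000000) / 3) * (2 + v)^2) * (L * (1 + L - v)) - 1 * ((L - v * (1 + L - v)) * (2 + v)^2)) := by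
  have a0 : 0 ≤ L - (13/10) := by linarith
  have a1 : 0 ≤ (27/20) - L := by linarith
  have b0 : 0 ≤ v := by linarith
  have b1 : 0 ≤ (1/4) - v := by linarith
  have key : ((4 * (827/1000) - ((-(31/500)) * (v - L / 3) + (2063801/2000000) / 3) * (2 + v)^2) * (L * (1 + L - v)) - 1 * ((L - v * (1 + L - v)) * (2 + v)^2))
    = (1636808576/3125) * (((27/20) - L)^3 * ((1/4) - v)^4) + (3242091168/3125) * (((27/20) - L)^3 * v * ((1/4) - v)^3) + (1960886862/3125) * (((27/20) - L)^3 * v^2 * ((1/4) - v)^2) + (607240879/3125) * (((27/20) - L)^3 * v^3 * ((1/4) - v)) + (224621609/3125) * (((27/20) - L)^3 * v^4) + (3392007296/1875) * ((L - (13/10)) * ((27/20) - L)^2 * ((1/4) - v)^4) + (2437005312/625) * ((L - (13/10)) * ((27/20) - L)^2 * v * ((1/4) - v)^3) + (5326906378/1875) * ((L - (13/10)) * ((27/20) - L)^2 * v^2 * ((1/4) - v)^2) + (1366016181/1250) * ((L - (13/10)) * ((27/20) - L)^2 * v^3 * ((1/4) - v)) + (394968689/1250) * ((L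 - (13/10)) * ((27/20) - L)^2 * v^4) + (19262094944/9375) * ((L - (13/10))^2 * ((27/20) - L) * ((1/4) - v)^4) + (44207132312/9375) * ((L - (13/10))^2 * ((27/20) - L) * v * ((1/4) - v)^3) + (24005549137/6250) * ((L - (13/10))^2 * ((27/20) - L) * v^2 * ((1/4) - v)^2) + (5088478817/3125) * ((L - (13/10))^2 * ((27/20) - L) * v^3 * ((1/4) - v)) + (2639033409/6250) * ((L - (13/10))^2 * ((27/20) - L) * v^4) + (2404095264/3125) * ((L - (13/10))^3 * ((1/4) - v)^4) + (5792494312/3125) * ((L - (13/10))^3 * v * ((1/4) - v)^3) + (10170073401/6250) * ((L - (13/10))^3 * v^2 * ((1/4) - v)^2) + (4560726087/6250) * ((L - (13/10))^3 * v^3 * ((1/4) - v)) + (556632891/3125) * ((L - (13/10))^3 * v^4) := by ring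
  rw [key]; positivity

private lemma UB0_p1_c1 (L v : ℝ) (hL0 : (13/10) ≤ L) (hL1 : L ≤ (27/20)) (hv0 : (1/4) ≤ v) (hv1 : v ≤ (1/2)) :
    0 ≤ ((4 * (827/1000) - ((-(31/500)) * (v - L / 3) + (2063801/2000000) / 3) * (2 + v)^2) * (L * (1 + L - v)) - 1 * ((L - v * (1 + L - v)) * (2 + v)^2)) := by
  have a0 : 0 ≤ L - (13/10) := by linarith
  have a1 : 0 ≤ (27/20) - L := by linarith
  have b0 : 0 ≤ v - (1/4) := by linarith
  have b1 : 0 ≤ (1/2) - v := by linarith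
  have key : ((4 * (827/1000) - ((-(31/500)) * (v - L / 3) + (2063801/2000000) / 3) * (2 + v)^2) * (L * (1 + L - v)) - 1 * ((L - v * (1 + L - v)) * (2 + v)^2))
    = (224621609/3125) * (((27/20) - L)^3 * ((1/2) - v)^4) + (1189731993/3125) * (((27/20) - L)^3 * (v - (1/4)) * ((1/2) - v)^3) + (3708360204/3125) * (((27/20) - L)^3 * (v - (1/4))^2 * ((1/2) - v)^2) + (900491444/625) * (((27/20) - L)^3 * (v - (1/4))^3 * ((1/2) - v)) + (69287696/125) * (((27/20) - L)^3 * (v - (1/4))^4) + (394968689/1250) * ((L - (13/10)) * ((27/20) - L)^2 * ((1/2) - v)^4) + (1793733331/1250) * ((L - (13/10)) * ((27/20) - L)^2 * (v - (1/4)) * ((1/2) - v)^3) + (7251633553/1875) * ((L - (13/10)) * ((27/20) - L)^2 * (v - (1/4))^2 * ((1/2) - v)^2) + (1673363078/375) * ((L - (13/10)) * ((27/20) - L)^2 * (v - (1/4))^3 * ((1/2) - v)) + (42195404/25) * ((L - (13/10)) * ((27/20) - L)^2 * (v - (1/4))^4) + (2639033409/6250) * ((L - (13/10))^2 * ((27/20)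 - L) * ((1/2) - v)^4) + (5467654819/3125) * ((L - (13/10))^2 * ((27/20) - L) * (v - (1/4)) * ((1/2) - v)^3) + (26280605149/6250) * ((L - (13/10))^2 * ((27/20) - L) * (v - (1/4))^2 * ((1/2) - v)^2) + (8662905746/1875) * ((L - (13/10))^2 * ((27/20) - L) * (v - (1/4))^3 * ((1/2) - v)) + (643777414/375) * ((L - (13/10))^2 * ((27/20) - L) * (v - (1/4))^4) + (556632891/3125) * ((L - (13/10))^3 * ((1/2) - v)^4) + (4345400169/6250) * ((L - (13/10))^3 * (v - (1/4)) * ((1/2) - v)^3) + (9524095647/6250) * ((L - (13/10))^3 * (v - (1/4))^2 * ((1/2) - v)^2) + (999109696/625) * ((L - (13/10))^3 * (v - (1/4))^3 * ((1/2) - v)) + (72899014/125) * ((L - (13/10))^3 * (v - (1/4))^4) := by ring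
  rw [key]; positivity

private lemma UB0_p1_c2 (L v : ℝ) (hL0 : (27/20) ≤ L) (hL1 : L ≤ (7/5)) (hv0 : 0 ≤ v) (hv1 : v ≤ (1/2)) :
    0 ≤ ((4 * (827/1000) - ((-(31/500)) * (v - L / 3) + (2063801/2000000) / 3) * (2 + v)^2) * (L * (1 + L - v)) - 1 * ((L - v * (1 + L - v)) * (2 + v)^2)) := by
  have a0 : 0 ≤ L - (27/20) := by linarith
  have a1 : 0 ≤ (7/5) - L := by linarith
  have b0 : 0 ≤ v := by linarith
  have b1 : 0 ≤ (1/2) - v := by linarith
  have key : ((4 * (827/1000) - ((-(31/500)) * (v - L / 3) + (2063801/2000000) / 3) * (2 + v)^2) * (L * (1 + L - v)) - 1 * ((L - v * (1 + L - v)) * (2 + v)^2))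
    = (150255954/3125) * (((7/5) - L)^3 * ((1/2) - v)^4) + (123037973/3125) * (((7/5) - L)^3 * v * ((1/2) - v)^3) + (4876257/25000) * (((7/5) - L)^3 * v^2 * ((1/2) - v)^2) + (67529889/1250) * (((7/5) - L)^3 * v^3 * ((1/2) - v)) + (36449507/1000) * (((7/5) - L)^3 * v^4) + (1500726238/9375) * ((L - (27/20)) * ((7/5) - L)^2 * ((1/2) - v)^4) + (1504315711/9375) * ((L - (27/20)) * ((7/5) - L)^2 * v * ((1/2) - v)^3) + (968745773/25000) * ((L - (27/20)) * ((7/5) - L)^2 * v^2 * ((1/2) - v)^2) + (1318510201/7500) * ((L - (27/20)) * ((7/5) - L)^2 * v^3 * ((1/2) - v)) + (334202419/3000) * ((L - (27/20)) * ((7/5) - L)^2 * v^4) + (1653692888/9375) * ((L - (27/20))^2 * ((7/5) - L) * ((1/2) - v)^4) + (639090552/3125) * ((L - (27/20))^2 * ((7/5) - L) * v * ((1/2) - v)^3) + (1483334551/18750) * ((L - (27/20))^2 * ((7/5) - L) * v^2 * ((1/2) - v)^2) + (476880397/2500) * ((L - (27/20))^2 * ((7/5) - L) * v^3 * ((1/2) - v)) + (170546477/1500)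 * ((L - (27/20))^2 * ((7/5) - L) * v^4) + (201240704/3125) * ((L - (27/20))^3 * ((1/2) - v)^4) + (782014064/9375) * ((L - (27/20))^3 * v * ((1/2) - v)^3) + (380122432/9375) * ((L - (27/20))^3 * v^2 * ((1/2) - v)^2) + (129313631/1875) * ((L - (27/20))^3 * v^3 * ((1/2) - v)) + (14529107/375) * ((L - (27/20))^3 * v^4) := by ring
  rw [key]; positivity

private lemma UB0_p1_c3 (L v : ℝ) (hL0 : (13/10) ≤ L) (hL1 : L ≤ (7/5)) (hv0 : (1/2) ≤ v) (hv1 : v ≤ 1) :
    0 ≤ ((4 * (827/1000) - ((-(31/500)) * (v - L / 3) + (2063801/2000000) / 3) * (2 + v)^2) * (L * (1 + L - v)) - 1 * ((L - v * (1 + L - v)) * (2 + v)^2)) := by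
  have a0 : 0 ≤ L - (13/10) := by linarith
  have a1 : 0 ≤ (7/5) - L := by linarith
  have b0 : 0 ≤ v - (1/2) := by linarith
  have b1 : 0 ≤ 1 - v := by linarith
  have key : ((4 * (827/1000) - ((-(31/500)) * (v - L / 3) + (2063801/2000000) / 3) * (2 + v)^2) * (L * (1 + L - v)) - 1 * ((L - v * (1 + L - v)) * (2 + v)^2))
    = (4330481/1000) * (((7/5) - L)^3 * (1 - v)^4) + (294534859/10000) * (((7/5) - L)^3 * (v - (1/2)) * (1 - v)^3) + (3415950057/50000) * (((7/5) - L)^3 * (v - (1/2))^2 * (1 - v)^2) + (366044973/6250) * (((7/5) - L)^3 * (v - (1/2))^3 * (1 - v)) + (178632493/12500) * (((7/5) - L)^3 * (v - (1/2))^4) + (26761369/2000) * ((L - (13/10)) * ((7/5) - L)^2 * (1 - v)^4) + (1329872237/15000) * ((L - (13/10)) * ((7/5) - L)^2 * (v - (1/2)) * (1 - v)^3) + (30875503727/150000) * ((L - (13/10)) * ((7/5) - L)^2 * (v - (1/2))^2 * (1 - v)^2) + (2229682937/12500) * ((L - (13/10)) * ((7/5) - L)^2 * (v - (1/2))^3 * (1 - v))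 + (557092601/12500) * ((L - (13/10)) * ((7/5) - L)^2 * (v - (1/2))^4) + (16674367/1200) * ((L - (13/10))^2 * ((7/5) - L) * (1 - v)^4) + (536022799/6000) * ((L - (13/10))^2 * ((7/5) - L) * (v - (1/2)) * (1 - v)^3) + (388328167/1875) * ((L - (13/10))^2 * ((7/5) - L) * (v - (1/2))^2 * (1 - v)^2) + (18119093/100) * ((L - (13/10))^2 * ((7/5) - L) * (v - (1/2))^3 * (1 - v)) + (28918876/625) * ((L - (13/10))^2 * ((7/5) - L) * (v - (1/2))^4) + (14529107/3000) * ((L - (13/10))^3 * (1 - v)^4) + (150616883/5000) * ((L - (13/10))^3 * (v - (1/2)) * (1 - v)^3) + (2609088851/37500) * ((L - (13/10))^3 * (v - (1/2))^2 * (1 - v)^2) + (383578617/6250) * ((L - (13/10))^3 * (v - (1/2))^3 * (1 - v)) + (49970053/3125) * ((L - (13/10))^3 * (v - (1/2))^4) := by ring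
  rw [key]; positivity

lemma UB0_p1 (L v : ℝ) (hL0 : (13/10) ≤ L) (hL1 : L ≤ (7/5)) (hv0 : 0 ≤ v) (hv1 : v ≤ 1) :
    0 ≤ ((4 * (827/1000) - ((-(31/500)) * (v - L / 3) + (2063801/2000000) / 3) * (2 + v)^2) * (L * (1 + L - v)) - 1 * ((L - v * (1 + L - v)) * (2 + v)^2)) := by
  rcases le_total v (1/2) with h0 | h0
  · skip
    rcases le_total L (27/20) with h1 | h1
    · skip
      rcases le_total v (1/4) with h2 | h2
      · skip
        exact UB0_p1_c0 L v (by linarith) (by linarith) (by linarith) (by linarith)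
      · skip
        exact UB0_p1_c1 L v (by linarith) (by linarith) (by linarith) (by linarith)
    · skip
      exact UB0_p1_c2 L v (by linarith) (by linarith) (by linarith) (by linarith)
  · skip
    exact UB0_p1_c3 L v (by linarith) (by linarith) (by linarith) (by linarith)

private lemma UB0_p0_c0 (L v : ℝ) (hL0 : (13/10) ≤ L) (hL1 : L ≤ (7/5)) (hv0 : 1 ≤ v) (hv1 : v ≤ (7/5)) :
    0 ≤ (4 * (827/1000) - ((-(31/500)) * (v - L / 3) + (2063801/2000000) / 3) * (2 + v)^2) := by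
  have a0 : 0 ≤ L - (13/10) := by linarith
  have a1 : 0 ≤ (7/5) - L := by linarith
  have b0 : 0 ≤ v - 1 := by linarith
  have b1 : 0 ≤ (7/5) - v := by linarith
  have key : (4 * (827/1000) - ((-(31/500)) * (v - L / 3) + (2063801/2000000) / 3) * (2 + v)^2)
    = (1056997/12800) * (((7/5) - L) * ((7/5) - v)^3) + (10674951/64000) * (((7/5) - L) * (v - 1) * ((7/5) - v)^2) + (27980067/320000) * (((7/5) - L) * (v - 1)^2 * ((7/5) - v)) + (1228637/320000) * (((7/5) - L) * (v - 1)^3) + (1019797/12800) * ((L - (13/10)) * ((7/5) - v)^3) + (10067351/64000) * ((L - (13/10)) * (v - 1) * ((7/5) - v)^2) + (74032601/960000) * ((L - (13/10)) * (v - 1)^2 * ((7/5) - v)) + (102311/960000) * ((L - (13/10)) * (v - 1)^3) := by ring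
  rw [key]; positivity

lemma UB0_p0 (L v : ℝ) (hL0 : (13/10) ≤ L) (hL1 : L ≤ (7/5)) (hv0 : 1 ≤ v) (hv1 : v ≤ (7/5)) :
    0 ≤ (4 * (827/1000) - ((-(31/500)) * (v - L / 3) + (2063801/2000000) / 3) * (2 + v)^2) := by
  exact UB0_p0_c0 L v (by linarith) (by linarith) (by linarith) (by linarith)

end AffInc.Cert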