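import Pool.Agent.Helper72.AI.Stmts2

set_option autoImplicit false
set_option linter.all false

/-! Bernstein certificate (generated). -/

namespace AffInc.Cert

-- piece UB1: L in [7/5, 7/4], C=827/1000 w=1 m=-12/125 R=2063801/2000000
private lemma UB1_p1_c0 (L v : ℝ) (hL0 : (7/5) ≤ L) (hL1 : L ≤ (63/40)) (hv0 : 0 ≤ v) (hv1 : v ≤ (1/4)) :
    0 ≤ ((4 * (827/1000) - ((-(12/125)) * (v - L / 3) + (2063801/2000000) / 3) * (2 + v)^2) * (L * (1 + L - v)) - 1 * ((L - v * (1 + L - v)) * (2 + v)^2)) := by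
  have a0 : 0 ≤ L - (7/5) := by linarith
  have a1 : 0 ≤ (63/40) - L := by linarith
  have b0 : 0 ≤ v := by linarith
  have b1 : 0 ≤ (1/4) - v := by linarith
  have key : ((4 * (827/1000) - ((-(12/125)) * (v - L / 3) + (2063801/2000000) / 3) * (2 + v)^2) * (L * (1 + L - v)) - 1 * ((L - v * (1 + L - v)) * (2 + v)^2))
    = (2120073216/153125) * (((63/40) - L)^3 * ((1/4) - v)^4) + (86352698368/3215625) * (((63/40) - L)^3 * v * ((1/4) - v)^3) + (47834255872/3215625) * (((63/40) - L)^3 * v^2 * ((1/4) - v)^2) + (554606064/153125) * (((63/40) - L)^3 * v^3 * ((1/4) - v)) + (1654330768/1071875) * (((63/40) - L)^3 * v^4) + (27647945216/459375) * ((L - (7/5)) * ((63/40) - L)^2 * ((1/4) - v)^4) + (151857371392/1071875) * ((L - (7/5)) * ((63/40) - L)^2 * v * ((1/4) - v)^3) + (380316185464/3215625) * ((L - (7/5)) * ((63/40) - L)^2 * v^2 * ((1/4) - v)^2) + (7595381438/153125) * ((L - (7/5)) * ((63/40) - L)^2 * v^3 * ((1/4) - v)) +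 (13057107466/1071875) * ((L - (7/5)) * ((63/40) - L)^2 * v^4) + (7413268288/91875) * ((L - (7/5))^2 * ((63/40) - L) * ((1/4) - v)^4) + (134823711664/643125) * ((L - (7/5))^2 * ((63/40) - L) * v * ((1/4) - v)^3) + (43165382713/214375) * ((L - (7/5))^2 * ((63/40) - L) * v^2 * ((1/4) - v)^2) + (2881060234/30625) * ((L - (7/5))^2 * ((63/40) - L) * v^3 * ((1/4) - v)) + (4508178141/214375) * ((L - (7/5))^2 * ((63/40) - L) * v^4) + (5254521024/153125) * ((L - (7/5))^3 * ((1/4) - v)^4) + (101483773904/1071875) * ((L - (7/5))^3 * v * ((1/4) - v)^3) + (104761973301/1071875) * ((L - (7/5))^3 * v^2 * ((1/4) - v)^2) + (7340535396/153125) * ((L - (7/5))^3 * v^3 * ((1/4) - v)) + (11093661207/1071875) * ((L - (7/5))^3 * v^4) := by ring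
  rw [key]; positivity

private lemma UB1_p1_c1 (L v : ℝ) (hL0 : (7/5) ≤ L) (hL1 : L ≤ (63/40)) (hv0 : (1/4) ≤ v) (hv1 : v ≤ (1/2)) :
    0 ≤ ((4 * (827/1000) - ((-(12/125)) * (v - L / 3) + (2063801/2000000) / 3) * (2 + v)^2) * (L * (1 + L - v)) - 1 * ((L - v * (1 + L - v)) * (2 + v)^2)) := by
  have a0 : 0 ≤ L - (7/5) := by linarith
  have a1 : 0 ≤ (63/40) - L := by linarith
  have b0 : 0 ≤ v - (1/4) := by linarith
  have b1 : 0 ≤ (1/2) - v := by linarith
  have key : ((4 * (827/1000) - ((-(12/125)) * (v - L / 3) + (2063801/2000000) / 3) * (2 + v)^2) * (L * (1 + L - v)) - 1 * ((L - v * (1 + L - v)) * (2 + v)^2))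
    = (1654330768/1071875) * (((63/40) - L)^3 * ((1/2) - v)^4) + (9352403696/1071875) * (((63/40) - L)^3 * (v - (1/4)) * ((1/2) - v)^3) + (97065707104/3215625) * (((63/40) - L)^3 * (v - (1/4))^2 * ((1/2) - v)^2) + (8269290048/214375) * (((63/40) - L)^3 * (v - (1/4))^3 * ((1/2) - v)) + (1975488896/128625) * (((63/40) - L)^3 * (v - (1/4))^4) + (13057107466/1071875) * ((L - (7/5)) * ((63/40) - L)^2 * ((1/2) - v)^4) + (51289189662/1071875) * ((L - (7/5)) * ((63/40) - L)^2 * (v - (1/4)) * ((1/2) - v)^3) + (363409861828/3215625) * ((L - (7/5)) * ((63/40) - L)^2 * (v - (1/4))^2 * ((1/2) - v)^2) + (81027764408/643125) * ((L - (7/5)) * ((63/40) - L)^2 * (v - (1/4))^3 * ((1/2) - v)) + (2058309424/42875) * ((L - (7/5)) * ((63/40) - L)^2 * (v - (1/4))^4) + (4508178141/214375) * ((L - (7/5))^2 * ((63/40) - L) * ((1/2) - v)^4) + (3179600698/42875) * ((L - (7/5))^2 * ((63/40) - L) * (v - (1/4)) * ((1/2) - v)^3) + (30357128269/214375)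 * ((L - (7/5))^2 * ((63/40) - L) * (v - (1/4))^2 * ((1/2) - v)^2) + (17983760692/128625) * ((L - (7/5))^2 * ((63/40) - L) * (v - (1/4))^3 * ((1/2) - v)) + (1304179148/25725) * ((L - (7/5))^2 * ((63/40) - L) * (v - (1/4))^4) + (11093661207/1071875) * ((L - (7/5))^3 * ((1/2) - v)^4) + (37365541884/1071875) * ((L - (7/5))^3 * (v - (1/4)) * ((1/2) - v)^3) + (62707355637/1071875) * ((L - (7/5))^3 * (v - (1/4))^2 * ((1/2) - v)^2) + (11191260932/214375) * ((L - (7/5))^3 * (v - (1/4))^3 * ((1/2) - v)) + (771623588/42875) * ((L - (7/5))^3 * (v - (1/4))^4) := by ring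
  rw [key]; positivity

private lemma UB1_p1_c2 (L v : ℝ) (hL0 : (63/40) ≤ L) (hL1 : L ≤ (7/4)) (hv0 : 0 ≤ v) (hv1 : v ≤ (1/2)) :
    0 ≤ ((4 * (827/1000) - ((-(12/125)) * (v - L / 3) + (2063801/2000000) / 3) * (2 + v)^2) * (L * (1 + L - v)) - 1 * ((L - v * (1 + L - v)) * (2 + v)^2)) := by
  have a0 : 0 ≤ L - (63/40) := by linarith
  have a1 : 0 ≤ (7/4) - L := by linarith
  have b0 : 0 ≤ v := by linarith
  have b1 : 0 ≤ (1/2) - v := by linarith
  have key : ((4 * (827/1000) - ((-(12/125)) * (v - L / 3) + (2063801/2000000) / 3) * (2 + v)^2) * (L * (1 + L - v)) - 1 * ((L - v * (1 + L - v)) * (2 + v)^2))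
    = (328407564/153125) * (((7/4) - L)^3 * ((1/2) - v)^4) + (3490059946/1071875) * (((7/4) - L)^3 * v * ((1/2) - v)^3) + (7708783197/4287500) * (((7/4) - L)^3 * v^2 * ((1/2) - v)^2) + (868756263/428750) * (((7/4) - L)^3 * v^3 * ((1/2) - v)) + (192905897/171500) * (((7/4) - L)^3 * v^4) + (513527116/65625) * ((L - (63/40)) * ((7/4) - L)^2 * ((1/2) - v)^4) + (43422356758/3215625) * ((L - (63/40)) * ((7/4) - L)^2 * v * ((1/2) - v)^3) + (37752869737/4287500) * ((L - (63/40)) * ((7/4) - L)^2 * v^2 * ((1/2) - v)^2) + (9460151219/1286250) * ((L - (63/40)) * ((7/4) - L)^2 * v^3 * ((1/2) - v)) + (1842082211/514500) * ((L - (63/40)) * ((7/4) - L)^2 * v^4) + (285605568/30625) * ((L - (63/40))^2 * ((7/4) - L) * ((1/2) - v)^4) + (11321975824/643125) * ((L - (63/40))^2 * ((7/4) - L) * v * ((1/2) - v)^3) + (8138984036/643125) * ((L - (63/40))^2 * ((7/4) - L) * v^2 * ((1/2) - v)^2) + (1138499983/128625) * ((L - (63/40))^2 * ((7/4) -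 L) * v^3 * ((1/2) - v)) + (98372431/25725) * ((L - (63/40))^2 * ((7/4) - L) * v^4) + (66947024/18375) * ((L - (63/40))^3 * ((1/2) - v)^4) + (189024536/25725) * ((L - (63/40))^3 * v * ((1/2) - v)^3) + (724482067/128625) * ((L - (63/40))^3 * v^2 * ((1/2) - v)^2) + (90325996/25725) * ((L - (63/40))^3 * v^3 * ((1/2) - v)) + (2341459/1715) * ((L - (63/40))^3 * v^4) := by ring
  rw [key]; positivity

private lemma UB1_p1_c3 (L v : ℝ) (hL0 : (7/5) ≤ L) (hL1 : L ≤ (7/4)) (hv0 : (1/2) ≤ v) (hv1 : v ≤ 1) :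
    0 ≤ ((4 * (827/1000) - ((-(12/125)) * (v - L / 3) + (2063801/2000000) / 3) * (2 + v)^2) * (L * (1 + L - v)) - 1 * ((L - v * (1 + L - v)) * (2 + v)^2)) := by
  have a0 : 0 ≤ L - (7/5) := by linarith
  have a1 : 0 ≤ (7/4) - L := by linarith
  have b0 : 0 ≤ v - (1/2) := by linarith
  have b1 : 0 ≤ 1 - v := by linarith
  have key : ((4 * (827/1000) - ((-(12/125)) * (v - L / 3) + (2063801/2000000) / 3) * (2 + v)^2) * (L * (1 + L - v)) - 1 * ((L - v * (1 + L - v)) * (2 + v)^2))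
    = (15433507/128625) * (((7/4) - L)^3 * (1 - v)^4) + (179462483/214375) * (((7/4) - L)^3 * (v - (1/2)) * (1 - v)^3) + (6425504102/3215625) * (((7/4) - L)^3 * (v - (1/2))^2 * (1 - v)^2) + (1929204068/1071875) * (((7/4) - L)^3 * (v - (1/2))^3 * (1 - v)) + (10769576/21875) * (((7/4) - L)^3 * (v - (1/2))^4) + (66910311/171500) * ((L - (7/5)) * ((7/4) - L)^2 * (1 - v)^4) + (6566861081/2572500) * ((L - (7/5)) * ((7/4) - L)^2 * (v - (1/2)) * (1 - v)^3) + (19743703597/3215625) * ((L - (7/5)) * ((7/4) - L)^2 * (v - (1/2))^2 * (1 - v)^2) + (6117106943/1071875) * ((L - (7/5)) * ((7/4) - L)^2 * (v - (1/2))^3 * (1 - v)) + (5154388/3125) * ((L - (7/5)) * ((7/4) - L)^2 * (v - (1/2))^4) + (91379207/205800) * ((L - (7/5))^2 * ((7/4) - L) * (1 - v)^4) + (455509709/171500) * ((L - (7/5))^2 * ((7/4) - L) * (v - (1/2)) * (1 - v)^3) + (32574960487/5145000) * ((L - (7/5))^2 * ((7/4) - L) * (v - (1/2))^2 * (1 - v)^2) + (515876681/85750)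 * ((L - (7/5))^2 * ((7/4) - L) * (v - (1/2))^3 * (1 - v)) + (15887761/8750) * ((L - (7/5))^2 * ((7/4) - L) * (v - (1/2))^4) + (2341459/13720) * ((L - (7/5))^3 * (1 - v)^4) + (47662271/51450) * ((L - (7/5))^3 * (v - (1/2)) * (1 - v)^3) + (2229328387/1029000) * ((L - (7/5))^3 * (v - (1/2))^2 * (1 - v)^2) + (179395619/85750) * ((L - (7/5))^3 * (v - (1/2))^3 * (1 - v)) + (1144597/1750) * ((L - (7/5))^3 * (v - (1/2))^4) := by ring
  rw [key]; positivity

lemma UB1_p1 (L v : ℝ) (hL0 : (7/5) ≤ L) (hL1 : L ≤ (7/4)) (hv0 : 0 ≤ v) (hv1 : v ≤ 1) :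
    0 ≤ ((4 * (827/1000) - ((-(12/125)) * (v - L / 3) + (2063801/2000000) / 3) * (2 + v)^2) * (L * (1 + L - v)) - 1 * ((L - v * (1 + L - v)) * (2 + v)^2)) := by
  rcases le_total v (1/2) with h0 | h0
  · skip
    rcases le_total L (63/40) with h1 | h1
    · skip
      rcases le_total v (1/4) with h2 | h2
      · skip
        exact UB1_p1_c0 L v (by linarith) (by linarith) (by linarith) (by linarith)
      · skip
        exact UB1_p1_c1 L v (by linarith) (by linarith) (by linarith) (by linarith)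
    · skip
      exact UB1_p1_c2 L v (by linarith) (by linarith) (by linarith) (by linarith)
  · skip
    exact UB1_p1_c3 L v (by linarith) (by linarith) (by linarith) (by linarith)

private lemma UB1_p0_c0 (L v : ℝ) (hL0 : (7/5) ≤ L) (hL1 : L ≤ (7/4)) (hv0 : 1 ≤ v) (hv1 : v ≤ (7/4)) :
    0 ≤ (4 * (827/1000) - ((-(12/125)) * (v - L / 3) + (2063801/2000000) / 3) * (2 + v)^2) := by
  have a0 : 0 ≤ L - (7/5) := by linarith
  have a1 : 0 ≤ (7/4) - L := by linarith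
  have b0 : 0 ≤ v - 1 := by linarith
  have b1 : 0 ≤ (7/4) - v := by linarith
  have key : (4 * (827/1000) - ((-(12/125)) * (v - L / 3) + (2063801/2000000) / 3) * (2 + v)^2)
    = (2692394/590625) * (((7/4) - L) * ((7/4) - v)^3) + (199977/21875) * (((7/4) - L) * (v - 1) * ((7/4) - v)^2) + (199043/35000) * (((7/4) - L) * (v - 1)^2 * ((7/4) - v)) + (260437/189000) * (((7/4) - L) * (v - 1)^3) + (2289194/590625) * ((L - (7/5)) * ((7/4) - v)^3) + (443131/65625) * ((L - (7/5)) * (v - 1) * ((7/4) - v)^2) + (305929/105000) * ((L - (7/5)) * (v - 1)^2 * ((7/4) - v)) + (58837/189000) * ((L - (7/5)) * (v - 1)^3) := by ring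
  rw [key]; positivity

lemma UB1_p0 (L v : ℝ) (hL0 : (7/5) ≤ L) (hL1 : L ≤ (7/4)) (hv0 : 1 ≤ v) (hv1 : v ≤ (7/4)) :
    0 ≤ (4 * (827/1000) - ((-(12/125)) * (v - L / 3) + (2063801/2000000) / 3) * (2 + v)^2) := by
  exact UB1_p0_c0 L v (by linarith) (by linarith) (by linarith) (by linarith)

end AffInc.Cert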