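import Pool.Agent.Helper72.AI.Stmts2

set_option autoImplicit false
set_option linter.all false

/-! Bernstein certificate (generated). -/

namespace AffInc.Cert

-- piece UB10: L in [19/5, 43/10], C=7/20 w=1 m=-13/500 R=11101/40000
private lemma UB10_p1_c0 (L v : ℝ) (hL0 : (19/5) ≤ L) (hL1 : L ≤ (43/10)) (hv0 : 0 ≤ v) (hv1 : v ≤ (1/2)) :
    0 ≤ ((4 * (7/20) - ((-(13/500)) * (v - L / 3) + (11101/40000) / 3) * (2 + v)^2) * (L * (1 + L - v)) - 1 * ((L - v * (1 + L - v)) * (2 + v)^2)) := by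
  have a0 : 0 ≤ L - (19/5) := by linarith
  have a1 : 0 ≤ (43/10) - L := by linarith
  have b0 : 0 ≤ v := by linarith
  have b1 : 0 ≤ (1/2) - v := by linarith
  have key : ((4 * (7/20) - ((-(13/500)) * (v - L / 3) + (11101/40000) / 3) * (2 + v)^2) * (L * (1 + L - v)) - 1 * ((L - v * (1 + L - v)) * (2 + v)^2))
    = (2367552/15625) * (((43/10) - L)^3 * ((1/2) - v)^4) + (8404972/46875) * (((43/10) - L)^3 * v * ((1/2) - v)^3) + (1379606/46875) * (((43/10) - L)^3 * v^2 * ((1/2) - v)^2) + (5577367/37500) * (((43/10) - L)^3 * v^3 * ((1/2) - v)) + (1037179/7500) * (((43/10) - L)^3 * v^4) + (30585428/46875) * ((L - (19/5)) * ((43/10) - L)^2 * ((1/2) - v)^4) + (18365112/15625) * ((L - (19/5)) * ((43/10) - L)^2 * v * ((1/2) - v)^3) + (162022337/187500) * ((L - (19/5)) * ((43/10) - L)^2 * v^2 * ((1/2) - v)^2) + (22184789/25000) * ((L - (19/5)) * ((43/10) - L)^2 * v^3 * ((1/2) - v)) + (7795129/15000) * ((L - (19/5)) * ((43/10) - L)^2 *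 v^4) + (40763038/46875) * ((L - (19/5))^2 * ((43/10) - L) * ((1/2) - v)^4) + (88080431/46875) * ((L - (19/5))^2 * ((43/10) - L) * v * ((1/2) - v)^3) + (646099879/375000) * ((L - (19/5))^2 * ((43/10) - L) * v^2 * ((1/2) - v)^2) + (51480941/37500) * ((L - (19/5))^2 * ((43/10) - L) * v^3 * ((1/2) - v)) + (3163753/5000) * ((L - (19/5))^2 * ((43/10) - L) * v^4) + (5751422/15625) * ((L - (19/5))^3 * ((1/2) - v)^4) + (13757689/15625) * ((L - (19/5))^3 * v * ((1/2) - v)^3) + (110506351/125000) * ((L - (19/5))^3 * v^2 * ((1/2) - v)^2) + (15776083/25000) * ((L - (19/5))^3 * v^3 * ((1/2) - v)) + (156562/625) * ((L - (19/5))^3 * v^4) := by ring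
  rw [key]; positivity

private lemma UB10_p1_c1 (L v : ℝ) (hL0 : (19/5) ≤ L) (hL1 : L ≤ (43/10)) (hv0 : (1/2) ≤ v) (hv1 : v ≤ 1) :
    0 ≤ ((4 * (7/20) - ((-(13/500)) * (v - L / 3) + (11101/40000) / 3) * (2 + v)^2) * (L * (1 + L - v)) - 1 * ((L - v * (1 + L - v)) * (2 + v)^2)) := by
  have a0 : 0 ≤ L - (19/5) := by linarith
  have a1 : 0 ≤ (43/10) - L := by linarith
  have b0 : 0 ≤ v - (1/2) := by linarith
  have b1 : 0 ≤ 1 - v := by linarith
  have key : ((4 * (7/20) - ((-(13/500)) * (v - L / 3) + (11101/40000) / 3) * (2 + v)^2) * (L * (1 + L - v)) - 1 * ((L - v * (1 + L - v)) * (2 + v)^2))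
    = (1037179/7500) * (((43/10) - L)^3 * (1 - v)^4) + (11969931/12500) * (((43/10) - L)^3 * (v - (1/2)) * (1 - v)^3) + (230252407/93750) * (((43/10) - L)^3 * (v - (1/2))^2 * (1 - v)^2) + (40296249/15625) * (((43/10) - L)^3 * (v - (1/2))^3 * (1 - v)) + (14585122/15625) * (((43/10) - L)^3 * (v - (1/2))^4) + (7795129/15000) * ((L - (19/5)) * ((43/10) - L)^2 * (1 - v)^4) + (245250793/75000) * ((L - (19/5)) * ((43/10) - L)^2 * (v - (1/2)) * (1 - v)^3) + (375561383/46875) * ((L - (19/5)) * ((43/10) - L)^2 * (v - (1/2))^2 * (1 - v)^2) + (258188099/31250) * ((L - (19/5)) * ((43/10) - L)^2 * (v - (1/2))^3 * (1 - v)) + (46467236/15625) * ((L - (19/5)) * ((43/10) - L)^2 * (v - (1/2))^4) + (3163753/5000) * ((L - (19/5))^2 * ((43/10) - L) * (1 - v)^4) + (138344239/37500) * ((L - (19/5))^2 * ((43/10) - L) * (v - (1/2)) * (1 - v)^3) + (3251998819/375000) * ((L - (19/5))^2 * ((43/10) - L) * (v - (1/2))^2 * (1 - v)^2) + (274587529/31250) *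 ((L - (19/5))^2 * ((43/10) - L) * (v - (1/2))^3 * (1 - v)) + (98270437/31250) * ((L - (19/5))^2 * ((43/10) - L) * (v - (1/2))^4) + (156562/625) * ((L - (19/5))^3 * (1 - v)^4) + (34323757/25000) * ((L - (19/5))^3 * (v - (1/2)) * (1 - v)^3) + (388721461/125000) * ((L - (19/5))^3 * (v - (1/2))^2 * (1 - v)^2) + (48424464/15625) * ((L - (19/5))^3 * (v - (1/2))^3 * (1 - v)) + (34467209/31250) * ((L - (19/5))^3 * (v - (1/2))^4) := by ring
  rw [key]; positivity

lemma UB10_p1 (L v : ℝ) (hL0 : (19/5) ≤ L) (hL1 : L ≤ (43/10)) (hv0 : 0 ≤ v) (hv1 : v ≤ 1) :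
    0 ≤ ((4 * (7/20) - ((-(13/500)) * (v - L / 3) + (11101/40000) / 3) * (2 + v)^2) * (L * (1 + L - v)) - 1 * ((L - v * (1 + L - v)) * (2 + v)^2)) := by
  rcases le_total v (1/2) with h0 | h0
  · skip
    exact UB10_p1_c0 L v (by linarith) (by linarith) (by linarith) (by linarith)
  · skip
    exact UB10_p1_c1 L v (by linarith) (by linarith) (by linarith) (by linarith)

private lemma UB10_p0_c0 (L v : ℝ) (hL0 : (19/5) ≤ L) (hL1 : L ≤ (43/10)) (hv0 : 1 ≤ v) (hv1 : v ≤ (53/20)) :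
    0 ≤ (4 * (7/20) - ((-(13/500)) * (v - L / 3) + (11101/40000) / 3) * (2 + v)^2) := by
  have a0 : 0 ≤ L - (19/5) := by linarith
  have a1 : 0 ≤ (43/10) - L := by linarith
  have b0 : 0 ≤ v - 1 := by linarith
  have b1 : 0 ≤ (53/20) - v := by linarith
  have key : (4 * (7/20) - ((-(13/500)) * (v - L / 3) + (11101/40000) / 3) * (2 + v)^2)
    = (40402/179685) * (((43/10) - L) * ((53/20) - v)^3) + (122227/299475) * (((43/10) - L) * (v - 1) * ((53/20) - v)^2) + (2518987/11979000) * (((43/10) - L) * (v - 1)^2 * ((53/20) - v)) + (567769/7187400) * (((43/10) - L) * (v - 1)^3) + (37282/179685) * ((L - (19/5)) * ((53/20) - v)^3) + (100907/299475) * ((L - (19/5)) * (v - 1) * ((53/20) - v)^2) + (1374467/11979000) * ((L - (19/5)) * (v - 1)^2 * ((53/20) - v)) + (267937/7187400) * ((L - (19/5)) * (v - 1)^3) := by ring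
  rw [key]; positivity

private lemma UB10_p0_c1 (L v : ℝ) (hL0 : (19/5) ≤ L) (hL1 : L ≤ (43/10)) (hv0 : (53/20) ≤ v) (hv1 : v ≤ (43/10)) :
    0 ≤ (4 * (7/20) - ((-(13/500)) * (v - L / 3) + (11101/40000) / 3) * (2 + v)^2) := by
  have a0 : 0 ≤ L - (19/5) := by linarith
  have a1 : 0 ≤ (43/10) - L := by linarith
  have b0 : 0 ≤ v - (53/20) := by linarith
  have b1 : 0 ≤ (43/10) - v := by linarith
  have key : (4 * (7/20) - ((-(13/500)) * (v - L / 3) + (11101/40000) / 3) * (2 + v)^2)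
    = (567769/7187400) * (((43/10) - L) * ((43/10) - v)^3) + (350967/1331000) * (((43/10) - L) * (v - (53/20)) * ((43/10) - v)^2) + (771064/1497375) * (((43/10) - L) * (v - (53/20))^2 * ((43/10) - v)) + (3434249/8984250) * (((43/10) - L) * (v - (53/20))^3) + (267937/7187400) * ((L - (19/5)) * ((43/10) - v)^3) + (1304903/11979000) * ((L - (19/5)) * (v - (53/20)) * ((43/10) - v)^2) + (487144/1497375) * ((L - (19/5)) * (v - (53/20))^2 * ((43/10) - v)) + (2746289/8984250) * ((L - (19/5)) * (v - (53/20))^3) := by ring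
  rw [key]; positivity

lemma UB10_p0 (L v : ℝ) (hL0 : (19/5) ≤ L) (hL1 : L ≤ (43/10)) (hv0 : 1 ≤ v) (hv1 : v ≤ (43/10)) :
    0 ≤ (4 * (7/20) - ((-(13/500)) * (v - L / 3) + (11101/40000) / 3) * (2 + v)^2) := by
  rcases le_total v (53/20) with h0 | h0
  · skip
    exact UB10_p0_c0 L v (by linarith) (by linarith) (by linarith) (by linarith)
  · skip
    exact UB10_p0_c1 L v (by linarith) (by linarith) (by linarith) (by linarith)

end AffInc.Cert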