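import Pool.Agent.Helper72.AI.Stmts2

set_option autoImplicit false
set_option linter.all false

/-! Bernstein certificate (generated). -/

namespace AffInc.Cert

-- piece UB11: L in [43/10, 63/10], C=1/4 w=1 m=-1/100 R=191/1600
private lemma UB11_p1_c0 (L v : ℝ) (hL0 : (43/10) ≤ L) (hL1 : L ≤ (63/10)) (hv0 : 0 ≤ v) (hv1 : v ≤ (1/2)) :
    0 ≤ ((4 * (1/4) - ((-(1/100)) * (v - L / 3) + (191/1600) / 3) * (2 + v)^2) * (L * (1 + L - v)) - 1 * ((L - v * (1 + L - v)) * (2 + v)^2)) := by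
  have a0 : 0 ≤ L - (43/10) := by linarith
  have a1 : 0 ≤ (63/10) - L := by linarith
  have b0 : 0 ≤ v := by linarith
  have b1 : 0 ≤ (1/2) - v := by linarith
  have key : ((4 * (1/4) - ((-(1/100)) * (v - L / 3) + (191/1600) / 3) * (2 + v)^2) * (L * (1 + L - v)) - 1 * ((L - v * (1 + L - v)) * (2 + v)^2))
    = (131193/100000) * (((63/10) - L)^3 * ((1/2) - v)^4) + (371247/200000) * (((63/10) - L)^3 * v * ((1/2) - v)^3) + (6985033/1600000) * (((63/10) - L)^3 * v^2 * ((1/2) - v)^2) + (2818389/320000) * (((63/10) - L)^3 * v^3 * ((1/2) - v)) + (19423/4000) * (((63/10) - L)^3 * v^4) + (5042017/300000) * ((L - (43/10)) * ((63/10) - L)^2 * ((1/2) - v)^4) + (30962143/600000) * ((L - (43/10)) * ((63/10) - L)^2 * v * ((1/2) - v)^3) + (369591377/4800000) * ((L - (43/10)) * ((63/10) - L)^2 * v^2 * ((1/2) - v)^2) + (65439641/960000) * ((L - (43/10)) * ((63/10) - L)^2 * v^3 * ((1/2) - v)) + (409141/16000) * ((L - (43/10)) * ((63/10) - L)^2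 * v^4) + (10476497/300000) * ((L - (43/10))^2 * ((63/10) - L) * ((1/2) - v)^4) + (70469863/600000) * ((L - (43/10))^2 * ((63/10) - L) * v * ((1/2) - v)^3) + (270086219/1600000) * ((L - (43/10))^2 * ((63/10) - L) * v^2 * ((1/2) - v)^2) + (122183381/960000) * ((L - (43/10))^2 * ((63/10) - L) * v^3 * ((1/2) - v)) + (974459/24000) * ((L - (43/10))^2 * ((63/10) - L) * v^4) + (1921353/100000) * ((L - (43/10))^3 * ((1/2) - v)^4) + (13348487/200000) * ((L - (43/10))^3 * v * ((1/2) - v)^3) + (151292793/1600000) * ((L - (43/10))^3 * v^2 * ((1/2) - v)^2) + (21348969/320000) * ((L - (43/10))^3 * v^3 * ((1/2) - v)) + (312857/16000) * ((L - (43/10))^3 * v^4) := by ring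
  rw [key]; positivity

private lemma UB11_p1_c1 (L v : ℝ) (hL0 : (43/10) ≤ L) (hL1 : L ≤ (63/10)) (hv0 : (1/2) ≤ v) (hv1 : v ≤ 1) :
    0 ≤ ((4 * (1/4) - ((-(1/100)) * (v - L / 3) + (191/1600) / 3) * (2 + v)^2) * (L * (1 + L - v)) - 1 * ((L - v * (1 + L - v)) * (2 + v)^2)) := by
  have a0 : 0 ≤ L - (43/10) := by linarith
  have a1 : 0 ≤ (63/10) - L := by linarith
  have b0 : 0 ≤ v - (1/2) := by linarith
  have b1 : 0 ≤ 1 - v := by linarith
  have key : ((4 * (1/4) - ((-(1/100)) * (v - L / 3) + (191/1600) / 3) * (2 + v)^2) * (L * (1 + L - v)) - 1 * ((L - v * (1 + L - v)) * (2 + v)^2))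
    = (19423/4000) * (((63/10) - L)^3 * (1 - v)^4) + (9612331/320000) * (((63/10) - L)^3 * (v - (1/2)) * (1 - v)^3) + (108894163/1600000) * (((63/10) - L)^3 * (v - (1/2))^2 * (1 - v)^2) + (1632519/25000) * (((63/10) - L)^3 * (v - (1/2))^3 * (1 - v)) + (8917727/400000) * (((63/10) - L)^3 * (v - (1/2))^4) + (409141/16000) * ((L - (43/10)) * ((63/10) - L)^2 * (1 - v)^4) + (130948039/960000) * ((L - (43/10)) * ((63/10) - L)^2 * (v - (1/2)) * (1 - v)^3) + (1352217347/4800000) * ((L - (43/10)) * ((63/10) - L)^2 * (v - (1/2))^2 * (1 - v)^2) + (25667573/100000) * ((L - (43/10)) * ((63/10) - L)^2 * (v - (1/2))^3 * (1 - v)) + (34161221/400000) * ((L - (43/10)) * ((63/10) - L)^2 * (v - (1/2))^4) + (974459/24000) * ((L - (43/10))^2 * ((63/10) - L) * (1 - v)^4) + (189643499/960000) * ((L - (43/10))^2 * ((63/10) - L) * (v - (1/2)) * (1 - v)^3) + (607386809/1600000) * ((L - (43/10))^2 * ((63/10) - L) * (v - (1/2))^2 * (1 - v)^2) + (16487609/50000)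 * ((L - (43/10))^2 * ((63/10) - L) * (v - (1/2))^3 * (1 - v)) + (42672861/400000) * ((L - (43/10))^2 * ((63/10) - L) * (v - (1/2))^4) + (312857/16000) * ((L - (43/10))^3 * (1 - v)^4) + (28708151/320000) * ((L - (43/10))^3 * (v - (1/2)) * (1 - v)^3) + (261680523/1600000) * ((L - (43/10))^3 * (v - (1/2))^2 * (1 - v)^2) + (13661721/100000) * ((L - (43/10))^3 * (v - (1/2))^3 * (1 - v)) + (17237367/400000) * ((L - (43/10))^3 * (v - (1/2))^4) := by ring
  rw [key]; positivity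

lemma UB11_p1 (L v : ℝ) (hL0 : (43/10) ≤ L) (hL1 : L ≤ (63/10)) (hv0 : 0 ≤ v) (hv1 : v ≤ 1) :
    0 ≤ ((4 * (1/4) - ((-(1/100)) * (v - L / 3) + (191/1600) / 3) * (2 + v)^2) * (L * (1 + L - v)) - 1 * ((L - v * (1 + L - v)) * (2 + v)^2)) := by
  rcases le_total v (1/2) with h0 | h0
  · skip
    exact UB11_p1_c0 L v (by linarith) (by linarith) (by linarith) (by linarith)
  · skip
    exact UB11_p1_c1 L v (by linarith) (by linarith) (by linarith) (by linarith)

private lemma UB11_p0_c0 (L v : ℝ) (hL0 : (43/10) ≤ L) (hL1 : L ≤ (63/10)) (hv0 : 1 ≤ v) (hv1 : v ≤ (73/20)) :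
    0 ≤ (4 * (1/4) - ((-(1/100)) * (v - L / 3) + (191/1600) / 3) * (2 + v)^2) := by
  have a0 : 0 ≤ L - (43/10) := by linarith
  have a1 : 0 ≤ (63/10) - L := by linarith
  have b0 : 0 ≤ v - 1 := by linarith
  have b1 : 0 ≤ (73/20) - v := by linarith
  have key : (4 * (1/4) - ((-(1/100)) * (v - L / 3) + (191/1600) / 3) * (2 + v)^2)
    = (91/5618) * (((63/10) - L) * ((73/20) - v)^3) + (2031/56180) * (((63/10) - L) * (v - 1) * ((73/20) - v)^2) + (60011/2247200) * (((63/10) - L) * (v - 1)^2 * ((73/20) - v)) + (26407/2247200) * (((63/10) - L) * (v - 1)^3) + (4343/297754) * ((L - (43/10)) * ((73/20) - v)^3) + (84763/2977540) * ((L - (43/10)) * (v - 1) * ((73/20) - v)^2) + (5329109/357304800) * ((L - (43/10)) * (v - 1)^2 * ((73/20) - v)) + (2155673/357304800) * ((L - (43/10)) * (v - 1)^3) := by ring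
  rw [key]; positivity

private lemma UB11_p0_c1 (L v : ℝ) (hL0 : (43/10) ≤ L) (hL1 : L ≤ (63/10)) (hv0 : (73/20) ≤ v) (hv1 : v ≤ (63/10)) :
    0 ≤ (4 * (1/4) - ((-(1/100)) * (v - L / 3) + (191/1600) / 3) * (2 + v)^2) := by
  have a0 : 0 ≤ L - (43/10) := by linarith
  have a1 : 0 ≤ (63/10) - L := by linarith
  have b0 : 0 ≤ v - (73/20) := by linarith
  have b1 : 0 ≤ (63/10) - v := by linarith
  have key : (4 * (1/4) - ((-(1/100)) * (v - L / 3) + (191/1600) / 3) * (2 + v)^2)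
    = (26407/2247200) * (((63/10) - L) * ((63/10) - v)^3) + (98431/2247200) * (((63/10) - L) * (v - (73/20)) * ((63/10) - v)^2) + (988/14045) * (((63/10) - L) * (v - (73/20))^2 * ((63/10) - v)) + (24323/561800) * (((63/10) - L) * (v - (73/20))^3) + (2155673/357304800) * ((L - (43/10)) * ((63/10) - v)^3) + (7604929/357304800) * ((L - (43/10)) * (v - (73/20)) * ((63/10) - v)^2) + (18404/446631) * ((L - (43/10)) * (v - (73/20))^2 * ((63/10) - v)) + (2765117/89326200) * ((L - (43/10)) * (v - (73/20))^3) := by ring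
  rw [key]; positivity

lemma UB11_p0 (L v : ℝ) (hL0 : (43/10) ≤ L) (hL1 : L ≤ (63/10)) (hv0 : 1 ≤ v) (hv1 : v ≤ (63/10)) :
    0 ≤ (4 * (1/4) - ((-(1/100)) * (v - L / 3) + (191/1600) / 3) * (2 + v)^2) := by
  rcases le_total v (73/20) with h0 | h0
  · skip
    exact UB11_p0_c0 L v (by linarith) (by linarith) (by linarith) (by linarith)
  · skip
    exact UB11_p0_c1 L v (by linarith) (by linarith) (by linarith) (by linarith)

end AffInc.Cert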