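import Pool.Agent.Helper72.AI.Stmts2

set_option autoImplicit false
set_option linter.all false

/-! Bernstein certificate (generated). -/

namespace AffInc.Cert

-- piece UB2: L in [7/4, 23/10], C=827/1000 w=1 m=-13/100 R=2063801/2000000
private lemma UB2_p1_c0 (L v : ℝ) (hL0 : (7/4) ≤ L) (hL1 : L ≤ (23/10)) (hv0 : 0 ≤ v) (hv1 : v ≤ (1/2)) :
    0 ≤ ((4 * (827/1000) - ((-(13/100)) * (v - L / 3) + (2063801/2000000) / 3) * (2 + v)^2) * (L * (1 + L - v)) - 1 * ((L - v * (1 + L - v)) * (2 + v)^2)) := by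
  have a0 : 0 ≤ L - (7/4) := by linarith
  have a1 : 0 ≤ (23/10) - L := by linarith
  have b0 : 0 ≤ v := by linarith
  have b1 : 0 ≤ (1/2) - v := by linarith
  have key : ((4 * (827/1000) - ((-(13/100)) * (v - L / 3) + (2063801/2000000) / 3) * (2 + v)^2) * (L * (1 + L - v)) - 1 * ((L - v * (1 + L - v)) * (2 + v)^2))
    = (40252646/499125) * (((23/10) - L)^3 * ((1/2) - v)^4) + (10942667/99825) * (((23/10) - L)^3 * v * ((1/2) - v)^3) + (126031067/3993000) * (((23/10) - L)^3 * v^2 * ((1/2) - v)^2) + (9431999/199650) * (((23/10) - L)^3 * v^3 * ((1/2) - v)) + (1984459/53240) * (((23/10) - L)^3 * v^4) + (933186494/2495625) * ((L - (7/4)) * ((23/10) - L)^2 * ((1/2) - v)^4) + (550489629/831875) * ((L - (7/4)) * ((23/10) - L)^2 * v * ((1/2) - v)^3) + (7259963479/19965000) * ((L - (7/4)) * ((23/10) - L)^2 * v^2 * ((1/2) - v)^2) + (145894777/665500) * ((L - (7/4)) * ((23/10) - L)^2 * v^3 * ((1/2) - v)) + (96506359/798600) * ((L -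 (7/4)) * ((23/10) - L)^2 * v^4) + (2207010216/4159375) * ((L - (7/4))^2 * ((23/10) - L) * ((1/2) - v)^4) + (13323140456/12478125) * ((L - (7/4))^2 * ((23/10) - L) * v * ((1/2) - v)^3) + (17575420331/24956250) * ((L - (7/4))^2 * ((23/10) - L) * v^2 * ((1/2) - v)^2) + (3196491971/9982500) * ((L - (7/4))^2 * ((23/10) - L) * v^3 * ((1/2) - v)) + (259696337/1996500) * ((L - (7/4))^2 * ((23/10) - L) * v^4) + (975602776/4159375) * ((L - (7/4))^3 * ((1/2) - v)^4) + (2092634132/4159375) * ((L - (7/4))^3 * v * ((1/2) - v)^3) + (2921581467/8318750) * ((L - (7/4))^3 * v^2 * ((1/2) - v)^2) + (220657211/1663750) * ((L - (7/4))^3 * v^3 * ((1/2) - v)) + (7016346/166375) * ((L - (7/4))^3 * v^4) := by ring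
  rw [key]; positivity

private lemma UB2_p1_c1 (L v : ℝ) (hL0 : (7/4) ≤ L) (hL1 : L ≤ (23/10)) (hv0 : (1/2) ≤ v) (hv1 : v ≤ 1) :
    0 ≤ ((4 * (827/1000) - ((-(13/100)) * (v - L / 3) + (2063801/2000000) / 3) * (2 + v)^2) * (L * (1 + L - v)) - 1 * ((L - v * (1 + L - v)) * (2 + v)^2)) := by
  have a0 : 0 ≤ L - (7/4) := by linarith
  have a1 : 0 ≤ (23/10) - L := by linarith
  have b0 : 0 ≤ v - (1/2) := by linarith
  have b1 : 0 ≤ 1 - v := by linarith
  have key : ((4 * (827/1000) - ((-(13/100)) * (v - L / 3) + (2063801/2000000) / 3) * (2 + v)^2) * (L * (1 + L - v)) - 1 * ((L - v * (1 + L - v)) * (2 + v)^2))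
    = (1984459/53240) * (((23/10) - L)^3 * (1 - v)^4) + (50101771/199650) * (((23/10) - L)^3 * (v - (1/2)) * (1 - v)^3) + (2566217387/3993000) * (((23/10) - L)^3 * (v - (1/2))^2 * (1 - v)^2) + (213786619/332750) * (((23/10) - L)^3 * (v - (1/2))^3 * (1 - v)) + (68580253/332750) * (((23/10) - L)^3 * (v - (1/2))^4) + (96506359/798600) * ((L - (7/4)) * ((23/10) - L)^2 * (1 - v)^4) + (1492442849/1996500) * ((L - (7/4)) * ((23/10) - L)^2 * (v - (1/2)) * (1 - v)^3) + (38902719019/19965000) * ((L - (7/4)) * ((23/10) - L)^2 * (v - (1/2))^2 * (1 - v)^2) + (135036901/66550) * ((L - (7/4)) * ((23/10) - L)^2 * (v - (1/2))^3 * (1 - v)) + (1139136733/1663750) * ((L - (7/4)) * ((23/10) - L)^2 * (v - (1/2))^4) + (259696337/1996500) * ((L - (7/4))^2 * ((23/10) - L) * (1 - v)^4) + (2397120503/3327500) * ((L - (7/4))^2 * ((23/10) - L) * (v - (1/2)) * (1 - v)^3) + (23768470933/12478125) * ((L - (7/4))^2 * ((23/10) - L) * (v - (1/2))^2 * (1 -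 v)^2) + (8606529347/4159375) * ((L - (7/4))^2 * ((23/10) - L) * (v - (1/2))^3 * (1 - v)) + (3043434796/4159375) * ((L - (7/4))^2 * ((23/10) - L) * (v - (1/2))^4) + (7016346/166375) * ((L - (7/4))^3 * (1 - v)^4) + (340650469/1663750) * ((L - (7/4))^3 * (v - (1/2)) * (1 - v)^3) + (4721480337/8318750) * ((L - (7/4))^3 * (v - (1/2))^2 * (1 - v)^2) + (2743889272/4159375) * ((L - (7/4))^3 * (v - (1/2))^3 * (1 - v)) + (1026891626/4159375) * ((L - (7/4))^3 * (v - (1/2))^4) := by ring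
  rw [key]; positivity

lemma UB2_p1 (L v : ℝ) (hL0 : (7/4) ≤ L) (hL1 : L ≤ (23/10)) (hv0 : 0 ≤ v) (hv1 : v ≤ 1) :
    0 ≤ ((4 * (827/1000) - ((-(13/100)) * (v - L / 3) + (2063801/2000000) / 3) * (2 + v)^2) * (L * (1 + L - v)) - 1 * ((L - v * (1 + L - v)) * (2 + v)^2)) := by
  rcases le_total v (1/2) with h0 | h0
  · skip
    exact UB2_p1_c0 L v (by linarith) (by linarith) (by linarith) (by linarith)
  · skip
    exact UB2_p1_c1 L v (by linarith) (by linarith) (by linarith) (by linarith)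

private lemma UB2_p0_c0 (L v : ℝ) (hL0 : (7/4) ≤ L) (hL1 : L ≤ (23/10)) (hv0 : 1 ≤ v) (hv1 : v ≤ (23/10)) :
    0 ≤ (4 * (827/1000) - ((-(13/100)) * (v - L / 3) + (2063801/2000000) / 3) * (2 + v)^2) := by
  have a0 : 0 ≤ L - (7/4) := by linarith
  have a1 : 0 ≤ (23/10) - L := by linarith
  have b0 : 0 ≤ v - 1 := by linarith
  have b1 : 0 ≤ (23/10) - v := by linarith
  have key : (4 * (827/1000) - ((-(13/100)) * (v - L / 3) + (2063801/2000000) / 3) * (2 + v)^2)
    = (1399597/2416700) * (((23/10) - L) * ((23/10) - v)^3) + (618161/549250) * (((23/10) - L) * (v - 1) * ((23/10) - v)^2) + (869370371/725010000) * (((23/10) - L) * (v - 1)^2 * ((23/10) - v)) + (644642951/725010000) * (((23/10) - L) * (v - 1)^3) + (970597/2416700) * ((L - (7/4)) * ((23/10) - v)^3) + (241161/549250) * ((L - (7/4)) * (v - 1) * ((23/10) - v)^2) + (78674457/241670000) * ((L - (7/4)) * (v - 1)^2 * ((23/10) - v)) + (126745317/241670000) * ((L - (7/4))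 * (v - 1)^3) := by ring
  rw [key]; positivity

lemma UB2_p0 (L v : ℝ) (hL0 : (7/4) ≤ L) (hL1 : L ≤ (23/10)) (hv0 : 1 ≤ v) (hv1 : v ≤ (23/10)) :
    0 ≤ (4 * (827/1000) - ((-(13/100)) * (v - L / 3) + (2063801/2000000) / 3) * (2 + v)^2) := by
  exact UB2_p0_c0 L v (by linarith) (by linarith) (by linarith) (by linarith)

end AffInc.Cert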