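import Pool.Agent.Helper72.AI.Stmts2

set_option autoImplicit false
set_option linter.all false

/-! Bernstein certificate (generated). -/

namespace AffInc.Cert

-- piece UB3: L in [23/10, 27/10], C=827/1000 w=1 m=-137/1000 R=2063801/2000000
private lemma UB3_p1_c0 (L v : ℝ) (hL0 : (23/10) ≤ L) (hL1 : L ≤ (27/10)) (hv0 : 0 ≤ v) (hv1 : v ≤ (1/2)) :
    0 ≤ ((4 * (827/1000) - ((-(137/1000)) * (v - L / 3) + (2063801/2000000) / 3) * (2 + v)^2) * (L * (1 + L - v)) - 1 * ((L - v * (1 + L - v)) * (2 + v)^2)) := by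
  have a0 : 0 ≤ L - (23/10) := by linarith
  have a1 : 0 ≤ (27/10) - L := by linarith
  have b0 : 0 ≤ v := by linarith
  have b1 : 0 ≤ (1/2) - v := by linarith
  have key : ((4 * (827/1000) - ((-(137/1000)) * (v - L / 3) + (2063801/2000000) / 3) * (2 + v)^2) * (L * (1 + L - v)) - 1 * ((L - v * (1 + L - v)) * (2 + v)^2))
    = (113803747/200000) * (((27/10) - L)^3 * ((1/2) - v)^4) + (1388801399/1200000) * (((27/10) - L)^3 * v * ((1/2) - v)^3) + (6868840601/9600000) * (((27/10) - L)^3 * v^2 * ((1/2) - v)^2) + (458081233/1920000) * (((27/10) - L)^3 * v^3 * ((1/2) - v)) + (8721319/96000) * (((27/10) - L)^3 * v^4) + (1209079099/600000) * ((L - (23/10)) * ((27/10) - L)^2 * ((1/2) - v)^4) + (1692380207/400000) * ((L - (23/10)) * ((27/10) - L)^2 * v * ((1/2) - v)^3) + (25889261419/9600000) * ((L - (23/10)) * ((27/10) - L)^2 * v^2 * ((1/2) - v)^2) + (508127709/640000) * ((L - (23/10)) * ((27/10) - L)^2 * v^3 * ((1/2) - v)) + (12022493/48000) * ((L - (23/10))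 * ((27/10) - L)^2 * v^4) + (1405662059/600000) * ((L - (23/10))^2 * ((27/10) - L) * ((1/2) - v)^4) + (6031659301/1200000) * ((L - (23/10))^2 * ((27/10) - L) * v * ((1/2) - v)^3) + (10366152233/3200000) * ((L - (23/10))^2 * ((27/10) - L) * v^2 * ((1/2) - v)^2) + (1586944667/1920000) * ((L - (23/10))^2 * ((27/10) - L) * v^3 * ((1/2) - v)) + (19907131/96000) * ((L - (23/10))^2 * ((27/10) - L) * v^4) + (178746867/200000) * ((L - (23/10))^3 * ((1/2) - v)^4) + (775845893/400000) * ((L - (23/10))^3 * v * ((1/2) - v)^3) + (3955283427/3200000) * ((L - (23/10))^3 * v^2 * ((1/2) - v)^2) + (163025991/640000) * ((L - (23/10))^3 * v^3 * ((1/2) - v)) + (172711/4000) * ((L - (23/10))^3 * v^4) := by ring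
  rw [key]; positivity

private lemma UB3_p1_c1 (L v : ℝ) (hL0 : (23/10) ≤ L) (hL1 : L ≤ (27/10)) (hv0 : (1/2) ≤ v) (hv1 : v ≤ 1) :
    0 ≤ ((4 * (827/1000) - ((-(137/1000)) * (v - L / 3) + (2063801/2000000) / 3) * (2 + v)^2) * (L * (1 + L - v)) - 1 * ((L - v * (1 + L - v)) * (2 + v)^2)) := by
  have a0 : 0 ≤ L - (23/10) := by linarith
  have a1 : 0 ≤ (27/10) - L := by linarith
  have b0 : 0 ≤ v - (1/2) := by linarith
  have b1 : 0 ≤ 1 - v := by linarith
  have key : ((4 * (827/1000) - ((-(137/1000)) * (v - L / 3) + (2063801/2000000) / 3) * (2 + v)^2) * (L * (1 + L - v)) - 1 * ((L - v * (1 + L - v)) * (2 + v)^2))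
    = (8721319/96000) * (((27/10) - L)^3 * (1 - v)^4) + (312443269/640000) * (((27/10) - L)^3 * (v - (1/2)) * (1 - v)^3) + (14057569211/9600000) * (((27/10) - L)^3 * (v - (1/2))^2 * (1 - v)^2) + (349756209/200000) * (((27/10) - L)^3 * (v - (1/2))^3 * (1 - v)) + (528998413/800000) * (((27/10) - L)^3 * (v - (1/2))^4) + (12022493/48000) * ((L - (23/10)) * ((27/10) - L)^2 * (1 - v)^4) + (2322814633/1920000) * ((L - (23/10)) * ((27/10) - L)^2 * (v - (1/2)) * (1 - v)^3) + (37865734009/9600000) * ((L - (23/10)) * ((27/10) - L)^2 * (v - (1/2))^2 * (1 - v)^2) + (504384253/100000) * ((L - (23/10)) * ((27/10) - L)^2 * (v - (1/2))^3 * (1 - v)) + (1597059487/800000) * ((L - (23/10)) * ((27/10) - L)^2 * (v - (1/2))^4) + (19907131/96000) * ((L - (23/10))^2 * ((27/10) - L) * (1 - v)^4) + (1598196293/1920000) * ((L - (23/10))^2 * ((27/10) - L) * (v - (1/2)) * (1 - v)^3) + (10422410363/3200000) * ((L - (23/10))^2 * ((27/10) - L) * (v - (1/2))^2 * (1 - v)^2) + (929722741/200000)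 * ((L - (23/10))^2 * ((27/10) - L) * (v - (1/2))^3 * (1 - v)) + (1562624487/800000) * ((L - (23/10))^2 * ((27/10) - L) * (v - (1/2))^4) + (172711/4000) * ((L - (23/10))^3 * (1 - v)^4) + (58044089/640000) * ((L - (23/10))^3 * (v - (1/2)) * (1 - v)^3) + (2380554897/3200000) * ((L - (23/10))^3 * (v - (1/2))^2 * (1 - v)^2) + (66472011/50000) * ((L - (23/10))^3 * (v - (1/2))^3 * (1 - v)) + (489302613/800000) * ((L - (23/10))^3 * (v - (1/2))^4) := by ring
  rw [key]; positivity

lemma UB3_p1 (L v : ℝ) (hL0 : (23/10) ≤ L) (hL1 : L ≤ (27/10)) (hv0 : 0 ≤ v) (hv1 : v ≤ 1) :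
    0 ≤ ((4 * (827/1000) - ((-(137/1000)) * (v - L / 3) + (2063801/2000000) / 3) * (2 + v)^2) * (L * (1 + L - v)) - 1 * ((L - v * (1 + L - v)) * (2 + v)^2)) := by
  rcases le_total v (1/2) with h0 | h0
  · skip
    exact UB3_p1_c0 L v (by linarith) (by linarith) (by linarith) (by linarith)
  · skip
    exact UB3_p1_c1 L v (by linarith) (by linarith) (by linarith) (by linarith)

private lemma UB3_p0_c0 (L v : ℝ) (hL0 : (23/10) ≤ L) (hL1 : L ≤ (27/10)) (hv0 : 1 ≤ v) (hv1 : v ≤ (37/20)) :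
    0 ≤ (4 * (827/1000) - ((-(137/1000)) * (v - L / 3) + (2063801/2000000) / 3) * (2 + v)^2) := by
  have a0 : 0 ≤ L - (23/10) := by linarith
  have a1 : 0 ≤ (27/10) - L := by linarith
  have b0 : 0 ≤ v - 1 := by linarith
  have b1 : 0 ≤ (37/20) - v := by linarith
  have key : (4 * (827/1000) - ((-(137/1000)) * (v - L / 3) + (2063801/2000000) / 3) * (2 + v)^2)
    = (999997/491300) * (((27/10) - L) * ((37/20) - v)^3) + (19136893/4913000) * (((27/10) - L) * (v - 1) * ((37/20) - v)^2) + (1877204831/589560000) * (((27/10) - L) * (v - 1)^2 * ((37/20) - v)) + (982698371/589560000) * (((27/10) - L) * (v - 1)^3) + (671197/491300) * ((L - (23/10)) * ((37/20) - v)^3) + (7409693/4913000) * ((L - (23/10)) * (v - 1) * ((37/20) - v)^2) + (214682431/589560000) * ((L - (23/10)) * (v - 1)^2 * ((37/20) - v)) + (332879971/589560000) * ((L - (23/10)) * (v - 1)^3) := by ring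
  rw [key]; positivity

private lemma UB3_p0_c1 (L v : ℝ) (hL0 : (23/10) ≤ L) (hL1 : L ≤ (27/10)) (hv0 : (37/20) ≤ v) (hv1 : v ≤ (27/10)) :
    0 ≤ (4 * (827/1000) - ((-(137/1000)) * (v - L / 3) + (2063801/2000000) / 3) * (2 + v)^2) := by
  have a0 : 0 ≤ L - (23/10) := by linarith
  have a1 : 0 ≤ (27/10) - L := by linarith
  have b0 : 0 ≤ v - (37/20) := by linarith
  have b1 : 0 ≤ (27/10) - v := by linarith
  have key : (4 * (827/1000) - ((-(137/1000)) * (v - L / 3) + (2063801/2000000) / 3) * (2 + v)^2)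
    = (982698371/589560000) * (((27/10) - L) * ((27/10) - v)^3) + (803797079/117912000) * (((27/10) - L) * (v - (37/20)) * ((27/10) - v)^2) + (102812317/9211875) * (((27/10) - L) * (v - (37/20))^2 * ((27/10) - v)) + (936406391/147390000) * (((27/10) - L) * (v - (37/20))^3) + (332879971/589560000) * ((L - (23/10)) * ((27/10) - v)^3) + (356519479/117912000) * ((L - (23/10)) * (v - (37/20)) * ((27/10) - v)^2) + (62890517/9211875) * ((L - (23/10)) * (v - (37/20))^2 * ((27/10) - v)) + (694299991/147390000) * ((L - (23/10)) * (v - (37/20))^3) := by ring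
  rw [key]; positivity

lemma UB3_p0 (L v : ℝ) (hL0 : (23/10) ≤ L) (hL1 : L ≤ (27/10)) (hv0 : 1 ≤ v) (hv1 : v ≤ (27/10)) :
    0 ≤ (4 * (827/1000) - ((-(137/1000)) * (v - L / 3) + (2063801/2000000) / 3) * (2 + v)^2) := by
  rcases le_total v (37/20) with h0 | h0
  · skip
    exact UB3_p0_c0 L v (by linarith) (by linarith) (by linarith) (by linarith)
  · skip
    exact UB3_p0_c1 L v (by linarith) (by linarith) (by linarith) (by linarith)

end AffInc.Cert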