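import Pool.Agent.Helper72.AI.Stmts2

set_option autoImplicit false
set_option linter.all false

/-! Bernstein certificate (generated). -/

namespace AffInc.Cert

-- piece UB4: L in [27/10, 29/10], C=13/20 w=1 m=-173/2000 R=30079/40000
private lemma UB4_p1_c0 (L v : ℝ) (hL0 : (27/10) ≤ L) (hL1 : L ≤ (14/5)) (hv0 : 0 ≤ v) (hv1 : v ≤ (1/4)) :
    0 ≤ ((4 * (13/20) - ((-(173/2000)) * (v - L / 3) + (30079/40000) / 3) * (2 + v)^2) * (L * (1 + L - v)) - 1 * ((L - v * (1 + L - v)) * (2 + v)^2)) := by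
  have a0 : 0 ≤ L - (27/10) := by linarith
  have a1 : 0 ≤ (14/5) - L := by linarith
  have b0 : 0 ≤ v := by linarith
  have b1 : 0 ≤ (1/4) - v := by linarith
  have key : ((4 * (13/20) - ((-(173/2000)) * (v - L / 3) + (30079/40000) / 3) * (2 + v)^2) * (L * (1 + L - v)) - 1 * ((L - v * (1 + L - v)) * (2 + v)^2))
    = (65497824/125) * (((14/5) - L)^3 * ((1/4) - v)^4) + (188849192/125) * (((14/5) - L)^3 * v * ((1/4) - v)^3) + (390674991/250) * (((14/5) - L)^3 * v^2 * ((1/4) - v)^2) + (345508659/500) * (((14/5) - L)^3 * v^3 * ((1/4) - v)) + (28473687/250) * (((14/5) - L)^3 * v^4) + (123805856/75) * ((L - (27/10)) * ((14/5) - L)^2 * ((1/4) - v)^4) + (14382920/3) * ((L - (27/10)) * ((14/5) - L)^2 * v * ((1/4) - v)^3) + (250383079/50) * ((L - (27/10)) * ((14/5) - L)^2 * v^2 * ((1/4) - v)^2) + (112111531/50) * ((L - (27/10)) * ((14/5) - L)^2 * v^3 * ((1/4) - v)) + (18721083/50) * ((L - (27/10)) * ((14/5) - L)^2 * v^4) + (649104064/375)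 * ((L - (27/10))^2 * ((14/5) - L) * ((1/4) - v)^4) + (1897809152/375) * ((L - (27/10))^2 * ((14/5) - L) * v * ((1/4) - v)^3) + (1999715743/375) * ((L - (27/10))^2 * ((14/5) - L) * v^2 * ((1/4) - v)^2) + (1206976383/500) * ((L - (27/10))^2 * ((14/5) - L) * v^3 * ((1/4) - v)) + (50942467/125) * ((L - (27/10))^2 * ((14/5) - L) * v^4) + (226557184/375) * ((L - (27/10))^3 * ((1/4) - v)^4) + (222148224/125) * ((L - (27/10))^3 * v * ((1/4) - v)^3) + (707780228/375) * ((L - (27/10))^3 * v^2 * ((1/4) - v)^2) + (107824787/125) * ((L - (27/10))^3 * v^3 * ((1/4) - v)) + (18371932/125) * ((L - (27/10))^3 * v^4) := by ring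
  rw [key]; positivity

private lemma UB4_p1_c1 (L v : ℝ) (hL0 : (27/10) ≤ L) (hL1 : L ≤ (14/5)) (hv0 : (1/4) ≤ v) (hv1 : v ≤ (1/2)) :
    0 ≤ ((4 * (13/20) - ((-(173/2000)) * (v - L / 3) + (30079/40000) / 3) * (2 + v)^2) * (L * (1 + L - v)) - 1 * ((L - v * (1 + L - v)) * (2 + v)^2)) := by
  have a0 : 0 ≤ L - (27/10) := by linarith
  have a1 : 0 ≤ (14/5) - L := by linarith
  have b0 : 0 ≤ v - (1/4) := by linarith
  have b1 : 0 ≤ (1/2) - v := by linarith
  have key : ((4 * (13/20) - ((-(173/2000)) * (v - L / 3) + (30079/40000) / 3) * (2 + v)^2) * (L * (1 + L - v)) - 1 * ((L - v * (1 + L - v)) * (2 + v)^2))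
    = (28473687/250) * (((14/5) - L)^3 * ((1/2) - v)^4) + (110070333/500) * (((14/5) - L)^3 * (v - (1/4)) * ((1/2) - v)^3) + (18758751/125) * (((14/5) - L)^3 * (v - (1/4))^2 * ((1/2) - v)^2) + (2310761/25) * (((14/5) - L)^3 * (v - (1/4))^3 * ((1/2) - v)) + (236864/5) * (((14/5) - L)^3 * (v - (1/4))^4) + (18721083/50) * ((L - (27/10)) * ((14/5) - L)^2 * ((1/2) - v)^4) + (37657133/50) * ((L - (27/10)) * ((14/5) - L)^2 * (v - (1/4)) * ((1/2) - v)^3) + (5403977/10) * ((L - (27/10)) * ((14/5) - L)^2 * (v - (1/4))^2 * ((1/2) - v)^2) + (933196/3) * ((L - (27/10)) * ((14/5) - L)^2 * (v - (1/4))^3 * ((1/2) - v)) + (437038/3) * ((L - (27/10)) * ((14/5) - L)^2 * (v - (1/4))^4) + (50942467/125) * ((L - (27/10))^2 * ((14/5) - L) * ((1/2) - v)^4) + (423182561/500) * ((L - (27/10))^2 * ((14/5) - L) * (v - (1/4)) * ((1/2) - v)^3) + (472359287/750) * ((L - (27/10))^2 * ((14/5) - L) * (v - (1/4))^2 * ((1/2) - v)^2) + (25748641/75) * ((L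 - (27/10))^2 * ((14/5) - L) * (v - (1/4))^3 * ((1/2) - v)) + (2229154/15) * ((L - (27/10))^2 * ((14/5) - L) * (v - (1/4))^4) + (18371932/125) * ((L - (27/10))^3 * ((1/2) - v)^4) + (39150669/125) * ((L - (27/10))^3 * (v - (1/4)) * ((1/2) - v)^3) + (89713166/375) * ((L - (27/10))^3 * (v - (1/4))^2 * ((1/2) - v)^2) + (9337876/75) * ((L - (27/10))^3 * (v - (1/4))^3 * ((1/2) - v)) + (251288/5) * ((L - (27/10))^3 * (v - (1/4))^4) := by ring
  rw [key]; positivity

private lemma UB4_p1_c2 (L v : ℝ) (hL0 : (14/5) ≤ L) (hL1 : L ≤ (29/10)) (hv0 : 0 ≤ v) (hv1 : v ≤ (1/2)) :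
    0 ≤ ((4 * (13/20) - ((-(173/2000)) * (v - L / 3) + (30079/40000) / 3) * (2 + v)^2) * (L * (1 + L - v)) - 1 * ((L - v * (1 + L - v)) * (2 + v)^2)) := by
  have a0 : 0 ≤ L - (14/5) := by linarith
  have a1 : 0 ≤ (29/10) - L := by linarith
  have b0 : 0 ≤ v := by linarith
  have b1 : 0 ≤ (1/2) - v := by linarith
  have key : ((4 * (13/20) - ((-(173/2000)) * (v - L / 3) + (30079/40000) / 3) * (2 + v)^2) * (L * (1 + L - v)) - 1 * ((L - v * (1 + L - v)) * (2 + v)^2))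
    = (14159824/375) * (((29/10) - L)^3 * ((1/2) - v)^4) + (26666288/375) * (((29/10) - L)^3 * v * ((1/2) - v)^3) + (11987249/375) * (((29/10) - L)^3 * v^2 * ((1/2) - v)^2) + (449809/150) * (((29/10) - L)^3 * v^3 * ((1/2) - v)) + (31411/10) * (((29/10) - L)^3 * v^4) + (8877988/75) * ((L - (14/5)) * ((29/10) - L)^2 * ((1/2) - v)^4) + (1133968/5) * ((L - (14/5)) * ((29/10) - L)^2 * v * ((1/2) - v)^3) + (32207173/300) * ((L - (14/5)) * ((29/10) - L)^2 * v^2 * ((1/2) - v)^2) + (489221/40) * ((L - (14/5)) * ((29/10) - L)^2 * v^3 * ((1/2) - v)) + (229403/24) * ((L - (14/5)) * ((29/10) - L)^2 * v^4) + (15443734/125) * ((L - (14/5))^2 * ((29/10) - L) * ((1/2) - v)^4) + (90170749/375) * ((L - (14/5))^2 * ((29/10) - L) * v * ((1/2) - v)^3) + (356750041/3000) * ((L - (14/5))^2 * ((29/10) - L) * v^2 * ((1/2) - v)^2) + (2310107/150) * ((L - (14/5))^2 * ((29/10) - L) * v^3 * ((1/2) - v)) + (1157471/120) * ((L - (14/5))^2 * ((29/10)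 - L) * v^4) + (5366798/125) * ((L - (14/5))^3 * ((1/2) - v)^4) + (10595441/125) * ((L - (14/5))^3 * v * ((1/2) - v)^3) + (43511479/1000) * ((L - (14/5))^3 * v^2 * ((1/2) - v)^2) + (1231707/200) * ((L - (14/5))^3 * v^3 * ((1/2) - v)) + (64507/20) * ((L - (14/5))^3 * v^4) := by ring
  rw [key]; positivity

private lemma UB4_p1_c3 (L v : ℝ) (hL0 : (27/10) ≤ L) (hL1 : L ≤ (29/10)) (hv0 : (1/2) ≤ v) (hv1 : v ≤ 1) :
    0 ≤ ((4 * (13/20) - ((-(173/2000)) * (v - L / 3) + (30079/40000) / 3) * (2 + v)^2) * (L * (1 + L - v)) - 1 * ((L - v * (1 + L - v)) * (2 + v)^2)) := by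
  have a0 : 0 ≤ L - (27/10) := by linarith
  have a1 : 0 ≤ (29/10) - L := by linarith
  have b0 : 0 ≤ v - (1/2) := by linarith
  have b1 : 0 ≤ 1 - v := by linarith
  have key : ((4 * (13/20) - ((-(173/2000)) * (v - L / 3) + (30079/40000) / 3) * (2 + v)^2) * (L * (1 + L - v)) - 1 * ((L - v * (1 + L - v)) * (2 + v)^2))
    = (3701/10) * (((29/10) - L)^3 * (1 - v)^4) + (4795159/1600) * (((29/10) - L)^3 * (v - (1/2)) * (1 - v)^3) + (93416457/8000) * (((29/10) - L)^3 * (v - (1/2))^2 * (1 - v)^2) + (15356043/1000) * (((29/10) - L)^3 * (v - (1/2))^3 * (1 - v)) + (12303333/2000) * (((29/10) - L)^3 * (v - (1/2))^4) + (559651/480) * ((L - (27/10)) * ((29/10) - L)^2 * (1 - v)^4) + (41295169/4800) * ((L - (27/10)) * ((29/10) - L)^2 * (v - (1/2)) * (1 - v)^3) + (273387979/8000) * ((L - (27/10)) * ((29/10) - L)^2 * (v - (1/2))^2 * (1 - v)^2) + (11452669/250) * ((L - (27/10)) * ((29/10) - L)^2 * (v - (1/2))^3 * (1 - v)) + (37219311/2000)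 * ((L - (27/10)) * ((29/10) - L)^2 * (v - (1/2))^4) + (144227/120) * ((L - (27/10))^2 * ((29/10) - L) * (1 - v)^4) + (12919049/1600) * ((L - (27/10))^2 * ((29/10) - L) * (v - (1/2)) * (1 - v)^3) + (792321581/24000) * ((L - (27/10))^2 * ((29/10) - L) * (v - (1/2))^2 * (1 - v)^2) + (45293753/1000) * ((L - (27/10))^2 * ((29/10) - L) * (v - (1/2))^3 * (1 - v)) + (37371923/2000) * ((L - (27/10))^2 * ((29/10) - L) * (v - (1/2))^4) + (64507/160) * ((L - (27/10))^3 * (1 - v)^4) + (3928853/1600) * ((L - (27/10))^3 * (v - (1/2)) * (1 - v)^3) + (83968669/8000) * ((L - (27/10))^3 * (v - (1/2))^2 * (1 - v)^2) + (1852987/125) * ((L - (27/10))^3 * (v - (1/2))^3 * (1 - v)) + (12447641/2000) * ((L - (27/10))^3 * (v - (1/2))^4) := by ring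
  rw [key]; positivity

lemma UB4_p1 (L v : ℝ) (hL0 : (27/10) ≤ L) (hL1 : L ≤ (29/10)) (hv0 : 0 ≤ v) (hv1 : v ≤ 1) :
    0 ≤ ((4 * (13/20) - ((-(173/2000)) * (v - L / 3) + (30079/40000) / 3) * (2 + v)^2) * (L * (1 + L - v)) - 1 * ((L - v * (1 + L - v)) * (2 + v)^2)) := by
  rcases le_total v (1/2) with h0 | h0
  · skip
    rcases le_total L (14/5) with h1 | h1
    · skip
      rcases le_total v (1/4) with h2 | h2
      · skip
        exact UB4_p1_c0 L v (by linarith) (by linarith) (by linarith) (by linarith)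
      · skip
        exact UB4_p1_c1 L v (by linarith) (by linarith) (by linarith) (by linarith)
    · skip
      exact UB4_p1_c2 L v (by linarith) (by linarith) (by linarith) (by linarith)
  · skip
    exact UB4_p1_c3 L v (by linarith) (by linarith) (by linarith) (by linarith)

private lemma UB4_p0_c0 (L v : ℝ) (hL0 : (27/10) ≤ L) (hL1 : L ≤ (29/10)) (hv0 : 1 ≤ v) (hv1 : v ≤ (39/20)) :
    0 ≤ (4 * (13/20) - ((-(173/2000)) * (v - L / 3) + (30079/40000) / 3) * (2 + v)^2) := by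
  have a0 : 0 ≤ L - (27/10) := by linarith
  have a1 : 0 ≤ (29/10) - L := by linarith
  have b0 : 0 ≤ v - 1 := by linarith
  have b1 : 0 ≤ (39/20) - v := by linarith
  have key : (4 * (13/20) - ((-(173/2000)) * (v - L / 3) + (30079/40000) / 3) * (2 + v)^2)
    = (16877/6859) * (((29/10) - L) * ((39/20) - v)^3) + (250361/68590) * (((29/10) - L) * (v - 1) * ((39/20) - v)^2) + (11328719/8230800) * (((29/10) - L) * (v - 1)^2 * ((39/20) - v)) + (254881/411540) * (((29/10) - L) * (v - 1)^3) + (41/19) * ((L - (27/10)) * ((39/20) - v)^3) + (9207/3610) * ((L - (27/10)) * (v - 1) * ((39/20) - v)^2) + (7891/144400) * ((L - (27/10)) * (v - 1)^2 * ((39/20) - v)) + (854/9025) * ((L - (27/10)) * (v - 1)^3) := by ring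
  rw [key]; positivity

private lemma UB4_p0_c1 (L v : ℝ) (hL0 : (27/10) ≤ L) (hL1 : L ≤ (29/10)) (hv0 : (39/20) ≤ v) (hv1 : v ≤ (29/10)) :
    0 ≤ (4 * (13/20) - ((-(173/2000)) * (v - L / 3) + (30079/40000) / 3) * (2 + v)^2) := by
  have a0 : 0 ≤ L - (27/10) := by linarith
  have a1 : 0 ≤ (29/10) - L := by linarith
  have b0 : 0 ≤ v - (39/20) := by linarith
  have b1 : 0 ≤ (29/10) - v := by linarith
  have key : (4 * (13/20) - ((-(173/2000)) * (v - L / 3) + (30079/40000) / 3) * (2 + v)^2)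
    = (254881/411540) * (((29/10) - L) * ((29/10) - v)^3) + (19257001/8230800) * (((29/10) - L) * (v - (39/20)) * ((29/10) - v)^2) + (11474971/2057700) * (((29/10) - L) * (v - (39/20))^2 * ((29/10) - v)) + (8825081/2057700) * (((29/10) - L) * (v - (39/20))^3) + (854/9025) * ((L - (27/10)) * ((29/10) - v)^3) + (74093/144400) * ((L - (27/10)) * (v - (39/20)) * ((29/10) - v)^2) + (125171/36100) * ((L - (27/10)) * (v - (39/20))^2 * ((29/10) - v)) + (125677/36100) * ((L - (27/10)) * (v - (39/20))^3) := by ring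
  rw [key]; positivity

lemma UB4_p0 (L v : ℝ) (hL0 : (27/10) ≤ L) (hL1 : L ≤ (29/10)) (hv0 : 1 ≤ v) (hv1 : v ≤ (29/10)) :
    0 ≤ (4 * (13/20) - ((-(173/2000)) * (v - L / 3) + (30079/40000) / 3) * (2 + v)^2) := by
  rcases le_total v (39/20) with h0 | h0
  · skip
    exact UB4_p0_c0 L v (by linarith) (by linarith) (by linarith) (by linarith)
  · skip
    exact UB4_p0_c1 L v (by linarith) (by linarith) (by linarith) (by linarith)

end AffInc.Cert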