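import Pool.Agent.Helper72.AI.Stmts2

set_option autoImplicit false
set_option linter.all false

/-! Bernstein certificate (generated). -/

namespace AffInc.Cert

-- piece UB5: L in [29/10, 61/20], C=3/5 w=1 m=-153/2000 R=6729/10000
private lemma UB5_p1_c0 (L v : ℝ) (hL0 : (29/10) ≤ L) (hL1 : L ≤ (119/40)) (hv0 : 0 ≤ v) (hv1 : v ≤ (1/4)) :
    0 ≤ ((4 * (3/5) - ((-(153/2000)) * (v - L / 3) + (6729/10000) / 3) * (2 + v)^2) * (L * (1 + L - v)) - 1 * ((L - v * (1 + L - v)) * (2 + v)^2)) := by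
  have a0 : 0 ≤ L - (29/10) := by linarith
  have a1 : 0 ≤ (119/40) - L := by linarith
  have b0 : 0 ≤ v := by linarith
  have b1 : 0 ≤ (1/4) - v := by linarith
  have key : ((4 * (3/5) - ((-(153/2000)) * (v - L / 3) + (6729/10000) / 3) * (2 + v)^2) * (L * (1 + L - v)) - 1 * ((L - v * (1 + L - v)) * (2 + v)^2))
    = (840159232/675) * (((119/40) - L)^3 * ((1/4) - v)^4) + (158968832/45) * (((119/40) - L)^3 * v * ((1/4) - v)^3) + (2403456832/675) * (((119/40) - L)^3 * v^2 * ((1/4) - v)^2) + (113189632/75) * (((119/40) - L)^3 * v^3 * ((1/4) - v)) + (52556048/225) * (((119/40) - L)^3 * v^4) + (4357159936/1125) * ((L - (29/10)) * ((119/40) - L)^2 * ((1/4) - v)^4) + (12444483328/1125) * ((L - (29/10)) * ((119/40) - L)^2 * v * ((1/4) - v)^3) + (12657194992/1125) * ((L - (29/10)) * ((119/40) - L)^2 * v^2 * ((1/4) - v)^2) + (1811538848/375) * ((L - (29/10)) * ((119/40) - L)^2 * v^3 * ((1/4) - v)) + (284984948/375) * ((L - (29/10)) * ((119/40) - L)^2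 * v^4) + (1505165056/375) * ((L - (29/10))^2 * ((119/40) - L) * ((1/4) - v)^4) + (12972770624/1125) * ((L - (29/10))^2 * ((119/40) - L) * v * ((1/4) - v)^3) + (4434886972/375) * ((L - (29/10))^2 * ((119/40) - L) * v^2 * ((1/4) - v)^2) + (1926434224/375) * ((L - (29/10))^2 * ((119/40) - L) * v^3 * ((1/4) - v)) + (102456868/125) * ((L - (29/10))^2 * ((119/40) - L) * v^4) + (4675713728/3375) * ((L - (29/10))^3 * ((1/4) - v)^4) + (1500794416/375) * ((L - (29/10))^3 * v * ((1/4) - v)^3) + (13959085691/3375) * ((L - (29/10))^3 * v^2 * ((1/4) - v)^2) + (680796718/375) * ((L - (29/10))^3 * v^3 * ((1/4) - v)) + (329900029/1125) * ((L - (29/10))^3 * v^4) := by ring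
  rw [key]; positivity

private lemma UB5_p1_c1 (L v : ℝ) (hL0 : (29/10) ≤ L) (hL1 : L ≤ (119/40)) (hv0 : (1/4) ≤ v) (hv1 : v ≤ (1/2)) :
    0 ≤ ((4 * (3/5) - ((-(153/2000)) * (v - L / 3) + (6729/10000) / 3) * (2 + v)^2) * (L * (1 + L - v)) - 1 * ((L - v * (1 + L - v)) * (2 + v)^2)) := by
  have a0 : 0 ≤ L - (29/10) := by linarith
  have a1 : 0 ≤ (119/40) - L := by linarith
  have b0 : 0 ≤ v - (1/4) := by linarith
  have b1 : 0 ≤ (1/2) - v := by linarith
  have key : ((4 * (3/5) - ((-(153/2000)) * (v - L / 3) + (6729/10000) / 3) * (2 + v)^2) * (L * (1 + L - v)) - 1 * ((L - v * (1 + L - v)) * (2 + v)^2))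
    = (52556048/225) * (((119/40) - L)^3 * ((1/2) - v)^4) + (80879488/225) * (((119/40) - L)^3 * (v - (1/4)) * ((1/2) - v)^3) + (15050432/135) * (((119/40) - L)^3 * (v - (1/4))^2 * ((1/2) - v)^2) + (2007808/27) * (((119/40) - L)^3 * (v - (1/4))^3 * ((1/2) - v)) + (2318336/27) * (((119/40) - L)^3 * (v - (1/4))^4) + (284984948/375) * ((L - (29/10)) * ((119/40) - L)^2 * ((1/2) - v)^4) + (468340736/375) * ((L - (29/10)) * ((119/40) - L)^2 * (v - (1/4)) * ((1/2) - v)^3) + (568411984/1125) * ((L - (29/10)) * ((119/40) - L)^2 * (v - (1/4))^2 * ((1/2) - v)^2) + (7276736/25) * ((L - (29/10)) * ((119/40) - L)^2 * (v - (1/4))^3 * ((1/2) - v)) + (1330304/5) * ((L - (29/10)) * ((119/40) - L)^2 * (v - (1/4))^4) + (102456868/125) * ((L - (29/10))^2 * ((119/40) - L) * ((1/2) - v)^4) + (532530608/375) * ((L - (29/10))^2 * ((119/40) - L) * (v - (1/4)) * ((1/2) - v)^3) + (253176124/375) * ((L - (29/10))^2 * ((119/40) - L) * (v - (1/4))^2 * ((1/2) - v)^2) +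 (80363792/225) * ((L - (29/10))^2 * ((119/40) - L) * (v - (1/4))^3 * ((1/2) - v)) + (12318608/45) * ((L - (29/10))^2 * ((119/40) - L) * (v - (1/4))^4) + (329900029/1125) * ((L - (29/10))^3 * ((1/2) - v)^4) + (596810078/1125) * ((L - (29/10))^3 * (v - (1/4)) * ((1/2) - v)^3) + (948865007/3375) * ((L - (29/10))^3 * (v - (1/4))^2 * ((1/2) - v)^2) + (94710052/675) * ((L - (29/10))^3 * (v - (1/4))^3 * ((1/2) - v)) + (12623788/135) * ((L - (29/10))^3 * (v - (1/4))^4) := by ring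
  rw [key]; positivity

private lemma UB5_p1_c2 (L v : ℝ) (hL0 : (119/40) ≤ L) (hL1 : L ≤ (61/20)) (hv0 : 0 ≤ v) (hv1 : v ≤ (1/4)) :
    0 ≤ ((4 * (3/5) - ((-(153/2000)) * (v - L / 3) + (6729/10000) / 3) * (2 + v)^2) * (L * (1 + L - v)) - 1 * ((L - v * (1 + L - v)) * (2 + v)^2)) := by
  have a0 : 0 ≤ L - (119/40) := by linarith
  have a1 : 0 ≤ (61/20) - L := by linarith
  have b0 : 0 ≤ v := by linarith
  have b1 : 0 ≤ (1/4) - v := by linarith
  have key : ((4 * (3/5) - ((-(153/2000)) * (v - L / 3) + (6729/10000) / 3) * (2 + v)^2) * (L * (1 + L - v)) - 1 * ((L - v * (1 + L - v)) * (2 + v)^2))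
    = (4675713728/3375) * (((61/20) - L)^3 * ((1/4) - v)^4) + (1500794416/375) * (((61/20) - L)^3 * v * ((1/4) - v)^3) + (13959085691/3375) * (((61/20) - L)^3 * v^2 * ((1/4) - v)^2) + (680796718/375) * (((61/20) - L)^3 * v^3 * ((1/4) - v)) + (329900029/1125) * (((61/20) - L)^3 * v^4) + (4835932288/1125) * ((L - (119/40)) * ((61/20) - L)^2 * ((1/4) - v)^4) + (14041528864/1125) * ((L - (119/40)) * ((61/20) - L)^2 * v * ((1/4) - v)^3) + (14613510466/1125) * ((L - (119/40)) * ((61/20) - L)^2 * v^2 * ((1/4) - v)^2) + (2158346084/375) * ((L - (119/40)) * ((61/20) - L)^2 * v^3 * ((1/4) - v)) + (352429454/375) * ((L - (119/40)) * ((61/20) - L)^2 * v^4) + (1666011392/375) * ((L - (119/40))^2 * ((61/20) - L) * ((1/4) - v)^4) + (14581999808/1125) * ((L - (119/40))^2 * ((61/20) - L) * v * ((1/4) - v)^3) + (5091631364/375) * ((L - (119/40))^2 * ((61/20) - L) * v^2 * ((1/4) - v)^2) + (2275362568/375) * ((L - (119/40))^2 * ((61/20) - L) * v^3 * ((1/4)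 - v)) + (125034216/125) * ((L - (119/40))^2 * ((61/20) - L) * v^4) + (5161931264/3375) * ((L - (119/40))^3 * ((1/4) - v)^4) + (5042729344/1125) * ((L - (119/40))^3 * v * ((1/4) - v)^3) + (15942640328/3375) * ((L - (119/40))^3 * v^2 * ((1/4) - v)^2) + (265922128/125) * ((L - (119/40))^3 * v^3 * ((1/4) - v)) + (397882432/1125) * ((L - (119/40))^3 * v^4) := by ring
  rw [key]; positivity

private lemma UB5_p1_c3 (L v : ℝ) (hL0 : (119/40) ≤ L) (hL1 : L ≤ (61/20)) (hv0 : (1/4) ≤ v) (hv1 : v ≤ (1/2)) :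
    0 ≤ ((4 * (3/5) - ((-(153/2000)) * (v - L / 3) + (6729/10000) / 3) * (2 + v)^2) * (L * (1 + L - v)) - 1 * ((L - v * (1 + L - v)) * (2 + v)^2)) := by
  have a0 : 0 ≤ L - (119/40) := by linarith
  have a1 : 0 ≤ (61/20) - L := by linarith
  have b0 : 0 ≤ v - (1/4) := by linarith
  have b1 : 0 ≤ (1/2) - v := by linarith
  have key : ((4 * (3/5) - ((-(153/2000)) * (v - L / 3) + (6729/10000) / 3) * (2 + v)^2) * (L * (1 + L - v)) - 1 * ((L - v * (1 + L - v)) * (2 + v)^2))
    = (329900029/1125) * (((61/20) - L)^3 * ((1/2) - v)^4) + (596810078/1125) * (((61/20) - L)^3 * (v - (1/4)) * ((1/2) - v)^3) + (948865007/3375) * (((61/20) - L)^3 * (v - (1/4))^2 * ((1/2) - v)^2) + (94710052/675) * (((61/20) - L)^3 * (v - (1/4))^3 * ((1/2) - v)) + (12623788/135) * (((61/20) - L)^3 * (v - (1/4))^4) + (352429454/375) * ((L - (119/40)) * ((61/20) - L)^2 * ((1/2) - v)^4) + (661089548/375) * ((L - (119/40)) * ((61/20) - L)^2 * (v - (1/4)) * ((1/2) - v)^3) +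 (1138201642/1125) * ((L - (119/40)) * ((61/20) - L)^2 * (v - (1/4))^2 * ((1/2) - v)^2) + (12117368/25) * ((L - (119/40)) * ((61/20) - L)^2 * (v - (1/4))^3 * ((1/2) - v)) + (1436552/5) * ((L - (119/40)) * ((61/20) - L)^2 * (v - (1/4))^4) + (125034216/125) * ((L - (119/40))^2 * ((61/20) - L) * ((1/2) - v)^4) + (725458616/375) * ((L - (119/40))^2 * ((61/20) - L) * (v - (1/4)) * ((1/2) - v)^3) + (441919508/375) * ((L - (119/40))^2 * ((61/20) - L) * (v - (1/4))^2 * ((1/2) - v)^2) + (122875664/225) * ((L - (119/40))^2 * ((61/20) - L) * (v - (1/4))^3 * ((1/2) - v)) + (13193456/45) * ((L - (119/40))^2 * ((61/20) - L) * (v - (1/4))^4) + (397882432/1125) * ((L - (119/40))^3 * ((1/2) - v)^4) + (789760304/1125) * ((L - (119/40))^3 * (v - (1/4)) * ((1/2) - v)^3) + (1510790696/3375) * ((L - (119/40))^3 * (v - (1/4))^2 * ((1/2) - v)^2) + (136063456/675) * ((L - (119/40))^3 * (v - (1/4))^3 * ((1/2) - v)) + (13411744/135) * ((L - (119/40))^3 * (v - (1/4))^4)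 := by ring
  rw [key]; positivity

private lemma UB5_p1_c4 (L v : ℝ) (hL0 : (29/10) ≤ L) (hL1 : L ≤ (61/20)) (hv0 : (1/2) ≤ v) (hv1 : v ≤ 1) :
    0 ≤ ((4 * (3/5) - ((-(153/2000)) * (v - L / 3) + (6729/10000) / 3) * (2 + v)^2) * (L * (1 + L - v)) - 1 * ((L - v * (1 + L - v)) * (2 + v)^2)) := by
  have a0 : 0 ≤ L - (29/10) := by linarith
  have a1 : 0 ≤ (61/20) - L := by linarith
  have b0 : 0 ≤ v - (1/2) := by linarith
  have b1 : 0 ≤ 1 - v := by linarith
  have key : ((4 * (3/5) - ((-(153/2000)) * (v - L / 3) + (6729/10000) / 3) * (2 + v)^2) * (L * (1 + L - v)) - 1 * ((L - v * (1 + L - v)) * (2 + v)^2))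
    = (18112/27) * (((61/20) - L)^3 * (1 - v)^4) + (185972/27) * (((61/20) - L)^3 * (v - (1/2)) * (1 - v)^3) + (3948826/135) * (((61/20) - L)^3 * (v - (1/2))^2 * (1 - v)^2) + (2963464/75) * (((61/20) - L)^3 * (v - (1/2))^3 * (1 - v)) + (3626392/225) * (((61/20) - L)^3 * (v - (1/2))^4) + (96514/45) * ((L - (29/10)) * ((61/20) - L)^2 * (1 - v)^4) + (4528558/225) * ((L - (29/10)) * ((61/20) - L)^2 * (v - (1/2)) * (1 - v)^3) + (32419603/375) * ((L - (29/10)) * ((61/20) - L)^2 * (v - (1/2))^2 * (1 - v)^2) + (44327356/375) * ((L - (29/10)) * ((61/20) - L)^2 * (v - (1/2))^3 * (1 - v)) + (6080836/125) * ((L - (29/10)) * ((61/20) - L)^2 * (v - (1/2))^4) + (67579/30) * ((L - (29/10))^2 * ((61/20) - L) * (1 - v)^4) + (1456079/75) * ((L - (29/10))^2 * ((61/20) - L) * (v - (1/2)) * (1 - v)^3) + (190741777/2250) * ((L - (29/10))^2 * ((61/20) - L) * (v - (1/2))^2 * (1 - v)^2) + (44080454/375) * ((L - (29/10))^2 * ((61/20) - L) * (v - (1/2))^3 * (1 - v))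 + (18315982/375) * ((L - (29/10))^2 * ((61/20) - L) * (v - (1/2))^4) + (419117/540) * ((L - (29/10))^3 * (1 - v)^4) + (8321527/1350) * ((L - (29/10))^3 * (v - (1/2)) * (1 - v)^3) + (371978317/13500) * ((L - (29/10))^3 * (v - (1/2))^2 * (1 - v)^2) + (4855123/125) * ((L - (29/10))^3 * (v - (1/2))^3 * (1 - v)) + (18348251/1125) * ((L - (29/10))^3 * (v - (1/2))^4) := by ring
  rw [key]; positivity

lemma UB5_p1 (L v : ℝ) (hL0 : (29/10) ≤ L) (hL1 : L ≤ (61/20)) (hv0 : 0 ≤ v) (hv1 : v ≤ 1) :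
    0 ≤ ((4 * (3/5) - ((-(153/2000)) * (v - L / 3) + (6729/10000) / 3) * (2 + v)^2) * (L * (1 + L - v)) - 1 * ((L - v * (1 + L - v)) * (2 + v)^2)) := by
  rcases le_total v (1/2) with h0 | h0
  · skip
    rcases le_total L (119/40) with h1 | h1
    · skip
      rcases le_total v (1/4) with h2 | h2
      · skip
        exact UB5_p1_c0 L v (by linarith) (by linarith) (by linarith) (by linarith)
      · skip
        exact UB5_p1_c1 L v (by linarith) (by linarith) (by linarith) (by linarith)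
    · skip
      rcases le_total v (1/4) with h2 | h2
      · skip
        exact UB5_p1_c2 L v (by linarith) (by linarith) (by linarith) (by linarith)
      · skip
        exact UB5_p1_c3 L v (by linarith) (by linarith) (by linarith) (by linarith)
  · skip
    exact UB5_p1_c4 L v (by linarith) (by linarith) (by linarith) (by linarith)

private lemma UB5_p0_c0 (L v : ℝ) (hL0 : (29/10) ≤ L) (hL1 : L ≤ (119/40)) (hv0 : 1 ≤ v) (hv1 : v ≤ (81/40)) :
    0 ≤ (4 * (3/5) - ((-(153/2000)) * (v - L / 3) + (6729/10000) / 3) * (2 + v)^2) := by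
  have a0 : 0 ≤ L - (29/10) := by linarith
  have a1 : 0 ≤ (119/40) - L := by linarith
  have b0 : 0 ≤ v - 1 := by linarith
  have b1 : 0 ≤ (81/40) - v := by linarith
  have key : (4 * (3/5) - ((-(153/2000)) * (v - L / 3) + (6729/10000) / 3) * (2 + v)^2)
    = (344960/68921) * (((119/40) - L) * ((81/40) - v)^3) + (473344/68921) * (((119/40) - L) * (v - 1) * ((81/40) - v)^2) + (1867658/1033815) * (((119/40) - L) * (v - 1)^2 * ((81/40) - v)) + (9963893/10338150) * (((119/40) - L) * (v - 1)^3) + (330272/68921) * ((L - (29/10)) * ((81/40) - v)^3) + (2096216/344605) * ((L - (29/10)) * (v - 1) * ((81/40) - v)^2) + (8798747/10338150) * ((L - (29/10)) * (v - 1)^2 * ((81/40) - v)) + (599798/1033815) * ((L - (29/10)) * (v - 1)^3) := by ring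
  rw [key]; positivity

private lemma UB5_p0_c1 (L v : ℝ) (hL0 : (119/40) ≤ L) (hL1 : L ≤ (61/20)) (hv0 : 1 ≤ v) (hv1 : v ≤ (121/80)) :
    0 ≤ (4 * (3/5) - ((-(153/2000)) * (v - L / 3) + (6729/10000) / 3) * (2 + v)^2) := by
  have a0 : 0 ≤ L - (119/40) := by linarith
  have a1 : 0 ≤ (61/20) - L := by linarith
  have b0 : 0 ≤ v - 1 := by linarith
  have b1 : 0 ≤ (121/80) - v := by linarith
  have key : (4 * (3/5) - ((-(153/2000)) * (v - L / 3) + (6729/10000) / 3) * (2 + v)^2)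
    = (2642176/68921) * (((61/20) - L) * ((121/80) - v)^3) + (28201184/344605) * (((61/20) - L) * (v - 1) * ((121/80) - v)^2) + (283194107/5169075) * (((61/20) - L) * (v - 1)^2 * ((121/80) - v)) + (127224007/10338150) * (((61/20) - L) * (v - 1)^3) + (2524672/68921) * ((L - (119/40)) * ((121/80) - v)^3) + (26237888/344605) * ((L - (119/40)) * (v - 1) * ((121/80) - v)^2) + (250476434/5169075) * ((L - (119/40)) * (v - 1)^2 * ((121/80) - v)) + (103061941/10338150) * ((L - (119/40)) * (v - 1)^3) := by ring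
  rw [key]; positivity

private lemma UB5_p0_c2 (L v : ℝ) (hL0 : (119/40) ≤ L) (hL1 : L ≤ (61/20)) (hv0 : (121/80) ≤ v) (hv1 : v ≤ (81/40)) :
    0 ≤ (4 * (3/5) - ((-(153/2000)) * (v - L / 3) + (6729/10000) / 3) * (2 + v)^2) := by
  have a0 : 0 ≤ L - (119/40) := by linarith
  have a1 : 0 ≤ (61/20) - L := by linarith
  have b0 : 0 ≤ v - (121/80) := by linarith
  have b1 : 0 ≤ (81/40) - v := by linarith
  have key : (4 * (3/5) - ((-(153/2000)) * (v - L / 3) + (6729/10000) / 3) * (2 + v)^2)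
    = (127224007/10338150) * (((61/20) - L) * ((81/40) - v)^3) + (98477914/5169075) * (((61/20) - L) * (v - (121/80)) * ((81/40) - v)^2) + (53585374/5169075) * (((61/20) - L) * (v - (121/80))^2 * ((81/40) - v)) + (4798384/1033815) * (((61/20) - L) * (v - (121/80))^3) + (103061941/10338150) * ((L - (119/40)) * ((81/40) - v)^3) + (58709389/5169075) * ((L - (119/40)) * (v - (121/80)) * ((81/40) - v)^2) + (2006846/1033815) * ((L - (119/40)) * (v - (121/80))^2 * ((81/40) - v)) + (8128268/5169075) * ((L - (119/40)) * (v - (121/80))^3) := by ring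
  rw [key]; positivity

private lemma UB5_p0_c3 (L v : ℝ) (hL0 : (29/10) ≤ L) (hL1 : L ≤ (61/20)) (hv0 : (81/40) ≤ v) (hv1 : v ≤ (61/20)) :
    0 ≤ (4 * (3/5) - ((-(153/2000)) * (v - L / 3) + (6729/10000) / 3) * (2 + v)^2) := by
  have a0 : 0 ≤ L - (29/10) := by linarith
  have a1 : 0 ≤ (61/20) - L := by linarith
  have b0 : 0 ≤ v - (81/40) := by linarith
  have b1 : 0 ≤ (61/20) - v := by linarith
  have key : (4 * (3/5) - ((-(153/2000)) * (v - L / 3) + (6729/10000) / 3) * (2 + v)^2)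
    = (9963893/20676300) * (((61/20) - L) * ((61/20) - v)^3) + (20553389/10338150) * (((61/20) - L) * (v - (81/40)) * ((61/20) - v)^2) + (28965499/5169075) * (((61/20) - L) * (v - (81/40))^2 * ((61/20) - v)) + (23816006/5169075) * (((61/20) - L) * (v - (81/40))^3) + (2032067/20676300) * ((L - (29/10)) * ((61/20) - v)^3) + (3317872/5169075) * ((L - (29/10)) * (v - (81/40)) * ((61/20) - v)^2) + (20868127/5169075) * ((L - (29/10)) * (v - (81/40))^2 * ((61/20) - v)) + (827780/206763) * ((L - (29/10)) * (v - (81/40))^3) := by ring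
  rw [key]; positivity

lemma UB5_p0 (L v : ℝ) (hL0 : (29/10) ≤ L) (hL1 : L ≤ (61/20)) (hv0 : 1 ≤ v) (hv1 : v ≤ (61/20)) :
    0 ≤ (4 * (3/5) - ((-(153/2000)) * (v - L / 3) + (6729/10000) / 3) * (2 + v)^2) := by
  rcases le_total v (81/40) with h0 | h0
  · skip
    rcases le_total L (119/40) with h1 | h1
    · skip
      exact UB5_p0_c0 L v (by linarith) (by linarith) (by linarith) (by linarith)
    · skip
      rcases le_total v (121/80) with h2 | h2
      · skip
        exact UB5_p0_c1 L v (by linarith) (by linarith) (by linarith) (by linarith)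
      · skip
        exact UB5_p0_c2 L v (by linarith) (by linarith) (by linarith) (by linarith)
  · skip
    exact UB5_p0_c3 L v (by linarith) (by linarith) (by linarith) (by linarith)

end AffInc.Cert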