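import Pool.Agent.Helper72.AI.Stmts2

set_option autoImplicit false
set_option linter.all false

/-! Bernstein certificate (generated). -/

namespace AffInc.Cert

-- piece UB6: L in [61/20, 63/20], C=11/20 w=1 m=-129/2000 R=23753/40000
private lemma UB6_p1_c0 (L v : ℝ) (hL0 : (61/20) ≤ L) (hL1 : L ≤ (31/10)) (hv0 : 0 ≤ v) (hv1 : v ≤ (1/4)) :
    0 ≤ ((4 * (11/20) - ((-(129/2000)) * (v - L / 3) + (23753/40000) / 3) * (2 + v)^2) * (L * (1 + L - v)) - 1 * ((L - v * (1 + L - v)) * (2 + v)^2)) := by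
  have a0 : 0 ≤ L - (61/20) := by linarith
  have a1 : 0 ≤ (31/10) - L := by linarith
  have b0 : 0 ≤ v := by linarith
  have b1 : 0 ≤ (1/4) - v := by linarith
  have key : ((4 * (11/20) - ((-(129/2000)) * (v - L / 3) + (23753/40000) / 3) * (2 + v)^2) * (L * (1 + L - v)) - 1 * ((L - v * (1 + L - v)) * (2 + v)^2))
    = (500516224/125) * (((31/10) - L)^3 * ((1/4) - v)^4) + (4215120736/375) * (((31/10) - L)^3 * v * ((1/4) - v)^3) + (4188543394/375) * (((31/10) - L)^3 * v^2 * ((1/4) - v)^2) + (582760671/125) * (((31/10) - L)^3 * v^3 * ((1/4) - v)) + (89906836/125) * (((31/10) - L)^3 * v^4) + (4622680384/375) * ((L - (61/20)) * ((31/10) - L)^2 * ((1/4) - v)^4) + (4348186224/125) * ((L - (61/20)) * ((31/10) - L)^2 * v * ((1/4) - v)^3) + (13064022053/375) * ((L - (61/20)) * ((31/10) - L)^2 * v^2 * ((1/4) - v)^2) + (1839031762/125) * ((L - (61/20)) * ((31/10) - L)^2 * v^3 * ((1/4) - v)) + (288057107/125) * ((L - (61/20)) * ((31/10) -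 L)^2 * v^4) + (1580580864/125) * ((L - (61/20))^2 * ((31/10) - L) * ((1/4) - v)^4) + (13447232576/375) * ((L - (61/20))^2 * ((31/10) - L) * v * ((1/4) - v)^3) + (13566670544/375) * ((L - (61/20))^2 * ((31/10) - L) * v^2 * ((1/4) - v)^2) + (1930513131/125) * ((L - (61/20))^2 * ((31/10) - L) * v^3 * ((1/4) - v)) + (306522986/125) * ((L - (61/20))^2 * ((31/10) - L) * v^4) + (1620602624/375) * ((L - (61/20))^3 * ((1/4) - v)^4) + (1539253184/125) * ((L - (61/20))^3 * v * ((1/4) - v)^3) + (4691136028/375) * ((L - (61/20))^3 * v^2 * ((1/4) - v)^2) + (674228882/125) * ((L - (61/20))^3 * v^3 * ((1/4) - v)) + (108369232/125) * ((L - (61/20))^3 * v^4) := by ring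
  rw [key]; positivity

private lemma UB6_p1_c1 (L v : ℝ) (hL0 : (61/20) ≤ L) (hL1 : L ≤ (31/10)) (hv0 : (1/4) ≤ v) (hv1 : v ≤ (1/2)) :
    0 ≤ ((4 * (11/20) - ((-(129/2000)) * (v - L / 3) + (23753/40000) / 3) * (2 + v)^2) * (L * (1 + L - v)) - 1 * ((L - v * (1 + L - v)) * (2 + v)^2)) := by
  have a0 : 0 ≤ L - (61/20) := by linarith
  have a1 : 0 ≤ (31/10) - L := by linarith
  have b0 : 0 ≤ v - (1/4) := by linarith
  have b1 : 0 ≤ (1/2) - v := by linarith
  have key : ((4 * (11/20) - ((-(129/2000)) * (v - L / 3) + (23753/40000) / 3) * (2 + v)^2) * (L * (1 + L - v)) - 1 * ((L - v * (1 + L - v)) * (2 + v)^2))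
    = (89906836/125) * (((31/10) - L)^3 * ((1/2) - v)^4) + (136494017/125) * (((31/10) - L)^3 * (v - (1/4)) * ((1/2) - v)^3) + (172143508/375) * (((31/10) - L)^3 * (v - (1/4))^2 * ((1/2) - v)^2) + (12714996/25) * (((31/10) - L)^3 * (v - (1/4))^3 * ((1/2) - v)) + (6190112/15) * (((31/10) - L)^3 * (v - (1/4))^4) + (288057107/125) * ((L - (61/20)) * ((31/10) - L)^2 * ((1/2) - v)^4) + (465425094/125) * ((L - (61/20)) * ((31/10) - L)^2 * (v - (1/4)) * ((1/2) - v)^3) + (701562041/375) * ((L - (61/20)) * ((31/10) - L)^2 * (v - (1/4))^2 * ((1/2) - v)^2) + (131973676/75) * ((L - (61/20)) * ((31/10) - L)^2 * (v - (1/4))^3 * ((1/2) - v)) + (6395068/5) * ((L - (61/20)) * ((31/10) - L)^2 * (v - (1/4))^4) + (306522986/125) * ((L - (61/20))^2 * ((31/10) - L) * ((1/2) - v)^4) + (521670757/125) * ((L - (61/20))^2 * ((31/10) - L) * (v - (1/4)) * ((1/2) - v)^3) + (887089178/375) * ((L - (61/20))^2 * ((31/10) - L) * (v - (1/4))^2 * ((1/2) - v)^2)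 + (49812236/25) * ((L - (61/20))^2 * ((31/10) - L) * (v - (1/4))^3 * ((1/2) - v)) + (19789912/15) * ((L - (61/20))^2 * ((31/10) - L) * (v - (1/4))^4) + (108369232/125) * ((L - (61/20))^3 * ((1/2) - v)^4) + (192724974/125) * ((L - (61/20))^3 * (v - (1/4)) * ((1/2) - v)^3) + (357600856/375) * ((L - (61/20))^3 * (v - (1/4))^2 * ((1/2) - v)^2) + (55598216/75) * ((L - (61/20))^3 * (v - (1/4))^3 * ((1/2) - v)) + (2264768/5) * ((L - (61/20))^3 * (v - (1/4))^4) := by ring
  rw [key]; positivity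

private lemma UB6_p1_c2 (L v : ℝ) (hL0 : (31/10) ≤ L) (hL1 : L ≤ (63/20)) (hv0 : 0 ≤ v) (hv1 : v ≤ (1/4)) :
    0 ≤ ((4 * (11/20) - ((-(129/2000)) * (v - L / 3) + (23753/40000) / 3) * (2 + v)^2) * (L * (1 + L - v)) - 1 * ((L - v * (1 + L - v)) * (2 + v)^2)) := by
  have a0 : 0 ≤ L - (31/10) := by linarith
  have a1 : 0 ≤ (63/20) - L := by linarith
  have b0 : 0 ≤ v := by linarith
  have b1 : 0 ≤ (1/4) - v := by linarith
  have key : ((4 * (11/20) - ((-(129/2000)) * (v - L / 3) + (23753/40000) / 3) * (2 + v)^2) * (L * (1 + L - v)) - 1 * ((L - v * (1 + L - v)) * (2 + v)^2))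
    = (1620602624/375) * (((63/20) - L)^3 * ((1/4) - v)^4) + (1539253184/125) * (((63/20) - L)^3 * v * ((1/4) - v)^3) + (4691136028/375) * (((63/20) - L)^3 * v^2 * ((1/4) - v)^2) + (674228882/125) * (((63/20) - L)^3 * v^3 * ((1/4) - v)) + (108369232/125) * (((63/20) - L)^3 * v^4) + (1660624384/125) * ((L - (31/10)) * ((63/20) - L)^2 * ((1/4) - v)^4) + (14259324736/375) * ((L - (31/10)) * ((63/20) - L)^2 * v * ((1/4) - v)^3) + (14580145624/375) * ((L - (31/10)) * ((63/20) - L)^2 * v^2 * ((1/4) - v)^2) + (2114860161/125) * ((L - (31/10)) * ((63/20) - L)^2 * v^3 * ((1/4) - v)) + (343692406/125) * ((L - (31/10)) * ((63/20) - L)^2 * v^4) + (5102941504/375) * ((L - (31/10))^2 * ((63/20) - L) * ((1/4) - v)^4) + (14668742992/375) * ((L - (31/10))^2 * ((63/20) - L) * v * ((1/4) - v)^3) + (5030324071/125) * ((L - (31/10))^2 * ((63/20) - L) * v^2 * ((1/4) - v)^2) + (2207725822/125) * ((L - (31/10))^2 * ((63/20) - L) * v^3 * ((1/4) - v)) +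 (362395947/125) * ((L - (31/10))^2 * ((63/20) - L) * v^4) + (116110848/25) * ((L - (31/10))^3 * ((1/4) - v)^4) + (335142848/25) * ((L - (31/10))^3 * v * ((1/4) - v)^3) + (346793784/25) * ((L - (31/10))^3 * v^2 * ((1/4) - v)^2) + (153416277/25) * ((L - (31/10))^3 * v^3 * ((1/4) - v)) + (25413858/25) * ((L - (31/10))^3 * v^4) := by ring
  rw [key]; positivity

private lemma UB6_p1_c3 (L v : ℝ) (hL0 : (31/10) ≤ L) (hL1 : L ≤ (63/20)) (hv0 : (1/4) ≤ v) (hv1 : v ≤ (1/2)) :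
    0 ≤ ((4 * (11/20) - ((-(129/2000)) * (v - L / 3) + (23753/40000) / 3) * (2 + v)^2) * (L * (1 + L - v)) - 1 * ((L - v * (1 + L - v)) * (2 + v)^2)) := by
  have a0 : 0 ≤ L - (31/10) := by linarith
  have a1 : 0 ≤ (63/20) - L := by linarith
  have b0 : 0 ≤ v - (1/4) := by linarith
  have b1 : 0 ≤ (1/2) - v := by linarith
  have key : ((4 * (11/20) - ((-(129/2000)) * (v - L / 3) + (23753/40000) / 3) * (2 + v)^2) * (L * (1 + L - v)) - 1 * ((L - v * (1 + L - v)) * (2 + v)^2))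
    = (108369232/125) * (((63/20) - L)^3 * ((1/2) - v)^4) + (192724974/125) * (((63/20) - L)^3 * (v - (1/4)) * ((1/2) - v)^3) + (357600856/375) * (((63/20) - L)^3 * (v - (1/4))^2 * ((1/2) - v)^2) + (55598216/75) * (((63/20) - L)^3 * (v - (1/4))^3 * ((1/2) - v)) + (2264768/5) * (((63/20) - L)^3 * (v - (1/4))^4) + (343692406/125) * ((L - (31/10)) * ((63/20) - L)^2 * ((1/2) - v)^4) + (634679087/125) * ((L - (31/10)) * ((63/20) - L)^2 * (v - (1/4)) * ((1/2) - v)^3) + (1258515958/375) * ((L - (31/10)) * ((63/20) - L)^2 * (v - (1/4))^2 * ((1/2) - v)^2) + (61384196/25) * ((L - (31/10)) * ((63/20) - L)^2 * (v - (1/4))^3 * ((1/2) - v)) + (20975912/15) * ((L - (31/10)) * ((63/20) - L)^2 * (v - (1/4))^4) + (362395947/125) * ((L - (31/10))^2 * ((63/20) - L) * ((1/2) - v)^4) + (691441754/125) * ((L - (31/10))^2 * ((63/20) - L) * (v - (1/4)) * ((1/2) - v)^3) + (481471867/125) * ((L - (31/10))^2 * ((63/20) - L) * (v - (1/4))^2 * ((1/2) - v)^2)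 + (201405436/75) * ((L - (31/10))^2 * ((63/20) - L) * (v - (1/4))^3 * ((1/2) - v)) + (21557204/15) * ((L - (31/10))^2 * ((63/20) - L) * (v - (1/4))^4) + (25413858/25) * ((L - (31/10))^3 * ((1/2) - v)^4) + (49894587/25) * ((L - (31/10))^3 * (v - (1/4)) * ((1/2) - v)^3) + (36228714/25) * ((L - (31/10))^3 * (v - (1/4))^2 * ((1/2) - v)^2) + (4856084/5) * ((L - (31/10))^3 * (v - (1/4))^3 * ((1/2) - v)) + 491672 * ((L - (31/10))^3 * (v - (1/4))^4) := by ring
  rw [key]; positivity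

private lemma UB6_p1_c4 (L v : ℝ) (hL0 : (61/20) ≤ L) (hL1 : L ≤ (63/20)) (hv0 : (1/2) ≤ v) (hv1 : v ≤ 1) :
    0 ≤ ((4 * (11/20) - ((-(129/2000)) * (v - L / 3) + (23753/40000) / 3) * (2 + v)^2) * (L * (1 + L - v)) - 1 * ((L - v * (1 + L - v)) * (2 + v)^2)) := by
  have a0 : 0 ≤ L - (61/20) := by linarith
  have a1 : 0 ≤ (63/20) - L := by linarith
  have b0 : 0 ≤ v - (1/2) := by linarith
  have b1 : 0 ≤ 1 - v := by linarith
  have key : ((4 * (11/20) - ((-(129/2000)) * (v - L / 3) + (23753/40000) / 3) * (2 + v)^2) * (L * (1 + L - v)) - 1 * ((L - v * (1 + L - v)) * (2 + v)^2))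
    = (193441/60) * (((63/20) - L)^3 * (1 - v)^4) + (12296531/400) * (((63/20) - L)^3 * (v - (1/2)) * (1 - v)^3) + (701522039/6000) * (((63/20) - L)^3 * (v - (1/2))^2 * (1 - v)^2) + (37863247/250) * (((63/20) - L)^3 * (v - (1/2))^3 * (1 - v)) + (30426617/500) * (((63/20) - L)^3 * (v - (1/2))^4) + (825003/80) * ((L - (61/20)) * ((63/20) - L)^2 * (1 - v)^4) + (111122443/1200) * ((L - (61/20)) * ((63/20) - L)^2 * (v - (1/2)) * (1 - v)^3) + (525648641/1500) * ((L - (61/20)) * ((63/20) - L)^2 * (v - (1/2))^2 * (1 - v)^2) + (227704789/500) * ((L - (61/20)) * ((63/20) - L)^2 * (v - (1/2))^3 * (1 - v)) + (22958753/125) * ((L - (61/20)) * ((63/20) - L)^2 * (v - (1/2))^4) + (1311823/120) * ((L - (61/20))^2 * ((63/20) - L) * (1 - v)^4) + (111346987/1200) * ((L - (61/20))^2 * ((63/20) - L) * (v - (1/2)) * (1 - v)^3) + (699320617/2000) * ((L - (61/20))^2 * ((63/20) - L) * (v - (1/2))^2 * (1 - v)^2) + (57007874/125) * ((L - (61/20))^2 * ((63/20)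 - L) * (v - (1/2))^3 * (1 - v)) + (92328453/500) * ((L - (61/20))^2 * ((63/20) - L) * (v - (1/2))^4) + (61459/16) * ((L - (61/20))^3 * (1 - v)^4) + (2473519/80) * ((L - (61/20))^3 * (v - (1/2)) * (1 - v)^3) + (23226531/200) * ((L - (61/20))^3 * (v - (1/2))^2 * (1 - v)^2) + (3041901/20) * ((L - (61/20))^3 * (v - (1/2))^3 * (1 - v)) + (3091851/50) * ((L - (61/20))^3 * (v - (1/2))^4) := by ring
  rw [key]; positivity

lemma UB6_p1 (L v : ℝ) (hL0 : (61/20) ≤ L) (hL1 : L ≤ (63/20)) (hv0 : 0 ≤ v) (hv1 : v ≤ 1) :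
    0 ≤ ((4 * (11/20) - ((-(129/2000)) * (v - L / 3) + (23753/40000) / 3) * (2 + v)^2) * (L * (1 + L - v)) - 1 * ((L - v * (1 + L - v)) * (2 + v)^2)) := by
  rcases le_total v (1/2) with h0 | h0
  · skip
    rcases le_total L (31/10) with h1 | h1
    · skip
      rcases le_total v (1/4) with h2 | h2
      · skip
        exact UB6_p1_c0 L v (by linarith) (by linarith) (by linarith) (by linarith)
      · skip
        exact UB6_p1_c1 L v (by linarith) (by linarith) (by linarith) (by linarith)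
    · skip
      rcases le_total v (1/4) with h2 | h2
      · skip
        exact UB6_p1_c2 L v (by linarith) (by linarith) (by linarith) (by linarith)
      · skip
        exact UB6_p1_c3 L v (by linarith) (by linarith) (by linarith) (by linarith)
  · skip
    exact UB6_p1_c4 L v (by linarith) (by linarith) (by linarith) (by linarith)

private lemma UB6_p0_c0 (L v : ℝ) (hL0 : (61/20) ≤ L) (hL1 : L ≤ (63/20)) (hv0 : 1 ≤ v) (hv1 : v ≤ (83/40)) :
    0 ≤ (4 * (11/20) - ((-(129/2000)) * (v - L / 3) + (23753/40000) / 3) * (2 + v)^2) := by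
  have a0 : 0 ≤ L - (61/20) := by linarith
  have a1 : 0 ≤ (63/20) - L := by linarith
  have b0 : 0 ≤ v - 1 := by linarith
  have b1 : 0 ≤ (83/40) - v := by linarith
  have key : (4 * (11/20) - ((-(129/2000)) * (v - L / 3) + (23753/40000) / 3) * (2 + v)^2)
    = (261664/79507) * (((63/20) - L) * ((83/40) - v)^3) + (1814176/397535) * (((63/20) - L) * (v - 1) * ((83/40) - v)^2) + (11956631/11926050) * (((63/20) - L) * (v - 1)^2 * ((83/40) - v)) + (17893013/47704200) * (((63/20) - L) * (v - 1)^3) + (249280/79507) * ((L - (61/20)) * ((83/40) - v)^3) + (316808/79507) * ((L - (61/20)) * (v - 1) * ((83/40) - v)^2) + (69655/238521) * ((L - (61/20)) * (v - 1)^2 * ((83/40) - v)) + (4183409/47704200) * ((L - (61/20)) * (v - 1)^3) := by ring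
  rw [key]; positivity

private lemma UB6_p0_c1 (L v : ℝ) (hL0 : (61/20) ≤ L) (hL1 : L ≤ (63/20)) (hv0 : (83/40) ≤ v) (hv1 : v ≤ (63/20)) :
    0 ≤ (4 * (11/20) - ((-(129/2000)) * (v - L / 3) + (23753/40000) / 3) * (2 + v)^2) := by
  have a0 : 0 ≤ L - (61/20) := by linarith
  have a1 : 0 ≤ (63/20) - L := by linarith
  have b0 : 0 ≤ v - (83/40) := by linarith
  have b1 : 0 ≤ (63/20) - v := by linarith
  have key : (4 * (11/20) - ((-(129/2000)) * (v - L / 3) + (23753/40000) / 3) * (2 + v)^2)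
    = (17893013/47704200) * (((63/20) - L) * ((63/20) - v)^3) + (29765777/23852100) * (((63/20) - L) * (v - (83/40)) * ((63/20) - v)^2) + (12055559/2385210) * (((63/20) - L) * (v - (83/40))^2 * ((63/20) - v)) + (28780231/5963025) * (((63/20) - L) * (v - (83/40))^3) + (4183409/47704200) * ((L - (61/20)) * ((63/20) - v)^3) + (5584727/23852100) * ((L - (61/20)) * (v - (83/40)) * ((63/20) - v)^2) + (46140427/11926050) * ((L - (61/20)) * (v - (83/40))^2 * ((63/20) - v)) + (26043109/5963025) * ((L - (61/20)) * (v - (83/40))^3) := by ring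
  rw [key]; positivity

lemma UB6_p0 (L v : ℝ) (hL0 : (61/20) ≤ L) (hL1 : L ≤ (63/20)) (hv0 : 1 ≤ v) (hv1 : v ≤ (63/20)) :
    0 ≤ (4 * (11/20) - ((-(129/2000)) * (v - L / 3) + (23753/40000) / 3) * (2 + v)^2) := by
  rcases le_total v (83/40) with h0 | h0
  · skip
    exact UB6_p0_c0 L v (by linarith) (by linarith) (by linarith) (by linarith)
  · skip
    exact UB6_p0_c1 L v (by linarith) (by linarith) (by linarith) (by linarith)

end AffInc.Cert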