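import Pool.Agent.Helper72.AI.Stmts2

set_option autoImplicit false
set_option linter.all false

/-! Bernstein certificate (generated). -/

namespace AffInc.Cert

-- piece UB7: L in [63/20, 33/10], C=1/2 w=1 m=-53/1000 R=2059/4000
private lemma UB7_p1_c0 (L v : ℝ) (hL0 : (63/20) ≤ L) (hL1 : L ≤ (129/40)) (hv0 : 0 ≤ v) (hv1 : v ≤ (1/4)) :
    0 ≤ ((4 * (1/2) - ((-(53/1000)) * (v - L / 3) + (2059/4000) / 3) * (2 + v)^2) * (L * (1 + L - v)) - 1 * ((L - v * (1 + L - v)) * (2 + v)^2)) := by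
  have a0 : 0 ≤ L - (63/20) := by linarith
  have a1 : 0 ≤ (129/40) - L := by linarith
  have b0 : 0 ≤ v := by linarith
  have b1 : 0 ≤ (1/4) - v := by linarith
  have key : ((4 * (1/2) - ((-(53/1000)) * (v - L / 3) + (2059/4000) / 3) * (2 + v)^2) * (L * (1 + L - v)) - 1 * ((L - v * (1 + L - v)) * (2 + v)^2))
    = (1135253504/1125) * (((129/40) - L)^3 * ((1/4) - v)^4) + (9246711296/3375) * (((129/40) - L)^3 * v * ((1/4) - v)^3) + (2923561568/1125) * (((129/40) - L)^3 * v^2 * ((1/4) - v)^2) + (383642672/375) * (((129/40) - L)^3 * v^3 * ((1/4) - v)) + (19026464/125) * (((129/40) - L)^3 * v^4) + (10684378624/3375) * ((L - (63/20)) * ((129/40) - L)^2 * ((1/4) - v)^4) + (29344335232/3375) * ((L - (63/20)) * ((129/40) - L)^2 * v * ((1/4) - v)^3) + (9452139496/1125) * ((L - (63/20)) * ((129/40) - L)^2 * v^2 * ((1/4) - v)^2) + (3835454632/1125) * ((L - (63/20)) * ((129/40) - L)^2 * v^3 * ((1/4) - v)) + (197984824/375) * ((L - (63/20)) * ((129/40) - L)^2 * v^4)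 + (11158102016/3375) * ((L - (63/20))^2 * ((129/40) - L) * ((1/4) - v)^4) + (30971752448/3375) * ((L - (63/20))^2 * ((129/40) - L) * v * ((1/4) - v)^3) + (3381179968/375) * ((L - (63/20))^2 * ((129/40) - L) * v^2 * ((1/4) - v)^2) + (4223639888/1125) * ((L - (63/20))^2 * ((129/40) - L) * v^3 * ((1/4) - v)) + (75032592/125) * ((L - (63/20))^2 * ((129/40) - L) * v^4) + (3879422848/3375) * ((L - (63/20))^3 * ((1/4) - v)^4) + (3624623008/1125) * ((L - (63/20))^3 * v * ((1/4) - v)^3) + (3614824282/1125) * ((L - (63/20))^3 * v^2 * ((1/4) - v)^2) + (1539015964/1125) * ((L - (63/20))^3 * v^3 * ((1/4) - v)) + (84183758/375) * ((L - (63/20))^3 * v^4) := by ring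
  rw [key]; positivity

private lemma UB7_p1_c1 (L v : ℝ) (hL0 : (63/20) ≤ L) (hL1 : L ≤ (129/40)) (hv0 : (1/4) ≤ v) (hv1 : v ≤ (1/2)) :
    0 ≤ ((4 * (1/2) - ((-(53/1000)) * (v - L / 3) + (2059/4000) / 3) * (2 + v)^2) * (L * (1 + L - v)) - 1 * ((L - v * (1 + L - v)) * (2 + v)^2)) := by
  have a0 : 0 ≤ L - (63/20) := by linarith
  have a1 : 0 ≤ (129/40) - L := by linarith
  have b0 : 0 ≤ v - (1/4) := by linarith
  have b1 : 0 ≤ (1/2) - v := by linarith
  have key : ((4 * (1/2) - ((-(53/1000)) * (v - L / 3) + (2059/4000) / 3) * (2 + v)^2) * (L * (1 + L - v)) - 1 * ((L - v * (1 + L - v)) * (2 + v)^2))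
    = (19026464/125) * (((129/40) - L)^3 * ((1/2) - v)^4) + (72992464/375) * (((129/40) - L)^3 * (v - (1/4)) * ((1/2) - v)^3) + (127709696/1125) * (((129/40) - L)^3 * (v - (1/4))^2 * ((1/2) - v)^2) + (168296768/675) * (((129/40) - L)^3 * (v - (1/4))^3 * ((1/2) - v)) + (23689472/135) * (((129/40) - L)^3 * (v - (1/4))^4) + (197984824/375) * ((L - (63/20)) * ((129/40) - L)^2 * ((1/2) - v)^4) + (916181144/1125) * ((L - (63/20)) * ((129/40) - L)^2 * (v - (1/4)) * ((1/2) - v)^3) + (694319032/1125) * ((L - (63/20)) * ((129/40) - L)^2 * (v - (1/4))^2 * ((1/2) - v)^2) + (604920256/675) * ((L - (63/20)) * ((129/40) - L)^2 * (v - (1/4))^3 * ((1/2) - v)) + (75211424/135) * ((L - (63/20)) * ((129/40) - L)^2 * (v - (1/4))^4) + (75032592/125) * ((L - (63/20))^2 * ((129/40) - L) * ((1/2) - v)^4) + (1178706736/1125) * ((L - (63/20))^2 * ((129/40) - L) * (v - (1/4)) * ((1/2) - v)^3) + (112082272/125) * ((L - (63/20))^2 * ((129/40) - L) * (v - (1/4))^2 * ((1/2) - v)^2) + (705569984/675)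 * ((L - (63/20))^2 * ((129/40) - L) * (v - (1/4))^3 * ((1/2) - v)) + (79351936/135) * ((L - (63/20))^2 * ((129/40) - L) * (v - (1/4))^4) + (84183758/375) * ((L - (63/20))^3 * ((1/2) - v)^4) + (481394228/1125) * ((L - (63/20))^3 * (v - (1/4)) * ((1/2) - v)^3) + (441959074/1125) * ((L - (63/20))^3 * (v - (1/4))^2 * ((1/2) - v)^2) + (9958296/25) * ((L - (63/20))^3 * (v - (1/4))^3 * ((1/2) - v)) + (27826168/135) * ((L - (63/20))^3 * (v - (1/4))^4) := by ring
  rw [key]; positivity

private lemma UB7_p1_c2 (L v : ℝ) (hL0 : (129/40) ≤ L) (hL1 : L ≤ (33/10)) (hv0 : 0 ≤ v) (hv1 : v ≤ (1/4)) :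
    0 ≤ ((4 * (1/2) - ((-(53/1000)) * (v - L / 3) + (2059/4000) / 3) * (2 + v)^2) * (L * (1 + L - v)) - 1 * ((L - v * (1 + L - v)) * (2 + v)^2)) := by
  have a0 : 0 ≤ L - (129/40) := by linarith
  have a1 : 0 ≤ (33/10) - L := by linarith
  have b0 : 0 ≤ v := by linarith
  have b1 : 0 ≤ (1/4) - v := by linarith
  have key : ((4 * (1/2) - ((-(53/1000)) * (v - L / 3) + (2059/4000) / 3) * (2 + v)^2) * (L * (1 + L - v)) - 1 * ((L - v * (1 + L - v)) * (2 + v)^2))
    = (3879422848/3375) * (((33/10) - L)^3 * ((1/4) - v)^4) + (3624623008/1125) * (((33/10) - L)^3 * v * ((1/4) - v)^3) + (3614824282/1125) * (((33/10) - L)^3 * v^2 * ((1/4) - v)^2) + (1539015964/1125) * (((33/10) - L)^3 * v^3 * ((1/4) - v)) + (84183758/375) * (((33/10) - L)^3 * v^4) + (12118435072/3375) * ((L - (129/40)) * ((33/10) - L)^2 * ((1/4) - v)^4) + (34271461696/3375) * ((L - (129/40)) * ((33/10) - L)^2 * v * ((1/4) - v)^3) + (3848468596/375) * ((L - (129/40)) * ((33/10) - L)^2 * v^2 * ((1/4)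 - v)^2) + (5010455896/1125) * ((L - (129/40)) * ((33/10) - L)^2 * v^3 * ((1/4) - v)) + (93334924/125) * ((L - (129/40)) * ((33/10) - L)^2 * v^4) + (12605044736/3375) * ((L - (129/40))^2 * ((33/10) - L) * ((1/4) - v)^4) + (35943753728/3375) * ((L - (129/40))^2 * ((33/10) - L) * v * ((1/4) - v)^3) + (12255871264/1125) * ((L - (129/40))^2 * ((33/10) - L) * v^2 * ((1/4) - v)^2) + (5409086648/1125) * ((L - (129/40))^2 * ((33/10) - L) * v^3 * ((1/4) - v)) + (307798816/375) * ((L - (129/40))^2 * ((33/10) - L) * v^4) + (4365971456/3375) * ((L - (129/40))^3 * ((1/4) - v)^4) + (12545901568/3375) * ((L - (129/40))^3 * v * ((1/4) - v)^3) + (4325152064/1125) * ((L - (129/40))^3 * v^2 * ((1/4) - v)^2) + (1937549408/1125) * ((L - (129/40))^3 * v^3 * ((1/4) - v)) + (37323072/125) * ((L - (129/40))^3 * v^4) := by ring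
  rw [key]; positivity

private lemma UB7_p1_c3 (L v : ℝ) (hL0 : (129/40) ≤ L) (hL1 : L ≤ (33/10)) (hv0 : (1/4) ≤ v) (hv1 : v ≤ (1/2)) :
    0 ≤ ((4 * (1/2) - ((-(53/1000)) * (v - L / 3) + (2059/4000) / 3) * (2 + v)^2) * (L * (1 + L - v)) - 1 * ((L - v * (1 + L - v)) * (2 + v)^2)) := by
  have a0 : 0 ≤ L - (129/40) := by linarith
  have a1 : 0 ≤ (33/10) - L := by linarith
  have b0 : 0 ≤ v - (1/4) := by linarith
  have b1 : 0 ≤ (1/2) - v := by linarith
  have key : ((4 * (1/2) - ((-(53/1000)) * (v - L / 3) + (2059/4000) / 3) * (2 + v)^2) * (L * (1 + L - v)) - 1 * ((L - v * (1 + L - v)) * (2 + v)^2))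
    = (84183758/375) * (((33/10) - L)^3 * ((1/2) - v)^4) + (481394228/1125) * (((33/10) - L)^3 * (v - (1/4)) * ((1/2) - v)^3) + (441959074/1125) * (((33/10) - L)^3 * (v - (1/4))^2 * ((1/2) - v)^2) + (9958296/25) * (((33/10) - L)^3 * (v - (1/4))^3 * ((1/2) - v)) + (27826168/135) * (((33/10) - L)^3 * (v - (1/4))^4) + (93334924/125) * ((L - (129/40)) * ((33/10) - L)^2 * ((1/2) - v)^4) + (1709658632/1125) * ((L - (129/40)) * ((33/10) - L)^2 * (v - (1/4)) * ((1/2) - v)^3) + (547671332/375) * ((L - (129/40)) * ((33/10) - L)^2 * (v - (1/4))^2 * ((1/2) - v)^2) + (907673968/675) * ((L - (129/40)) * ((33/10) - L)^2 * (v - (1/4))^3 * ((1/2) - v)) + (87605072/135) * ((L - (129/40)) * ((33/10) - L)^2 * (v - (1/4))^4) + (307798816/375) * ((L - (129/40))^2 * ((33/10) - L) * ((1/2) - v)^4) + (1978084936/1125) * ((L - (129/40))^2 * ((33/10) - L) * (v - (1/4)) * ((1/2) - v)^3) + (1962866128/1125) * ((L - (129/40))^2 * ((33/10) - L) * (v - (1/4))^2 * ((1/2) - v)^2) + (1009128224/675)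 * ((L - (129/40))^2 * ((33/10) - L) * (v - (1/4))^3 * ((1/2) - v)) + (91717696/135) * ((L - (129/40))^2 * ((33/10) - L) * (v - (1/4))^4) + (37323072/125) * ((L - (129/40))^3 * ((1/2) - v)^4) + (749711776/1125) * ((L - (129/40))^3 * (v - (1/4)) * ((1/2) - v)^3) + (761639168/1125) * ((L - (129/40))^3 * (v - (1/4))^2 * ((1/2) - v)^2) + (370255744/675) * ((L - (129/40))^3 * (v - (1/4))^3 * ((1/2) - v)) + (10644992/45) * ((L - (129/40))^3 * (v - (1/4))^4) := by ring
  rw [key]; positivity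

private lemma UB7_p1_c4 (L v : ℝ) (hL0 : (63/20) ≤ L) (hL1 : L ≤ (33/10)) (hv0 : (1/2) ≤ v) (hv1 : v ≤ 1) :
    0 ≤ ((4 * (1/2) - ((-(53/1000)) * (v - L / 3) + (2059/4000) / 3) * (2 + v)^2) * (L * (1 + L - v)) - 1 * ((L - v * (1 + L - v)) * (2 + v)^2)) := by
  have a0 : 0 ≤ L - (63/20) := by linarith
  have a1 : 0 ≤ (33/10) - L := by linarith
  have b0 : 0 ≤ v - (1/2) := by linarith
  have b1 : 0 ≤ 1 - v := by linarith
  have key : ((4 * (1/2) - ((-(53/1000)) * (v - L / 3) + (2059/4000) / 3) * (2 + v)^2) * (L * (1 + L - v)) - 1 * ((L - v * (1 + L - v)) * (2 + v)^2))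
    = (185074/135) * (((33/10) - L)^3 * (1 - v)^4) + (8474803/675) * (((33/10) - L)^3 * (v - (1/2)) * (1 - v)^3) + (47829673/1125) * (((33/10) - L)^3 * (v - (1/2))^2 * (1 - v)^2) + (19497472/375) * (((33/10) - L)^3 * (v - (1/2))^3 * (1 - v)) + (2539572/125) * (((33/10) - L)^3 * (v - (1/2))^4) + (1239913/270) * ((L - (63/20)) * ((33/10) - L)^2 * (1 - v)^4) + (26182543/675) * ((L - (63/20)) * ((33/10) - L)^2 * (v - (1/2)) * (1 - v)^3) + (290359751/2250) * ((L - (63/20)) * ((33/10) - L)^2 * (v - (1/2))^2 * (1 - v)^2) + (177361286/1125) * ((L - (63/20)) * ((33/10) - L)^2 * (v - (1/2))^3 * (1 - v)) + (7720342/125) * ((L - (63/20)) * ((33/10) - L)^2 * (v - (1/2))^4) + (684613/135) * ((L - (63/20))^2 * ((33/10) - L) * (1 - v)^4) + (26897261/675) * ((L - (63/20))^2 * ((33/10) - L) * (v - (1/2)) * (1 - v)^3) + (146658526/1125) * ((L - (63/20))^2 * ((33/10) - L) * (v - (1/2))^2 * (1 - v)^2) + (179036452/1125) * ((L - (63/20))^2 * ((33/10) - L) * (v - (1/2))^3 * (1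 - v)) + (23443112/375) * ((L - (63/20))^2 * ((33/10) - L) * (v - (1/2))^4) + (83164/45) * ((L - (63/20))^3 * (1 - v)^4) + (9184274/675) * ((L - (63/20))^3 * (v - (1/2)) * (1 - v)^3) + (49293934/1125) * ((L - (63/20))^3 * (v - (1/2))^2 * (1 - v)^2) + (60157088/1125) * ((L - (63/20))^3 * (v - (1/2))^3 * (1 - v)) + (7899848/375) * ((L - (63/20))^3 * (v - (1/2))^4) := by ring
  rw [key]; positivity

lemma UB7_p1 (L v : ℝ) (hL0 : (63/20) ≤ L) (hL1 : L ≤ (33/10)) (hv0 : 0 ≤ v) (hv1 : v ≤ 1) :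
    0 ≤ ((4 * (1/2) - ((-(53/1000)) * (v - L / 3) + (2059/4000) / 3) * (2 + v)^2) * (L * (1 + L - v)) - 1 * ((L - v * (1 + L - v)) * (2 + v)^2)) := by
  rcases le_total v (1/2) with h0 | h0
  · skip
    rcases le_total L (129/40) with h1 | h1
    · skip
      rcases le_total v (1/4) with h2 | h2
      · skip
        exact UB7_p1_c0 L v (by linarith) (by linarith) (by linarith) (by linarith)
      · skip
        exact UB7_p1_c1 L v (by linarith) (by linarith) (by linarith) (by linarith)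
    · skip
      rcases le_total v (1/4) with h2 | h2
      · skip
        exact UB7_p1_c2 L v (by linarith) (by linarith) (by linarith) (by linarith)
      · skip
        exact UB7_p1_c3 L v (by linarith) (by linarith) (by linarith) (by linarith)
  · skip
    exact UB7_p1_c4 L v (by linarith) (by linarith) (by linarith) (by linarith)

private lemma UB7_p0_c0 (L v : ℝ) (hL0 : (63/20) ≤ L) (hL1 : L ≤ (33/10)) (hv0 : 1 ≤ v) (hv1 : v ≤ (43/20)) :
    0 ≤ (4 * (1/2) - ((-(53/1000)) * (v - L / 3) + (2059/4000) / 3) * (2 + v)^2) := by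
  have a0 : 0 ≤ L - (63/20) := by linarith
  have a1 : 0 ≤ (33/10) - L := by linarith
  have b0 : 0 ≤ v - 1 := by linarith
  have b1 : 0 ≤ (43/20) - v := by linarith
  have key : (4 * (1/2) - ((-(53/1000)) * (v - L / 3) + (2059/4000) / 3) * (2 + v)^2)
    = (69104/36501) * (((33/10) - L) * ((43/20) - v)^3) + (513632/182505) * (((33/10) - L) * (v - 1) * ((43/20) - v)^2) + (2142137/2737575) * (((33/10) - L) * (v - 1)^2 * ((43/20) - v)) + (1175467/5475150) * (((33/10) - L) * (v - 1)^3) + (65288/36501) * ((L - (63/20)) * ((43/20) - v)^3) + (441764/182505) * ((L - (63/20)) * (v - 1) * ((43/20) - v)^2) + (1605283/5475150) * ((L - (63/20)) * (v - 1)^2 * ((43/20) - v)) + (40058/2737575) * ((L - (63/20)) * (v - 1)^3) := by ring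
  rw [key]; positivity

private lemma UB7_p0_c1 (L v : ℝ) (hL0 : (63/20) ≤ L) (hL1 : L ≤ (129/40)) (hv0 : (43/20) ≤ v) (hv1 : v ≤ (33/10)) :
    0 ≤ (4 * (1/2) - ((-(53/1000)) * (v - L / 3) + (2059/4000) / 3) * (2 + v)^2) := by
  have a0 : 0 ≤ L - (63/20) := by linarith
  have a1 : 0 ≤ (129/40) - L := by linarith
  have b0 : 0 ≤ v - (43/20) := by linarith
  have b1 : 0 ≤ (33/10) - v := by linarith
  have key : (4 * (1/2) - ((-(53/1000)) * (v - L / 3) + (2059/4000) / 3) * (2 + v)^2)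
    = (1175467/2737575) * (((129/40) - L) * ((33/10) - v)^3) + (2768528/2737575) * (((129/40) - L) * (v - (43/20)) * ((33/10) - v)^2) + (12377468/2737575) * (((129/40) - L) * (v - (43/20))^2 * ((33/10) - v)) + (2543792/547515) * (((129/40) - L) * (v - (43/20))^3) + (1255583/5475150) * ((L - (63/20)) * ((33/10) - v)^3) + (1643941/5475150) * ((L - (63/20)) * (v - (43/20)) * ((33/10) - v)^2) + (10085324/2737575) * ((L - (63/20)) * (v - (43/20))^2 * ((33/10) - v)) + (11825698/2737575) * ((L - (63/20)) * (v - (43/20))^3) := by ring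
  rw [key]; positivity

private lemma UB7_p0_c2 (L v : ℝ) (hL0 : (129/40) ≤ L) (hL1 : L ≤ (261/80)) (hv0 : (43/20) ≤ v) (hv1 : v ≤ (109/40)) :
    0 ≤ (4 * (1/2) - ((-(53/1000)) * (v - L / 3) + (2059/4000) / 3) * (2 + v)^2) := by
  have a0 : 0 ≤ L - (129/40) := by linarith
  have a1 : 0 ≤ (261/80) - L := by linarith
  have b0 : 0 ≤ v - (43/20) := by linarith
  have b1 : 0 ≤ (109/40) - v := by linarith
  have key : (4 * (1/2) - ((-(53/1000)) * (v - L / 3) + (2059/4000) / 3) * (2 + v)^2)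
    = (10044664/2737575) * (((261/80) - L) * ((109/40) - v)^3) + (4328552/547515) * (((261/80) - L) * (v - (43/20)) * ((109/40) - v)^2) + (6050062/304175) * (((261/80) - L) * (v - (43/20))^2 * ((109/40) - v)) + (15573856/912525) * (((261/80) - L) * (v - (43/20))^3) + (1132652/547515) * ((L - (129/40)) * ((109/40) - v)^3) + (7284424/2737575) * ((L - (129/40)) * (v - (43/20)) * ((109/40) - v)^2) + (4310443/304175) * ((L - (129/40)) * (v - (43/20))^2 * ((109/40) - v)) + (13680643/912525) * ((L - (129/40)) * (v - (43/20))^3) := by ring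
  rw [key]; positivity

private lemma UB7_p0_c3 (L v : ℝ) (hL0 : (261/80) ≤ L) (hL1 : L ≤ (105/32)) (hv0 : (43/20) ≤ v) (hv1 : v ≤ (39/16)) :
    0 ≤ (4 * (1/2) - ((-(53/1000)) * (v - L / 3) + (2059/4000) / 3) * (2 + v)^2) := by
  have a0 : 0 ≤ L - (261/80) := by linarith
  have a1 : 0 ≤ (105/32) - L := by linarith
  have b0 : 0 ≤ v - (43/20) := by linarith
  have b1 : 0 ≤ (39/16) - v := by linarith
  have key : (4 * (1/2) - ((-(53/1000)) * (v - L / 3) + (2059/4000) / 3) * (2 + v)^2)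
    = (18122432/547515) * (((105/32) - L) * ((39/16) - v)^3) + (194193632/2737575) * (((105/32) - L) * (v - (43/20)) * ((39/16) - v)^2) + (56282092/547515) * (((105/32) - L) * (v - (43/20))^2 * ((39/16) - v)) + (7422688/109503) * (((105/32) - L) * (v - (43/20))^3) + (55560928/2737575) * ((L - (261/80)) * ((39/16) - v)^3) + (16836688/547515) * ((L - (261/80)) * (v - (43/20)) * ((39/16) - v)^2) + (6655022/109503) * ((L - (261/80)) * (v - (43/20))^2 * ((39/16) - v)) + (5819650/109503) * ((L - (261/80)) * (v - (43/20))^3) := by ring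
  rw [key]; positivity

private lemma UB7_p0_c4 (L v : ℝ) (hL0 : (105/32) ≤ L) (hL1 : L ≤ (33/10)) (hv0 : (43/20) ≤ v) (hv1 : v ≤ (367/160)) :
    0 ≤ (4 * (1/2) - ((-(53/1000)) * (v - L / 3) + (2059/4000) / 3) * (2 + v)^2) := by
  have a0 : 0 ≤ L - (105/32) := by linarith
  have a1 : 0 ≤ (33/10) - L := by linarith
  have b0 : 0 ≤ v - (43/20) := by linarith
  have b1 : 0 ≤ (367/160) - v := by linarith
  have key : (4 * (1/2) - ((-(53/1000)) * (v - L / 3) + (2059/4000) / 3) * (2 + v)^2)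
    = (444487424/2737575) * (((33/10) - L) * ((367/160) - v)^3) + (1003464896/2737575) * (((33/10) - L) * (v - (43/20)) * ((367/160) - v)^2) + (334283476/912525) * (((33/10) - L) * (v - (43/20))^2 * ((367/160) - v)) + (150537056/912525) * (((33/10) - L) * (v - (43/20))^3) + (164077568/2737575) * ((L - (105/32)) * ((367/160) - v)^3) + (142809344/2737575) * ((L - (105/32)) * (v - (43/20)) * ((367/160) - v)^2) + (40810816/912525) * ((L - (105/32)) * (v - (43/20))^2 * ((367/160) - v)) + (50479628/912525) * ((L - (105/32)) * (v - (43/20))^3) := by ring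
  rw [key]; positivity

private lemma UB7_p0_c5 (L v : ℝ) (hL0 : (105/32) ≤ L) (hL1 : L ≤ (33/10)) (hv0 : (367/160) ≤ v) (hv1 : v ≤ (39/16)) :
    0 ≤ (4 * (1/2) - ((-(53/1000)) * (v - L / 3) + (2059/4000) / 3) * (2 + v)^2) := by
  have a0 : 0 ≤ L - (105/32) := by linarith
  have a1 : 0 ≤ (33/10) - L := by linarith
  have b0 : 0 ≤ v - (367/160) := by linarith
  have b1 : 0 ≤ (39/16) - v := by linarith
  have key : (4 * (1/2) - ((-(53/1000)) * (v - L / 3) + (2059/4000) / 3) * (2 + v)^2)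
    = (150537056/912525) * (((33/10) - L) * ((39/16) - v)^3) + (113787772/182505) * (((33/10) - L) * (v - (367/160)) * ((39/16) - v)^2) + (96455888/109503) * (((33/10) - L) * (v - (367/160))^2 * ((39/16) - v)) + (46557200/109503) * (((33/10) - L) * (v - (367/160))^3) + (50479628/912525) * ((L - (105/32)) * ((39/16) - v)^3) + (262066952/912525) * ((L - (105/32)) * (v - (367/160)) * ((39/16) - v)^2) + (294069232/547515) * ((L - (105/32)) * (v - (367/160))^2 * ((39/16) - v)) + (33732896/109503) * ((L - (105/32)) * (v - (367/160))^3) := by ring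
  rw [key]; positivity

private lemma UB7_p0_c6 (L v : ℝ) (hL0 : (261/80) ≤ L) (hL1 : L ≤ (33/10)) (hv0 : (39/16) ≤ v) (hv1 : v ≤ (109/40)) :
    0 ≤ (4 * (1/2) - ((-(53/1000)) * (v - L / 3) + (2059/4000) / 3) * (2 + v)^2) := by
  have a0 : 0 ≤ L - (261/80) := by linarith
  have a1 : 0 ≤ (33/10) - L := by linarith
  have b0 : 0 ≤ v - (39/16) := by linarith
  have b1 : 0 ≤ (109/40) - v := by linarith
  have key : (4 * (1/2) - ((-(53/1000)) * (v - L / 3) + (2059/4000) / 3) * (2 + v)^2)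
    = (3711344/109503) * (((33/10) - L) * ((109/40) - v)^3) + (83199274/547515) * (((33/10) - L) * (v - (39/16)) * ((109/40) - v)^2) + (71964344/304175) * (((33/10) - L) * (v - (39/16))^2 * ((109/40) - v)) + (109445144/912525) * (((33/10) - L) * (v - (39/16))^3) + (2108306/109503) * ((L - (261/80)) * ((109/40) - v)^3) + (58115116/547515) * ((L - (261/80)) * (v - (39/16)) * ((109/40) - v)^2) + (57433016/304175) * ((L - (261/80)) * (v - (39/16))^2 * ((109/40) - v)) + (18859888/182505) * ((L - (261/80)) * (v - (39/16))^3) := by ring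
  rw [key]; positivity

private lemma UB7_p0_c7 (L v : ℝ) (hL0 : (129/40) ≤ L) (hL1 : L ≤ (33/10)) (hv0 : (109/40) ≤ v) (hv1 : v ≤ (33/10)) :
    0 ≤ (4 * (1/2) - ((-(53/1000)) * (v - L / 3) + (2059/4000) / 3) * (2 + v)^2) := by
  have a0 : 0 ≤ L - (129/40) := by linarith
  have a1 : 0 ≤ (33/10) - L := by linarith
  have b0 : 0 ≤ v - (109/40) := by linarith
  have b1 : 0 ≤ (33/10) - v := by linarith
  have key : (4 * (1/2) - ((-(53/1000)) * (v - L / 3) + (2059/4000) / 3) * (2 + v)^2)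
    = (7786928/912525) * (((33/10) - L) * ((33/10) - v)^3) + (501953/12167) * (((33/10) - L) * (v - (109/40)) * ((33/10) - v)^2) + (182249672/2737575) * (((33/10) - L) * (v - (109/40))^2 * ((33/10) - v)) + (94605584/2737575) * (((33/10) - L) * (v - (109/40))^3) + (1178743/182505) * ((L - (129/40)) * ((33/10) - v)^3) + (10502018/304175) * ((L - (129/40)) * (v - (109/40)) * ((33/10) - v)^2) + (162361952/2737575) * ((L - (129/40)) * (v - (109/40))^2 * ((33/10) - v)) + (87459488/2737575) * ((L - (129/40)) * (v - (109/40))^3) := by ring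
  rw [key]; positivity

lemma UB7_p0 (L v : ℝ) (hL0 : (63/20) ≤ L) (hL1 : L ≤ (33/10)) (hv0 : 1 ≤ v) (hv1 : v ≤ (33/10)) :
    0 ≤ (4 * (1/2) - ((-(53/1000)) * (v - L / 3) + (2059/4000) / 3) * (2 + v)^2) := by
  rcases le_total v (43/20) with h0 | h0
  · skip
    exact UB7_p0_c0 L v (by linarith) (by linarith) (by linarith) (by linarith)
  · skip
    rcases le_total L (129/40) with h1 | h1
    · skip
      exact UB7_p0_c1 L v (by linarith) (by linarith) (by linarith) (by linarith)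
    · skip
      rcases le_total v (109/40) with h2 | h2
      · skip
        rcases le_total L (261/80) with h3 | h3
        · skip
          exact UB7_p0_c2 L v (by linarith) (by linarith) (by linarith) (by linarith)
        · skip
          rcases le_total v (39/16) with h4 | h4
          · skip
            rcases le_total L (105/32) with h5 | h5
            · skip
              exact UB7_p0_c3 L v (by linarith) (by linarith) (by linarith) (by linarith)
            · skip
              rcases le_total v (367/160) with h6 | h6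
              · skip
                exact UB7_p0_c4 L v (by linarith) (by linarith) (by linarith) (by linarith)
              · skip
                exact UB7_p0_c5 L v (by linarith) (by linarith) (by linarith) (by linarith)
          · skip
            exact UB7_p0_c6 L v (by linarith) (by linarith) (by linarith) (by linarith)
      · skip
        exact UB7_p0_c7 L v (by linarith) (by linarith) (by linarith) (by linarith)

end AffInc.Cert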