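import Pool.Agent.Helper72.AI.Stmts2

set_option autoImplicit false
set_option linter.all false

/-! Bernstein certificate (generated). -/

namespace AffInc.Cert

-- piece UB8: L in [33/10, 7/2], C=9/20 w=1 m=-87/2000 R=17427/40000
private lemma UB8_p1_c0 (L v : ℝ) (hL0 : (33/10) ≤ L) (hL1 : L ≤ (17/5)) (hv0 : 0 ≤ v) (hv1 : v ≤ (1/4)) :
    0 ≤ ((4 * (9/20) - ((-(87/2000)) * (v - L / 3) + (17427/40000) / 3) * (2 + v)^2) * (L * (1 + L - v)) - 1 * ((L - v * (1 + L - v)) * (2 + v)^2)) := by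
  have a0 : 0 ≤ L - (33/10) := by linarith
  have a1 : 0 ≤ (17/5) - L := by linarith
  have b0 : 0 ≤ v := by linarith
  have b1 : 0 ≤ (1/4) - v := by linarith
  have key : ((4 * (9/20) - ((-(87/2000)) * (v - L / 3) + (17427/40000) / 3) * (2 + v)^2) * (L * (1 + L - v)) - 1 * ((L - v * (1 + L - v)) * (2 + v)^2))
    = (44258016/125) * (((17/5) - L)^3 * ((1/4) - v)^4) + (113981768/125) * (((17/5) - L)^3 * v * ((1/4) - v)^3) + (199209279/250) * (((17/5) - L)^3 * v^2 * ((1/4) - v)^2) + (139144581/500) * (((17/5) - L)^3 * v^3 * ((1/4) - v)) + (4762314/125) * (((17/5) - L)^3 * v^4) + (142334048/125) * ((L - (33/10)) * ((17/5) - L)^2 * ((1/4) - v)^4) + (375220184/125) * ((L - (33/10)) * ((17/5) - L)^2 * v * ((1/4) - v)^3) + (683932707/250) * ((L - (33/10)) * ((17/5) - L)^2 * v^2 * ((1/4) - v)^2) + (129148542/125) * ((L - (33/10)) * ((17/5) - L)^2 * v^3 * ((1/4) - v)) + (39277899/250) * ((L - (33/10)) * ((17/5)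 - L)^2 * v^4) + (152081856/125) * ((L - (33/10))^2 * ((17/5) - L) * ((1/4) - v)^4) + (409167808/125) * ((L - (33/10))^2 * ((17/5) - L) * v * ((1/4) - v)^3) + (386008747/125) * ((L - (33/10))^2 * ((17/5) - L) * v^2 * ((1/4) - v)^2) + (617807421/500) * ((L - (33/10))^2 * ((17/5) - L) * v^3 * ((1/4) - v)) + (50198283/250) * ((L - (33/10))^2 * ((17/5) - L) * v^4) + (54003968/125) * ((L - (33/10))^3 * ((1/4) - v)^4) + (147921504/125) * ((L - (33/10))^3 * v * ((1/4) - v)^3) + (143634476/125) * ((L - (33/10))^3 * v^2 * ((1/4) - v)^2) + (120161169/250) * ((L - (33/10))^3 * v^3 * ((1/4) - v)) + (10220157/125) * ((L - (33/10))^3 * v^4) := by ring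
  rw [key]; positivity

private lemma UB8_p1_c1 (L v : ℝ) (hL0 : (33/10) ≤ L) (hL1 : L ≤ (17/5)) (hv0 : (1/4) ≤ v) (hv1 : v ≤ (1/2)) :
    0 ≤ ((4 * (9/20) - ((-(87/2000)) * (v - L / 3) + (17427/40000) / 3) * (2 + v)^2) * (L * (1 + L - v)) - 1 * ((L - v * (1 + L - v)) * (2 + v)^2)) := by
  have a0 : 0 ≤ L - (33/10) := by linarith
  have a1 : 0 ≤ (17/5) - L := by linarith
  have b0 : 0 ≤ v - (1/4) := by linarith
  have b1 : 0 ≤ (1/2) - v := by linarith
  have key : ((4 * (9/20) - ((-(87/2000)) * (v - L / 3) + (17427/40000) / 3) * (2 + v)^2) * (L * (1 + L - v)) - 1 * ((L - v * (1 + L - v)) * (2 + v)^2))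
    = (4762314/125) * (((17/5) - L)^3 * ((1/2) - v)^4) + (13249467/500) * (((17/5) - L)^3 * (v - (1/4)) * ((1/2) - v)^3) + (5183304/125) * (((17/5) - L)^3 * (v - (1/4))^2 * ((1/2) - v)^2) + (3879419/25) * (((17/5) - L)^3 * (v - (1/4))^3 * ((1/2) - v)) + (504836/5) * (((17/5) - L)^3 * (v - (1/4))^4) + (39277899/250) * ((L - (33/10)) * ((17/5) - L)^2 * ((1/2) - v)^4) + (27963054/125) * ((L - (33/10)) * ((17/5) - L)^2 * (v - (1/4)) * ((1/2) - v)^3) + (76819779/250) * ((L - (33/10)) * ((17/5) - L)^2 * (v - (1/4))^2 * ((1/2) - v)^2) + (14261822/25) * ((L - (33/10)) * ((17/5) - L)^2 * (v - (1/4))^3 * ((1/2) - v)) + (1631758/5) * ((L - (33/10)) * ((17/5) - L)^2 * (v - (1/4))^4) + (50198283/250) * ((L - (33/10))^2 * ((17/5) - L) * ((1/2) - v)^4) + (185365107/500) * ((L - (33/10))^2 * ((17/5) - L) * (v - (1/4)) * ((1/2) - v)^3) + (123354023/250) * ((L - (33/10))^2 * ((17/5) - L) * (v - (1/4))^2 * ((1/2) - v)^2)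 + (16923489/25) * ((L - (33/10))^2 * ((17/5) - L) * (v - (1/4))^3 * ((1/2) - v)) + (1750106/5) * ((L - (33/10))^2 * ((17/5) - L) * (v - (1/4))^4) + (10220157/125) * ((L - (33/10))^3 * ((1/2) - v)^4) + (43361343/250) * ((L - (33/10))^3 * (v - (1/4)) * ((1/2) - v)^3) + (28434737/125) * ((L - (33/10))^3 * (v - (1/4))^2 * ((1/2) - v)^2) + (6538882/25) * ((L - (33/10))^3 * (v - (1/4))^3 * ((1/2) - v)) + (623068/5) * ((L - (33/10))^3 * (v - (1/4))^4) := by ring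
  rw [key]; positivity

private lemma UB8_p1_c2 (L v : ℝ) (hL0 : (17/5) ≤ L) (hL1 : L ≤ (7/2)) (hv0 : 0 ≤ v) (hv1 : v ≤ (1/2)) :
    0 ≤ ((4 * (9/20) - ((-(87/2000)) * (v - L / 3) + (17427/40000) / 3) * (2 + v)^2) * (L * (1 + L - v)) - 1 * ((L - v * (1 + L - v)) * (2 + v)^2)) := by
  have a0 : 0 ≤ L - (17/5) := by linarith
  have a1 : 0 ≤ (7/2) - L := by linarith
  have b0 : 0 ≤ v := by linarith
  have b1 : 0 ≤ (1/2) - v := by linarith
  have key : ((4 * (9/20) - ((-(87/2000)) * (v - L / 3) + (17427/40000) / 3) * (2 + v)^2) * (L * (1 + L - v)) - 1 * ((L - v * (1 + L - v)) * (2 + v)^2))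
    = (3375248/125) * (((7/2) - L)^3 * ((1/2) - v)^4) + (4989196/125) * (((7/2) - L)^3 * v * ((1/2) - v)^3) + (689543/125) * (((7/2) - L)^3 * v^2 * ((1/2) - v)^2) + (154101/100) * (((7/2) - L)^3 * v^3 * ((1/2) - v)) + (155767/20) * (((7/2) - L)^3 * v^4) + (10746372/125) * ((L - (17/5)) * ((7/2) - L)^2 * ((1/2) - v)^4) + (16809664/125) * ((L - (17/5)) * ((7/2) - L)^2 * v * ((1/2) - v)^3) + (16169213/500) * ((L - (17/5)) * ((7/2) - L)^2 * v^2 * ((1/2) - v)^2) + (2426783/200) * ((L - (17/5)) * ((7/2) - L)^2 * v^3 * ((1/2) - v)) + (994151/40) * ((L - (17/5)) * ((7/2) - L)^2 * v^4) + (2275678/25) * ((L - (17/5))^2 * ((7/2) - L) * ((1/2) - v)^4) + (3737463/25) * ((L - (17/5))^2 * ((7/2) - L) * v * ((1/2) - v)^3) + (387455/8) * ((L - (17/5))^2 * ((7/2) - L) * v^2 * ((1/2) - v)^2) + (79059/4) * ((L - (17/5))^2 * ((7/2) - L) * v^3 * ((1/2) - v)) + (210815/8) * ((L - (17/5))^2 * ((7/2) - L) * v^4) + (160286/5)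 * ((L - (17/5))^3 * ((1/2) - v)^4) + (274653/5) * ((L - (17/5))^3 * v * ((1/2) - v)^3) + (864111/40) * ((L - (17/5))^3 * v^2 * ((1/2) - v)^2) + (73333/8) * ((L - (17/5))^3 * v^3 * ((1/2) - v)) + 9285 * ((L - (17/5))^3 * v^4) := by ring
  rw [key]; positivity

private lemma UB8_p1_c3 (L v : ℝ) (hL0 : (33/10) ≤ L) (hL1 : L ≤ (7/2)) (hv0 : (1/2) ≤ v) (hv1 : v ≤ 1) :
    0 ≤ ((4 * (9/20) - ((-(87/2000)) * (v - L / 3) + (17427/40000) / 3) * (2 + v)^2) * (L * (1 + L - v)) - 1 * ((L - v * (1 + L - v)) * (2 + v)^2)) := by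
  have a0 : 0 ≤ L - (33/10) := by linarith
  have a1 : 0 ≤ (7/2) - L := by linarith
  have b0 : 0 ≤ v - (1/2) := by linarith
  have b1 : 0 ≤ 1 - v := by linarith
  have key : ((4 * (9/20) - ((-(87/2000)) * (v - L / 3) + (17427/40000) / 3) * (2 + v)^2) * (L * (1 + L - v)) - 1 * ((L - v * (1 + L - v)) * (2 + v)^2))
    = (126209/160) * (((7/2) - L)^3 * (1 - v)^4) + (11265661/1600) * (((7/2) - L)^3 * (v - (1/2)) * (1 - v)^3) + (176557053/8000) * (((7/2) - L)^3 * (v - (1/2))^2 * (1 - v)^2) + (6461163/250) * (((7/2) - L)^3 * (v - (1/2))^3 * (1 - v)) + (19768617/2000) * (((7/2) - L)^3 * (v - (1/2))^4) + (109313/40) * ((L - (33/10)) * ((7/2) - L)^2 * (1 - v)^4) + (35584853/1600) * ((L - (33/10)) * ((7/2) - L)^2 * (v - (1/2)) * (1 - v)^3) + (543277719/8000) * ((L - (33/10)) * ((7/2) - L)^2 * (v - (1/2))^2 * (1 - v)^2) + (79114491/1000) * ((L - (33/10)) * ((7/2) - L)^2 * (v - (1/2))^3 * (1 - v)) + (60565131/2000)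 * ((L - (33/10)) * ((7/2) - L)^2 * (v - (1/2))^4) + (99395/32) * ((L - (33/10))^2 * ((7/2) - L) * (1 - v)^4) + (1494083/64) * ((L - (33/10))^2 * ((7/2) - L) * (v - (1/2)) * (1 - v)^3) + (22249907/320) * ((L - (33/10))^2 * ((7/2) - L) * (v - (1/2))^2 * (1 - v)^2) + (4030131/50) * ((L - (33/10))^2 * ((7/2) - L) * (v - (1/2))^3 * (1 - v)) + (12351843/400) * ((L - (33/10))^2 * ((7/2) - L) * (v - (1/2))^4) + (9285/8) * ((L - (33/10))^3 * (1 - v)^4) + (520907/64) * ((L - (33/10))^3 * (v - (1/2)) * (1 - v)^3) + (7577721/320) * ((L - (33/10))^3 * (v - (1/2))^2 * (1 - v)^2) + (218601/8) * ((L - (33/10))^3 * (v - (1/2))^3 * (1 - v)) + (838341/80) * ((L - (33/10))^3 * (v - (1/2))^4) := by ring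
  rw [key]; positivity

lemma UB8_p1 (L v : ℝ) (hL0 : (33/10) ≤ L) (hL1 : L ≤ (7/2)) (hv0 : 0 ≤ v) (hv1 : v ≤ 1) :
    0 ≤ ((4 * (9/20) - ((-(87/2000)) * (v - L / 3) + (17427/40000) / 3) * (2 + v)^2) * (L * (1 + L - v)) - 1 * ((L - v * (1 + L - v)) * (2 + v)^2)) := by
  rcases le_total v (1/2) with h0 | h0
  · skip
    rcases le_total L (17/5) with h1 | h1
    · skip
      rcases le_total v (1/4) with h2 | h2
      · skip
        exact UB8_p1_c0 L v (by linarith) (by linarith) (by linarith) (by linarith)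
      · skip
        exact UB8_p1_c1 L v (by linarith) (by linarith) (by linarith) (by linarith)
    · skip
      exact UB8_p1_c2 L v (by linarith) (by linarith) (by linarith) (by linarith)
  · skip
    exact UB8_p1_c3 L v (by linarith) (by linarith) (by linarith) (by linarith)

private lemma UB8_p0_c0 (L v : ℝ) (hL0 : (33/10) ≤ L) (hL1 : L ≤ (7/2)) (hv0 : 1 ≤ v) (hv1 : v ≤ (9/4)) :
    0 ≤ (4 * (9/20) - ((-(87/2000)) * (v - L / 3) + (17427/40000) / 3) * (2 + v)^2) := by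
  have a0 : 0 ≤ L - (33/10) := by linarith
  have a1 : 0 ≤ (7/2) - L := by linarith
  have b0 : 0 ≤ v - 1 := by linarith
  have b1 : 0 ≤ (9/4) - v := by linarith
  have key : (4 * (9/20) - ((-(87/2000)) * (v - L / 3) + (17427/40000) / 3) * (2 + v)^2)
    = (18153/15625) * (((7/2) - L) * ((9/4) - v)^3) + (58323/31250) * (((7/2) - L) * (v - 1) * ((9/4) - v)^2) + (173249/250000) * (((7/2) - L) * (v - 1)^2 * ((9/4) - v)) + (3218/15625) * (((7/2) - L) * (v - 1)^3) + (17109/15625) * ((L - (33/10)) * ((9/4) - v)^3) + (50319/31250) * ((L - (33/10)) * (v - 1) * ((9/4) - v)^2) + (92397/250000) * ((L - (33/10)) * (v - 1)^2 * ((9/4) - v)) + (4491/62500) * ((L - (33/10)) * (v - 1)^3) := by ring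
  rw [key]; positivity

private lemma UB8_p0_c1 (L v : ℝ) (hL0 : (33/10) ≤ L) (hL1 : L ≤ (7/2)) (hv0 : (9/4) ≤ v) (hv1 : v ≤ (7/2)) :
    0 ≤ (4 * (9/20) - ((-(87/2000)) * (v - L / 3) + (17427/40000) / 3) * (2 + v)^2) := by
  have a0 : 0 ≤ L - (33/10) := by linarith
  have a1 : 0 ≤ (7/2) - L := by linarith
  have b0 : 0 ≤ v - (9/4) := by linarith
  have b1 : 0 ≤ (7/2) - v := by linarith
  have key : (4 * (9/20) - ((-(87/2000)) * (v - L / 3) + (17427/40000) / 3) * (2 + v)^2)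
    = (3218/15625) * (((7/2) - L) * ((7/2) - v)^3) + (135679/250000) * (((7/2) - L) * (v - (9/4)) * ((7/2) - v)^2) + (97861/62500) * (((7/2) - L) * (v - (9/4))^2 * ((7/2) - v)) + (90407/62500) * (((7/2) - L) * (v - (9/4))^3) + (4491/62500) * ((L - (33/10)) * ((7/2) - v)^3) + (15387/250000) * ((L - (33/10)) * (v - (9/4)) * ((7/2) - v)^2) + (62133/62500) * ((L - (33/10)) * (v - (9/4))^2 * ((7/2) - v)) + (76371/62500) * ((L - (33/10)) * (v - (9/4))^3) := by ring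
  rw [key]; positivity

lemma UB8_p0 (L v : ℝ) (hL0 : (33/10) ≤ L) (hL1 : L ≤ (7/2)) (hv0 : 1 ≤ v) (hv1 : v ≤ (7/2)) :
    0 ≤ (4 * (9/20) - ((-(87/2000)) * (v - L / 3) + (17427/40000) / 3) * (2 + v)^2) := by
  rcases le_total v (9/4) with h0 | h0
  · skip
    exact UB8_p0_c0 L v (by linarith) (by linarith) (by linarith) (by linarith)
  · skip
    exact UB8_p0_c1 L v (by linarith) (by linarith) (by linarith) (by linarith)

end AffInc.Cert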