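import Pool.Agent.Helper72.AI.Stmts2

set_option autoImplicit false
set_option linter.all false

/-! Bernstein certificate (generated). -/

namespace AffInc.Cert

-- piece UB9: L in [7/2, 19/5], C=2/5 w=1 m=-17/500 R=1783/5000
private lemma UB9_p1_c0 (L v : ℝ) (hL0 : (7/2) ≤ L) (hL1 : L ≤ (73/20)) (hv0 : 0 ≤ v) (hv1 : v ≤ (1/4)) :
    0 ≤ ((4 * (2/5) - ((-(17/500)) * (v - L / 3) + (1783/5000) / 3) * (2 + v)^2) * (L * (1 + L - v)) - 1 * ((L - v * (1 + L - v)) * (2 + v)^2)) := by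
  have a0 : 0 ≤ L - (7/2) := by linarith
  have a1 : 0 ≤ (73/20) - L := by linarith
  have b0 : 0 ≤ v := by linarith
  have b1 : 0 ≤ (1/4) - v := by linarith
  have key : ((4 * (2/5) - ((-(17/500)) * (v - L / 3) + (1783/5000) / 3) * (2 + v)^2) * (L * (1 + L - v)) - 1 * ((L - v * (1 + L - v)) * (2 + v)^2))
    = (12414976/135) * (((73/20) - L)^3 * ((1/4) - v)^4) + (93483008/405) * (((73/20) - L)^3 * v * ((1/4) - v)^3) + (79805504/405) * (((73/20) - L)^3 * v^2 * ((1/4) - v)^2) + (354032/5) * (((73/20) - L)^3 * v^3 * ((1/4) - v)) + (1658296/135) * (((73/20) - L)^3 * v^4) + (209363968/675) * ((L - (7/2)) * ((73/20) - L)^2 * ((1/4) - v)^4) + (4069632/5) * ((L - (7/2)) * ((73/20) - L)^2 * v * ((1/4) - v)^3) + (507730448/675) * ((L - (7/2)) * ((73/20) - L)^2 * v^2 * ((1/4) - v)^2) + (69183464/225) * ((L - (7/2)) * ((73/20) - L)^2 * v^3 * ((1/4) - v)) + (4353764/75) * ((L - (7/2)) * ((73/20) - L)^2 * v^4)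 + (1165990912/3375) * ((L - (7/2))^2 * ((73/20) - L) * ((1/4) - v)^4) + (3169651456/3375) * ((L - (7/2))^2 * ((73/20) - L) * v * ((1/4) - v)^3) + (344385136/375) * ((L - (7/2))^2 * ((73/20) - L) * v^2 * ((1/4) - v)^2) + (456306416/1125) * ((L - (7/2))^2 * ((73/20) - L) * v^3 * ((1/4) - v)) + (89915456/1125) * ((L - (7/2))^2 * ((73/20) - L) * v^4) + (143168768/1125) * ((L - (7/2))^3 * ((1/4) - v)^4) + (3604525376/10125) * ((L - (7/2))^3 * v * ((1/4) - v)^3) + (3676784564/10125) * ((L - (7/2))^3 * v^2 * ((1/4) - v)^2) + (189983872/1125) * ((L - (7/2))^3 * v^3 * ((1/4) - v)) + (115234816/3375) * ((L - (7/2))^3 * v^4) := by ring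
  rw [key]; positivity

private lemma UB9_p1_c1 (L v : ℝ) (hL0 : (7/2) ≤ L) (hL1 : L ≤ (73/20)) (hv0 : (1/4) ≤ v) (hv1 : v ≤ (1/2)) :
    0 ≤ ((4 * (2/5) - ((-(17/500)) * (v - L / 3) + (1783/5000) / 3) * (2 + v)^2) * (L * (1 + L - v)) - 1 * ((L - v * (1 + L - v)) * (2 + v)^2)) := by
  have a0 : 0 ≤ L - (7/2) := by linarith
  have a1 : 0 ≤ (73/20) - L := by linarith
  have b0 : 0 ≤ v - (1/4) := by linarith
  have b1 : 0 ≤ (1/2) - v := by linarith
  have key : ((4 * (2/5) - ((-(17/500)) * (v - L / 3) + (1783/5000) / 3) * (2 + v)^2) * (L * (1 + L - v)) - 1 * ((L - v * (1 + L - v)) * (2 + v)^2))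
    = (1658296/135) * (((73/20) - L)^3 * ((1/2) - v)^4) + (3707504/135) * (((73/20) - L)^3 * (v - (1/4)) * ((1/2) - v)^3) + (27143264/405) * (((73/20) - L)^3 * (v - (1/4))^2 * ((1/2) - v)^2) + (2721088/27) * (((73/20) - L)^3 * (v - (1/4))^3 * ((1/2) - v)) + (3937280/81) * (((73/20) - L)^3 * (v - (1/4))^4) + (4353764/75) * ((L - (7/2)) * ((73/20) - L)^2 * ((1/2) - v)^4) + (35306872/225) * ((L - (7/2)) * ((73/20) - L)^2 * (v - (1/4)) * ((1/2) - v)^3) + (40568224/135) * ((L - (7/2)) * ((73/20) - L)^2 * (v - (1/4))^2 * ((1/2) - v)^2) + (9792032/27) * ((L - (7/2)) * ((73/20) - L)^2 * (v - (1/4))^3 * ((1/2) - v)) + (1440320/9) * ((L - (7/2)) * ((73/20) - L)^2 * (v - (1/4))^4) + (89915456/1125) * ((L - (7/2))^2 * ((73/20) - L) * ((1/2) - v)^4) + (263017232/1125) * ((L - (7/2))^2 * ((73/20) - L) * (v - (1/4)) * ((1/2) - v)^3) + (151095952/375) * ((L - (7/2))^2 * ((73/20) - L) * (v - (1/4))^2 * ((1/2) - v)^2)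 + (286613248/675) * ((L - (7/2))^2 * ((73/20) - L) * (v - (1/4))^3 * ((1/2) - v)) + (23565632/135) * ((L - (7/2))^2 * ((73/20) - L) * (v - (1/4))^4) + (115234816/3375) * ((L - (7/2))^3 * ((1/2) - v)^4) + (351926912/3375) * ((L - (7/2))^3 * (v - (1/4)) * ((1/2) - v)^3) + (1714562228/10125) * ((L - (7/2))^3 * (v - (1/4))^2 * ((1/2) - v)^2) + (36597712/225) * ((L - (7/2))^3 * (v - (1/4))^3 * ((1/2) - v)) + (25561552/405) * ((L - (7/2))^3 * (v - (1/4))^4) := by ring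
  rw [key]; positivity

private lemma UB9_p1_c2 (L v : ℝ) (hL0 : (73/20) ≤ L) (hL1 : L ≤ (19/5)) (hv0 : 0 ≤ v) (hv1 : v ≤ (1/2)) :
    0 ≤ ((4 * (2/5) - ((-(17/500)) * (v - L / 3) + (1783/5000) / 3) * (2 + v)^2) * (L * (1 + L - v)) - 1 * ((L - v * (1 + L - v)) * (2 + v)^2)) := by
  have a0 : 0 ≤ L - (73/20) := by linarith
  have a1 : 0 ≤ (19/5) - L := by linarith
  have b0 : 0 ≤ v := by linarith
  have b1 : 0 ≤ (1/2) - v := by linarith
  have key : ((4 * (2/5) - ((-(17/500)) * (v - L / 3) + (1783/5000) / 3) * (2 + v)^2) * (L * (1 + L - v)) - 1 * ((L - v * (1 + L - v)) * (2 + v)^2))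
    = (8948048/1125) * (((19/5) - L)^3 * ((1/2) - v)^4) + (128435944/10125) * (((19/5) - L)^3 * v * ((1/2) - v)^3) + (50693717/10125) * (((19/5) - L)^3 * v^2 * ((1/2) - v)^2) + (9220486/2025) * (((19/5) - L)^3 * v^3 * ((1/2) - v)) + (1597597/405) * (((19/5) - L)^3 * v^4) + (88190432/3375) * ((L - (73/20)) * ((19/5) - L)^2 * ((1/2) - v)^4) + (152163184/3375) * ((L - (73/20)) * ((19/5) - L)^2 * v * ((1/2) - v)^3) + (77893582/3375) * ((L - (73/20)) * ((19/5) - L)^2 * v^2 * ((1/2) - v)^2) + (12071356/675) * ((L - (73/20)) * ((19/5) - L)^2 * v^3 * ((1/2) - v)) + (574114/45) * ((L - (73/20)) * ((19/5) - L)^2 * v^4) + (19211648/675) * ((L - (73/20))^2 * ((19/5) - L) * ((1/2) - v)^4) + (7063168/135) * ((L - (73/20))^2 * ((19/5) - L) * v * ((1/2) - v)^3) + (2353208/75) * ((L - (73/20))^2 * ((19/5) - L) * v^2 * ((1/2) - v)^2) + (2999516/135) * ((L - (73/20))^2 * ((19/5) - L) * v^3 * ((1/2) - v)) + (369856/27)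 * ((L - (73/20))^2 * ((19/5) - L) * v^4) + (34709504/3375) * ((L - (73/20))^3 * ((1/2) - v)^4) + (201650944/10125) * ((L - (73/20))^3 * v * ((1/2) - v)^3) + (134640512/10125) * ((L - (73/20))^3 * v^2 * ((1/2) - v)^2) + (17990896/2025) * ((L - (73/20))^3 * v^3 * ((1/2) - v)) + (1977952/405) * ((L - (73/20))^3 * v^4) := by ring
  rw [key]; positivity

private lemma UB9_p1_c3 (L v : ℝ) (hL0 : (7/2) ≤ L) (hL1 : L ≤ (19/5)) (hv0 : (1/2) ≤ v) (hv1 : v ≤ 1) :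
    0 ≤ ((4 * (2/5) - ((-(17/500)) * (v - L / 3) + (1783/5000) / 3) * (2 + v)^2) * (L * (1 + L - v)) - 1 * ((L - v * (1 + L - v)) * (2 + v)^2)) := by
  have a0 : 0 ≤ L - (7/2) := by linarith
  have a1 : 0 ≤ (19/5) - L := by linarith
  have b0 : 0 ≤ v - (1/2) := by linarith
  have b1 : 0 ≤ 1 - v := by linarith
  have key : ((4 * (2/5) - ((-(17/500)) * (v - L / 3) + (1783/5000) / 3) * (2 + v)^2) * (L * (1 + L - v)) - 1 * ((L - v * (1 + L - v)) * (2 + v)^2))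
    = (30760/81) * (((19/5) - L)^3 * (1 - v)^4) + (8947/3) * (((19/5) - L)^3 * (v - (1/2)) * (1 - v)^3) + (3413632/405) * (((19/5) - L)^3 * (v - (1/2))^2 * (1 - v)^2) + (84116/9) * (((19/5) - L)^3 * (v - (1/2))^3 * (1 - v)) + (469616/135) * (((19/5) - L)^3 * (v - (1/2))^4) + (36755/27) * ((L - (7/2)) * ((19/5) - L)^2 * (1 - v)^4) + (262610/27) * ((L - (7/2)) * ((19/5) - L)^2 * (v - (1/2)) * (1 - v)^3) + (1193629/45) * ((L - (7/2)) * ((19/5) - L)^2 * (v - (1/2))^2 * (1 - v)^2) + (6546356/225) * ((L - (7/2)) * ((19/5) - L)^2 * (v - (1/2))^3 * (1 - v)) + (2432276/225) * ((L - (7/2)) * ((19/5) - L)^2 * (v - (1/2))^4) + (71692/45) * ((L - (7/2))^2 * ((19/5) - L) * (1 - v)^4) + (7102507/675) * ((L - (7/2))^2 * ((19/5) - L) * (v - (1/2)) * (1 - v)^3) + (93673136/3375) * ((L - (7/2))^2 * ((19/5) - L) * (v - (1/2))^2 * (1 - v)^2) + (33888164/1125) * ((L - (7/2))^2 * ((19/5) - L) * (v - (1/2))^3 * (1 - v)) +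 (4189424/375) * ((L - (7/2))^2 * ((19/5) - L) * (v - (1/2))^4) + (247244/405) * ((L - (7/2))^3 * (1 - v)^4) + (2546966/675) * ((L - (7/2))^3 * (v - (1/2)) * (1 - v)^3) + (97710604/10125) * ((L - (7/2))^3 * (v - (1/2))^2 * (1 - v)^2) + (11664152/1125) * ((L - (7/2))^3 * (v - (1/2))^3 * (1 - v)) + (12955568/3375) * ((L - (7/2))^3 * (v - (1/2))^4) := by ring
  rw [key]; positivity

lemma UB9_p1 (L v : ℝ) (hL0 : (7/2) ≤ L) (hL1 : L ≤ (19/5)) (hv0 : 0 ≤ v) (hv1 : v ≤ 1) :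
    0 ≤ ((4 * (2/5) - ((-(17/500)) * (v - L / 3) + (1783/5000) / 3) * (2 + v)^2) * (L * (1 + L - v)) - 1 * ((L - v * (1 + L - v)) * (2 + v)^2)) := by
  rcases le_total v (1/2) with h0 | h0
  · skip
    rcases le_total L (73/20) with h1 | h1
    · skip
      rcases le_total v (1/4) with h2 | h2
      · skip
        exact UB9_p1_c0 L v (by linarith) (by linarith) (by linarith) (by linarith)
      · skip
        exact UB9_p1_c1 L v (by linarith) (by linarith) (by linarith) (by linarith)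
    · skip
      exact UB9_p1_c2 L v (by linarith) (by linarith) (by linarith) (by linarith)
  · skip
    exact UB9_p1_c3 L v (by linarith) (by linarith) (by linarith) (by linarith)

private lemma UB9_p0_c0 (L v : ℝ) (hL0 : (7/2) ≤ L) (hL1 : L ≤ (19/5)) (hv0 : 1 ≤ v) (hv1 : v ≤ (12/5)) :
    0 ≤ (4 * (2/5) - ((-(17/500)) * (v - L / 3) + (1783/5000) / 3) * (2 + v)^2) := by
  have a0 : 0 ≤ L - (7/2) := by linarith
  have a1 : 0 ≤ (19/5) - L := by linarith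
  have b0 : 0 ≤ v - 1 := by linarith
  have b1 : 0 ≤ (12/5) - v := by linarith
  have key : (4 * (2/5) - ((-(17/500)) * (v - L / 3) + (1783/5000) / 3) * (2 + v)^2)
    = (599/1029) * (((19/5) - L) * ((12/5) - v)^3) + (10249/10290) * (((19/5) - L) * (v - 1) * ((12/5) - v)^2) + (33562/77175) * (((19/5) - L) * (v - 1)^2 * ((12/5) - v)) + (10366/77175) * (((19/5) - L) * (v - 1)^3) + (2243/4116) * ((L - (7/2)) * ((12/5) - v)^3) + (17489/20580) * ((L - (7/2)) * (v - 1) * ((12/5) - v)^2) + (18976/77175) * ((L - (7/2)) * (v - 1)^2 * ((12/5) - v)) + (839/15435) * ((L - (7/2)) * (v - 1)^3) := by ring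
  rw [key]; positivity

private lemma UB9_p0_c1 (L v : ℝ) (hL0 : (7/2) ≤ L) (hL1 : L ≤ (19/5)) (hv0 : (12/5) ≤ v) (hv1 : v ≤ (19/5)) :
    0 ≤ (4 * (2/5) - ((-(17/500)) * (v - L / 3) + (1783/5000) / 3) * (2 + v)^2) := by
  have a0 : 0 ≤ L - (7/2) := by linarith
  have a1 : 0 ≤ (19/5) - L := by linarith
  have b0 : 0 ≤ v - (12/5) := by linarith
  have b1 : 0 ≤ (19/5) - v := by linarith
  have key : (4 * (2/5) - ((-(17/500)) * (v - L / 3) + (1783/5000) / 3) * (2 + v)^2)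
    = (10366/77175) * (((19/5) - L) * ((19/5) - v)^3) + (28634/77175) * (((19/5) - L) * (v - (12/5)) * ((19/5) - v)^2) + (134023/154350) * (((19/5) - L) * (v - (12/5))^2 * ((19/5) - v)) + (11498/15435) * (((19/5) - L) * (v - (12/5))^3) + (839/15435) * ((L - (7/2)) * ((19/5) - v)^3) + (6194/77175) * ((L - (7/2)) * (v - (12/5)) * ((19/5) - v)^2) + (160079/308700) * ((L - (7/2)) * (v - (12/5))^2 * ((19/5) - v)) + (187069/308700) * ((L - (7/2)) * (v - (12/5))^3) := by ring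
  rw [key]; positivity

lemma UB9_p0 (L v : ℝ) (hL0 : (7/2) ≤ L) (hL1 : L ≤ (19/5)) (hv0 : 1 ≤ v) (hv1 : v ≤ (19/5)) :
    0 ≤ (4 * (2/5) - ((-(17/500)) * (v - L / 3) + (1783/5000) / 3) * (2 + v)^2) := by
  rcases le_total v (12/5) with h0 | h0
  · skip
    exact UB9_p0_c0 L v (by linarith) (by linarith) (by linarith) (by linarith)
  · skip
    exact UB9_p0_c1 L v (by linarith) (by linarith) (by linarith) (by linarith)

end AffInc.Cert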