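import Pool.Agent.Helper72.AI.Stmts2

set_option autoImplicit false
set_option linter.all false

/-! Bernstein certificate (generated). -/

namespace AffInc.Cert

-- piece UZ0: L in [1/2, 3/5], C=4141/10000 w=7/27 m=0 R=142921/202500
private lemma UZ0_p1_c0 (L v : ℝ) (hL0 : (1/2) ≤ L) (hL1 : L ≤ (3/5)) (hv0 : 0 ≤ v) (hv1 : v ≤ (3/5)) :
    0 ≤ ((4 * (4141/10000) - (0 * (v - L / 3) + (142921/202500) / 3) * (2 + v)^2) * (L * (1 + L - v)) - (7/27) * ((L - v * (1 + L - v)) * (2 + v)^2)) := by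
  have a0 : 0 ≤ L - (1/2) := by linarith
  have a1 : 0 ≤ (3/5) - L := by linarith
  have b0 : 0 ≤ v := by linarith
  have b1 : 0 ≤ (3/5) - v := by linarith
  have key : ((4 * (4141/10000) - (0 * (v - L / 3) + (142921/202500) / 3) * (2 + v)^2) * (L * (1 + L - v)) - (7/27) * ((L - v * (1 + L - v)) * (2 + v)^2))
    = (364475/26244) * (((3/5) - L)^2 * ((3/5) - v)^4) + (189475/4374) * (((3/5) - L)^2 * v * ((3/5) - v)^3) + (2067505/8748) * (((3/5) - L)^2 * v^2 * ((3/5) - v)^2) + (20329739/65610) * (((3/5) - L)^2 * v^3 * ((3/5) - v)) + (1684463/21870) * (((3/5) - L)^2 * v^4) + (2289215/39366) * ((L - (1/2)) * ((3/5) - L) * ((3/5) - v)^4) + (3459869/39366) * ((L - (1/2)) * ((3/5) - L) * v * ((3/5) - v)^3) + (10788148/32805) * ((L - (1/2)) * ((3/5) - L) * v^2 * ((3/5) - v)^2) + (225397621/492075) * ((L - (1/2)) * ((3/5) - L) * v^3 * ((3/5) - v)) + (52693576/492075) * ((L - (1/2)) * ((3/5) - L) * v^4) + (326632/6561)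 * ((L - (1/2))^2 * ((3/5) - v)^4) + (2043539/32805) * ((L - (1/2))^2 * v * ((3/5) - v)^3) + (6118751/54675) * ((L - (1/2))^2 * v^2 * ((3/5) - v)^2) + (25571488/164025) * ((L - (1/2))^2 * v^3 * ((3/5) - v)) + (1002926/32805) * ((L - (1/2))^2 * v^4) := by ring
  rw [key]; positivity

lemma UZ0_p1 (L v : ℝ) (hL0 : (1/2) ≤ L) (hL1 : L ≤ (3/5)) (hv0 : 0 ≤ v) (hv1 : v ≤ (3/5)) :
    0 ≤ ((4 * (4141/10000) - (0 * (v - L / 3) + (142921/202500) / 3) * (2 + v)^2) * (L * (1 + L - v)) - (7/27) * ((L - v * (1 + L - v)) * (2 + v)^2)) := by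
  exact UZ0_p1_c0 L v (by linarith) (by linarith) (by linarith) (by linarith)

end AffInc.Cert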